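import Mathlib

/-! The near-critical case: `w x` close to `z u`. -/

namespace Pool.Agent.MP_09c87f_nt

/-- `b ∣ c^z - (multiple)` computations: modulo `b ^ min y v`. -/
lemma near_congr (a b c x y z u v w : ℕ) (hy : 1 ≤ y) (hv : 1 ≤ v)
    (h1 : a ^ x + b ^ y = c ^ z) (h2 : a ^ u + b ^ v = c ^ w) :
    (b : ℤ) ∣ (c : ℤ) ^ (z * u) - (c : ℤ) ^ (w * x) := by
  have e1 : (c : ℤ) ^ z ≡ a ^ x [ZMOD b] := by
    have : ((c : ℤ) ^ z) = a ^ x + b ^ y := by exact_mod_cast h1.symm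
    rw [this]
    have hb : (b : ℤ) ∣ (b : ℤ) ^ y := dvd_pow_self _ (by omega)
    have := (Int.modEq_zero_iff_dvd.2 hb).add_left ((a : ℤ) ^ x)
    simpa using this
  have e2 : (c : ℤ) ^ w ≡ a ^ u [ZMOD b] := by
    have : ((c : ℤ) ^ w) = a ^ u + b ^ v := by exact_mod_cast h2.symm
    rw [this]
    have hb : (b : ℤ) ∣ (b : ℤ) ^ v := dvd_pow_self _ (by omega)
    have := (Int.modEq_zero_iff_dvd.2 hb).add_left ((a : ℤ) ^ u)
    simpa using this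
  have e3 := e1.pow u
  have e4 := e2.pow x
  rw [← pow_mul, ← pow_mul] at e3 e4
  rw [mul_comm u x] at e4
  exact (e4.trans e3.symm).dvd

/-- if `wx ≠ zu` then `b ≤ c ^ |wx - zu|`. -/
lemma near_ne (a b c x y z u v w : ℕ) (hc : 2 ≤ c) (hbc : b.Coprime c) (hy : 1 ≤ y) (hv : 1 ≤ v)
    (h1 : a ^ x + b ^ y = c ^ z) (h2 : a ^ u + b ^ v = c ^ w) (hne : w * x ≠ z * u) :
    b ≤ c ^ ((w * x - z * u) + (z * u - w * x)) := by
  have h := near_congr a b c x y z u v w hy hv h1 h2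
  have hbcZ : IsCoprime (b : ℤ) (c : ℤ) := Nat.isCoprime_iff_coprime.2 hbc
  rcases lt_or_gt_of_ne hne with hlt | hgt
  · -- w x < z u
    obtain ⟨d, hd⟩ : ∃ d, z * u = w * x + d := ⟨z * u - w * x, by omega⟩
    have hd0 : d ≠ 0 := by omega
    have : (w * x - z * u) + (z * u - w * x) = d := by omega
    rw [this]
    rw [hd, pow_add] at h
    have h3 : (c : ℤ) ^ (w * x) * c ^ d - (c : ℤ) ^ (w * x) = c ^ (w * x) * (c ^ d - 1) := by ring
    rw [h3] at h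
    have h4 : (b : ℤ) ∣ (c : ℤ) ^ d - 1 := (hbcZ.pow_right).dvd_of_dvd_mul_left h
    have h5 : (1 : ℤ) < (c : ℤ) ^ d := by
      have : 1 < c ^ d := Nat.one_lt_pow hd0 (by omega)
      exact_mod_cast this
    have h6 := Int.le_of_dvd (by linarith) h4
    have h7 : (b : ℤ) ≤ (c : ℤ) ^ d := by linarith
    exact_mod_cast h7
  · obtain ⟨d, hd⟩ : ∃ d, w * x = z * u + d := ⟨w * x - z * u, by omega⟩
    have hd0 : d ≠ 0 := by omega
    have : (w * x - z * u) + (z * u - w * x) = d := by omega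
    rw [this]
    rw [hd, pow_add] at h
    have h3 : (c : ℤ) ^ (z * u) - (c : ℤ) ^ (z * u) * c ^ d = -(c ^ (z * u) * (c ^ d - 1)) := by ring
    rw [h3] at h
    have h4 : (b : ℤ) ∣ (c : ℤ) ^ d - 1 := (hbcZ.pow_right).dvd_of_dvd_mul_left ((dvd_neg).1 h)
    have h5 : (1 : ℤ) < (c : ℤ) ^ d := by
      have : 1 < c ^ d := Nat.one_lt_pow hd0 (by omega)
      exact_mod_cast this
    have h6 := Int.le_of_dvd (by linarith) h4
    have h7 : (b : ℤ) ≤ (c : ℤ) ^ d := by linarith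
    exact_mod_cast h7

/-- expansion `(C - B)^u = C^u - u C^(u-1) B + B^2 * stuff`. -/
lemma sub_pow_expand (C B : ℤ) (u : ℕ) (hu : 1 ≤ u) :
    ∃ q : ℤ, (C - B) ^ u = C ^ u - u * C ^ (u - 1) * B + B ^ 2 * q := by
  obtain ⟨n, rfl⟩ : ∃ n, u = n + 1 := ⟨u - 1, by omega⟩
  clear hu
  induction n with
  | zero => exact ⟨0, by simp⟩
  | succ n ih =>
    obtain ⟨q, hq⟩ := ih
    refine ⟨(C - B) * q + (n + 1) * C ^ n, ?_⟩
    rw [pow_succ, hq]
    simp only [Nat.add_sub_cancel]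
    push_cast
    ring

/-- if `wx = zu` and `y < v` then `b ≤ u`. -/
lemma near_eq_lt (a b c x y z u v w : ℕ) (hbc : b.Coprime c)
    (hb : 1 ≤ b) (hy : 1 ≤ y) (hu : 1 ≤ u) 
    (h1 : a ^ x + b ^ y = c ^ z) (h2 : a ^ u + b ^ v = c ^ w) (heq : w * x = z * u)
    (hyv : y < v) (hx : 1 ≤ x) : b ≤ u := by
  have hbcZ : IsCoprime (b : ℤ) (c : ℤ) := Nat.isCoprime_iff_coprime.2 hbc
  have e1 : (a : ℤ) ^ x = c ^ z - b ^ y := by
    have : (a : ℤ) ^ x + b ^ y = c ^ z := by exact_mod_cast h1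
    linarith
  have e2 : (a : ℤ) ^ u = c ^ w - b ^ v := by
    have : (a : ℤ) ^ u + b ^ v = c ^ w := by exact_mod_cast h2
    linarith
  obtain ⟨q1, hq1⟩ := sub_pow_expand ((c : ℤ) ^ z) (b ^ y) u hu
  obtain ⟨q2, hq2⟩ := sub_pow_expand ((c : ℤ) ^ w) (b ^ v) x hx
  rw [← e1] at hq1
  rw [← e2] at hq2
  have h3 : ((a : ℤ) ^ x) ^ u = ((a : ℤ) ^ u) ^ x := by rw [← pow_mul, ← pow_mul, mul_comm]
  have h4 : ((c : ℤ) ^ z) ^ u = ((c : ℤ) ^ w) ^ x := by rw [← pow_mul, ← pow_mul, heq]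
  obtain ⟨d, hd⟩ : ∃ d, v = y + (d + 1) := ⟨v - y - 1, by omega⟩
  obtain ⟨e, he⟩ : ∃ e, y = e + 1 := ⟨y - 1, by omega⟩
  have hbv : (b : ℤ) ^ v = b ^ y * (b * b ^ d) := by rw [hd, pow_add, pow_succ]; ring
  -- b ^ y * (u * C) = b ^ y * (b * stuff)
  have h5 : (b : ℤ) ^ y * (u * (c ^ z) ^ (u - 1)) = b ^ y * (b * (b ^ d * (x * (c ^ w) ^ (x - 1))
      + b ^ e * q1 - b ^ d * b ^ v * q2)) := by
    have h6 : (b : ℤ) ^ y = b * b ^ e := by rw [he, pow_succ]; ring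
    have h7 : (u : ℤ) * (c ^ z) ^ (u - 1) * b ^ y = x * (c ^ w) ^ (x - 1) * b ^ v
        + (b ^ y) ^ 2 * q1 - (b ^ v) ^ 2 * q2 := by linarith
    have h8 : ((b : ℤ) ^ y) ^ 2 * q1 = b ^ y * (b * b ^ e) * q1 := by rw [← h6]; ring
    have h9 : ((b : ℤ) ^ v) ^ 2 * q2 = b ^ y * (b * b ^ d) * b ^ v * q2 := by rw [← hbv]; ring
    rw [h8, h9] at h7
    calc (b : ℤ) ^ y * (u * (c ^ z) ^ (u - 1)) = (u : ℤ) * (c ^ z) ^ (u - 1) * b ^ y := by ring
      _ = x * (c ^ w) ^ (x - 1) * b ^ v + b ^ y * (b * b ^ e) * q1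
          - b ^ y * (b * b ^ d) * b ^ v * q2 := h7
      _ = x * (c ^ w) ^ (x - 1) * (b ^ y * (b * b ^ d)) + b ^ y * (b * b ^ e) * q1
          - b ^ y * (b * b ^ d) * b ^ v * q2 := by rw [← hbv]
      _ = _ := by ring
  have hb0 : (b : ℤ) ^ y ≠ 0 := pow_ne_zero _ (by positivity)
  have h6 := mul_left_cancel₀ hb0 h5
  have h7 : (b : ℤ) ∣ (u : ℤ) * (c ^ z) ^ (u - 1) := ⟨_, h6⟩
  rw [← pow_mul] at h7
  have h8 : (b : ℤ) ∣ (u : ℤ) := (hbcZ.pow_right).dvd_of_dvd_mul_right h7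
  have h9 : b ∣ u := by exact_mod_cast h8
  exact Nat.le_of_dvd (by omega) h9

/-- `C^m - A^m` is strictly increasing in `m` if `A < C` -/
lemma mono_lemma {C A m n : ℕ} (hA : 1 ≤ A) (hAC : A < C) (hmn : m < n) (hm : 1 ≤ m) :
    C ^ m + A ^ n < C ^ n + A ^ m := by
  obtain ⟨d, rfl⟩ : ∃ d, n = m + (d + 1) := ⟨n - m - 1, by omega⟩
  have h1 : A ^ m < C ^ m := Nat.pow_lt_pow_left hAC (by omega)
  have h2 : A ^ (d + 1) < C ^ (d + 1) := Nat.pow_lt_pow_left hAC (by omega)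
  have h3 : 1 ≤ A ^ (d + 1) := Nat.one_le_pow _ _ hA
  rw [pow_add A m (d + 1), pow_add C m (d + 1)]
  obtain ⟨p, hp⟩ : ∃ p, C ^ m = A ^ m + p := ⟨C ^ m - A ^ m, by omega⟩
  obtain ⟨q, hq⟩ : ∃ q, C ^ (d + 1) = A ^ (d + 1) + q := ⟨C ^ (d + 1) - A ^ (d + 1), by omega⟩
  rw [hp, hq]
  have hp0 : 0 < p := by omega
  have hq0 : 0 < q := by omega
  have hAm : 1 ≤ A ^ m := Nat.one_le_pow _ _ hA
  have e1 : p ≤ p * A ^ (d + 1) := Nat.le_mul_of_pos_right _ h3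
  have e2 : 0 < A ^ m * q := Nat.mul_pos hAm hq0
  have e3 : (A ^ m + p) * (A ^ (d + 1) + q) = A ^ m * A ^ (d + 1) + A ^ m * q + p * A ^ (d + 1)
    + p * q := by ring
  rw [e3]
  have e4 : 0 ≤ p * q := Nat.zero_le _
  omega

/-- if `wx = zu` and `y = v` then the two solutions agree. -/
lemma near_eq_eq (a b c x y z u w : ℕ) (ha : 1 ≤ a) (hb : 1 ≤ b) (hx : 1 ≤ x) (hu : 1 ≤ u)
    (h1 : a ^ x + b ^ y = c ^ z) (h2 : a ^ u + b ^ y = c ^ w) (heq : w * x = z * u) :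
    x = u := by
  -- write x = g * x1, u = g * u1 with coprime x1, u1
  obtain ⟨g, x1, u1, hg, hco, hx1, hu1⟩ := Nat.exists_coprime' (m := x) (n := u)
    (Nat.gcd_pos_of_pos_left _ hx)
  subst hx1
  subst hu1
  have hx1 : 1 ≤ x1 := Nat.pos_of_ne_zero (by rintro rfl; simp at hx)
  have hu1 : 1 ≤ u1 := Nat.pos_of_ne_zero (by rintro rfl; simp at hu)
  have h3 : w * x1 = z * u1 := by
    have : (w * x1) * g = (z * u1) * g := by rw [mul_assoc, mul_assoc]; exact heq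
    exact Nat.eq_of_mul_eq_mul_right hg this
  have h4 : x1 ∣ z := hco.dvd_of_dvd_mul_right (Dvd.intro_left w h3)
  obtain ⟨z1, hz1⟩ := h4
  have h5 : w = z1 * u1 := by
    have : w * x1 = z1 * u1 * x1 := by rw [h3, hz1]; ring
    exact Nat.eq_of_mul_eq_mul_right hx1 this
  set C := c ^ z1 with hC
  set A := a ^ g with hA
  have e1 : A ^ x1 + b ^ y = C ^ x1 := by
    rw [hA, hC, ← pow_mul, ← pow_mul, mul_comm g x1, h1, hz1, mul_comm]
  have e2 : A ^ u1 + b ^ y = C ^ u1 := by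
    rw [hA, hC, ← pow_mul, ← pow_mul, mul_comm g u1, h2, h5]
  have hA1 : 1 ≤ A := Nat.one_le_pow _ _ ha
  have hby : 1 ≤ b ^ y := Nat.one_le_pow _ _ hb
  have hAC : A < C := by
    by_contra h
    push Not at h
    have := Nat.pow_le_pow_left h x1
    omega
  rcases lt_trichotomy x1 u1 with h | h | h
  · have := mono_lemma hA1 hAC h hx1
    omega
  · rw [h]
  · have := mono_lemma hA1 hAC h hu1
    omega

/-- The near-critical case. -/
theorem near (N M a b c x y z u v w : ℕ) (ha : 1 ≤ a) (hb : 1 ≤ b) (hc : 2 ≤ c)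
    (hx : 1 ≤ x) (hy : 1 ≤ y) (hu : 1 ≤ u) (hv : 1 ≤ v)
    (hbc : b.Coprime c)
    (h1 : a ^ x + b ^ y = c ^ z) (h2 : a ^ u + b ^ v = c ^ w)
    (hne : (x, y) ≠ (u, v)) (hxM : x ≤ M) (huM : u ≤ M)
    (hM : w * x ≠ z * u → c ^ ((w * x - z * u) + (z * u - w * x)) ≤ M)
    (hbN : c ^ z ≤ b ^ N) : c ^ z ≤ M ^ N := by
  have hbM : b ≤ M := by
    by_cases heq : w * x = z * u
    · rcases lt_trichotomy y v with h | h | h
      · exact (near_eq_lt a b c x y z u v w hbc hb hy hu h1 h2 heq h hx).trans huM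
      · subst h
        exact absurd (by rw [near_eq_eq a b c x y z u w ha hb hx hu h1 h2 heq]) hne
      · exact (near_eq_lt a b c u v w x y z hbc hb hv hx h2 h1 heq.symm h hu).trans hxM
    · exact (near_ne a b c x y z u v w hc hbc hy hv h1 h2 heq).trans (hM heq)
  exact hbN.trans (Nat.pow_le_pow_left hbM N)

end Pool.Agent.MP_09c87f_nt
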