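import Pool.Agent.MP_09c87f_nt.Case1
import Pool.Agent.MP_09c87f_nt.Near

/-! Assembly of the analytic part: bounded exponents imply bounded `c ^ z`. -/

namespace Pool.Agent.MP_09c87f_nt

lemma dom_lemma {a c x z u w : ℕ} (hc : 2 ≤ c) (hx : 1 ≤ x)
    (hd : c ^ z ≤ 2 * a ^ x) (h : a ^ u < c ^ w) : z * u < w * x + u := by
  have h1 : c ^ (z * u) < c ^ (w * x + u) := by
    calc c ^ (z * u) = (c ^ z) ^ u := by rw [pow_mul]
      _ ≤ (2 * a ^ x) ^ u := by gcongr
      _ = 2 ^ u * (a ^ u) ^ x := by rw [mul_pow]; ring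
      _ ≤ c ^ u * (a ^ u) ^ x := by gcongr
      _ < c ^ u * (c ^ w) ^ x := by
          apply Nat.mul_lt_mul_of_pos_left _ (by positivity)
          exact Nat.pow_lt_pow_left h (by omega)
      _ = c ^ (w * x + u) := by rw [← pow_mul, ← pow_add, add_comm]
  exact (Nat.pow_lt_pow_iff_right (by omega)).1 h1

/-- bounded exponents imply bounded `c ^ z`, assuming that `a` dominates the first equation -/
theorem assembled_aux (N a b c x y z u v w : ℕ) (hN : 2 ^ 20 ≤ N) (ha : 2 ≤ a) (hb : 2 ≤ b)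
    (hc : 2 ≤ c) (hcN : c ≤ N)
    (hx : 1 ≤ x) (hy : 1 ≤ y) (hz : 1 ≤ z) (hu : 1 ≤ u) (hv : 1 ≤ v)
    (hab : a.Coprime b) (hac : a.Coprime c) (hbc : b.Coprime c)
    (h1 : a ^ x + b ^ y = c ^ z) (h2 : a ^ u + b ^ v = c ^ w) (hne : (x, y) ≠ (u, v))
    (hxN : x ≤ N) (hyN : y ≤ N) (huN : u ≤ N) (hvN : v ≤ N) (hzw : z ≤ w) (hwN : w ≤ N * z)
    (haN : c ^ z ≤ a ^ N) (hbN : c ^ z ≤ b ^ N) (hdA : c ^ z ≤ 2 * a ^ x) :
    c ^ z ≤ 2 ^ (N ^ 45) := by
  have hNp : 1 ≤ N := by omega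
  have ha1 : 1 ≤ a := by omega
  have hb1 : 1 ≤ b := by omega
  have hax : a ^ x < c ^ z := by
    have : 0 < b ^ y := by positivity
    omega
  have hby : b ^ y < c ^ z := by
    have : 0 < a ^ x := by positivity
    omega
  have hau : a ^ u < c ^ w := by
    have : 0 < b ^ v := by positivity
    omega
  have hbv : b ^ v < c ^ w := by
    have : 0 < a ^ u := by positivity
    omega
  have hNM : N ≤ 2 ^ (N ^ 15) :=
    (Nat.le_self_pow (by norm_num) N).trans Nat.lt_two_pow_self.le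
  have hcNM : ∀ d, d ≤ N → c ^ d ≤ 2 ^ (N ^ 15) := by
    intro d hd
    calc c ^ d ≤ N ^ d := by gcongr
      _ ≤ N ^ N := Nat.pow_le_pow_right hNp hd
      _ ≤ (2 ^ N) ^ N := Nat.pow_le_pow_left Nat.lt_two_pow_self.le N
      _ = 2 ^ (N ^ 2) := by rw [← pow_mul, pow_two]
      _ ≤ 2 ^ (N ^ 15) := Nat.pow_le_pow_right (by norm_num)
          (Nat.pow_le_pow_right hNp (by norm_num))
  have hfin : (2 ^ (N ^ 15)) ^ N ≤ 2 ^ (N ^ 45) := by
    rw [← pow_mul]
    apply Nat.pow_le_pow_right (by norm_num)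
    calc N ^ 15 * N = N ^ 16 := by ring
      _ ≤ N ^ 45 := Nat.pow_le_pow_right hNp (by norm_num)
  have hD1 : z * u < w * x + u := dom_lemma hc hx hdA hau
  -- near with `b`
  have nearb : (w * x ≠ z * u → c ^ ((w * x - z * u) + (z * u - w * x)) ≤ 2 ^ (N ^ 15)) →
      c ^ z ≤ 2 ^ (N ^ 45) := by
    intro h
    exact (near N (2 ^ (N ^ 15)) a b c x y z u v w ha1 hb1 hc hx hy hu hv hbc h1 h2 hne
      (hxN.trans hNM) (huN.trans hNM) h hbN).trans hfin
  have neara : (w * y ≠ z * v → c ^ ((w * y - z * v) + (z * v - w * y)) ≤ 2 ^ (N ^ 15)) →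
      c ^ z ≤ 2 ^ (N ^ 45) := by
    intro h
    refine (near N (2 ^ (N ^ 15)) b a c y x z v u w hb1 ha1 hc hy hx hv hu hac
      (by rw [add_comm]; exact h1) (by rw [add_comm]; exact h2) ?_
      (hyN.trans hNM) (hvN.trans hNM) h haN).trans hfin
    intro h
    apply hne
    simp only [Prod.mk.injEq] at h ⊢
    exact ⟨h.2, h.1⟩
  by_cases hdA2 : c ^ w ≤ 2 * a ^ u
  · -- same dominance
    have hD2 : w * x < z * u + x := dom_lemma hc hu hdA2 hax
    apply nearb
    intro _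
    exact hcNM _ (by omega)
  · have hdB : c ^ w ≤ 2 * b ^ v := by omega
    have hD2 : w * y < z * v + y := dom_lemma hc hv hdB hby
    by_cases g1 : z * u < w * x
    · by_cases g2 : w * y < z * v
      · by_cases p1 : c ^ (w * x - z * u) ≤ 2 ^ (N ^ 15)
        · apply nearb
          intro _
          have : (w * x - z * u) + (z * u - w * x) = w * x - z * u := by omega
          rw [this]
          exact p1
        · by_cases p2 : c ^ (z * v - w * y) ≤ 2 ^ (N ^ 15)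
          · apply neara
            intro _
            have : (w * y - z * v) + (z * v - w * y) = z * v - w * y := by omega
            rw [this]
            exact p2
          · exact case1 N a b c x y z u v w hN ha hb hc hx hy hz hu hv hab hac h1 h2 hdA hdB
              hxN hyN huN hvN hzw hwN g2 g1 p2 p1
      · apply neara
        intro _
        exact hcNM _ (by omega)
    · apply nearb
      intro _
      exact hcNM _ (by omega)

theorem assembled (N a b c x y z u v w : ℕ) (hN : 2 ^ 20 ≤ N) (ha : 2 ≤ a) (hb : 2 ≤ b)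
    (hc : 2 ≤ c) (hcN : c ≤ N)
    (hx : 1 ≤ x) (hy : 1 ≤ y) (hz : 1 ≤ z) (hu : 1 ≤ u) (hv : 1 ≤ v)
    (hab : a.Coprime b) (hac : a.Coprime c) (hbc : b.Coprime c)
    (h1 : a ^ x + b ^ y = c ^ z) (h2 : a ^ u + b ^ v = c ^ w) (hne : (x, y) ≠ (u, v))
    (hxN : x ≤ N) (hyN : y ≤ N) (huN : u ≤ N) (hvN : v ≤ N) (hzw : z ≤ w) (hwN : w ≤ N * z)
    (haN : c ^ z ≤ a ^ N) (hbN : c ^ z ≤ b ^ N) :
    c ^ z ≤ 2 ^ (N ^ 45) := by
  by_cases hdA : c ^ z ≤ 2 * a ^ x
  · exact assembled_aux N a b c x y z u v w hN ha hb hc hcN hx hy hz hu hv hab hac hbc h1 h2 hne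
      hxN hyN huN hvN hzw hwN haN hbN hdA
  · refine assembled_aux N b a c y x z v u w hN hb ha hc hcN hy hx hz hv hu hab.symm hbc hac
      (by rw [add_comm]; exact h1) (by rw [add_comm]; exact h2) ?_
      hyN hxN hvN huN hzw hwN hbN haN (by omega)
    intro h
    apply hne
    simp only [Prod.mk.injEq] at h ⊢
    exact ⟨h.2, h.1⟩

end Pool.Agent.MP_09c87f_nt
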