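import Pool.Agent.MP_09c87f_nt.Box

open Polynomial

namespace Pool.Agent.MP_09c87f_nt

/-- all coefficients bounded by `K` -/
def Bd (K : ℤ) (P : ℤ[X][X]) : Prop := ∀ i j, |(P.coeff i).coeff j| ≤ K

lemma Bd.nonneg {K : ℤ} {P : ℤ[X][X]} (h : Bd K P) : 0 ≤ K :=
  le_trans (abs_nonneg ((P.coeff 0).coeff 0)) (h 0 0)

lemma Bd.mul_outer {K : ℤ} {P : ℤ[X][X]} (h : Bd K P) : Bd (2 * K) ((1 - X) * P) := by
  intro i j
  have h0 := h.nonneg
  have h1 := h i j
  have h2 : |((X * P).coeff i).coeff j| ≤ K := by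
    cases i with
    | zero =>
      rw [coeff_X_mul_zero, coeff_zero, abs_zero]
      exact h0
    | succ i => rw [coeff_X_mul]; exact h i j
  have h3 : (((1 - X) * P).coeff i).coeff j = (P.coeff i).coeff j - ((X * P).coeff i).coeff j := by
    rw [sub_mul, one_mul, coeff_sub, coeff_sub]
  rw [h3]
  have h4 := abs_sub ((P.coeff i).coeff j) (((X * P).coeff i).coeff j)
  linarith

lemma Bd.mul_inner {K : ℤ} {P : ℤ[X][X]} (h : Bd K P) : Bd (2 * K) (C (1 - X) * P) := by
  intro i j
  have h0 := h.nonneg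
  have h1 := h i j
  have h2 : |(X * P.coeff i).coeff j| ≤ K := by
    cases j with
    | zero =>
      rw [coeff_X_mul_zero, abs_zero]
      exact h0
    | succ j => rw [coeff_X_mul]; exact h i j
  have h3 : ((C (1 - X) * P).coeff i).coeff j = (P.coeff i).coeff j - (X * P.coeff i).coeff j := by
    rw [coeff_C_mul, sub_mul, one_mul, coeff_sub]
  rw [h3]
  have h4 := abs_sub ((P.coeff i).coeff j) ((X * P.coeff i).coeff j)
  linarith

lemma Bd.mul_outer_pow {K : ℤ} {P : ℤ[X][X]} (h : Bd K P) (n : ℕ) :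
    Bd (2 ^ n * K) ((1 - X) ^ n * P) := by
  induction n with
  | zero => simpa using h
  | succ n ih =>
    have := ih.mul_outer
    rw [pow_succ', pow_succ', mul_assoc, mul_assoc]
    exact this

lemma Bd.mul_inner_pow {K : ℤ} {P : ℤ[X][X]} (h : Bd K P) (n : ℕ) :
    Bd (2 ^ n * K) (C (1 - X) ^ n * P) := by
  induction n with
  | zero => simpa using h
  | succ n ih =>
    have := ih.mul_inner
    rw [pow_succ', pow_succ', mul_assoc, mul_assoc]
    exact this

lemma bd_monomial (n m : ℕ) : Bd 1 (monomial n (monomial m (1 : ℤ))) := by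
  intro i j
  simp only [coeff_monomial]
  split_ifs
  · simp only [coeff_monomial]
    split_ifs <;> simp
  · simp

lemma t10_monomial {R : Type*} [CommRing R] (n m : ℕ) (r : R) :
    t10 (monomial n (monomial m r)) = (1 - X) ^ n * C (monomial m r) := by
  simp only [t10, coe_compRingHom_apply, monomial_comp]
  ring

lemma t11_monomial {R : Type*} [CommRing R] (n m : ℕ) (r : R) :
    t11 (monomial n (monomial m r)) = (1 - X) ^ n * (C (1 - X) ^ m * C (C r)) := by
  have : t11 (monomial n (monomial m r)) =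
    mapRingHom (compRingHom (1 - X)) (t10 (monomial n (monomial m r))) := rfl
  rw [this, t10_monomial, map_mul, map_pow, map_sub, map_one]
  simp only [coe_mapRingHom, map_X, map_C, coe_compRingHom_apply, monomial_comp]
  rw [C_mul, C_pow]
  ring

lemma bd_t10_monomial (n m : ℕ) : Bd (2 ^ n) (t10 (monomial n (monomial m (1 : ℤ)))) := by
  rw [t10_monomial]
  have h : Bd 1 (C (monomial m (1 : ℤ)) : ℤ[X][X]) := by
    have := bd_monomial 0 m
    rwa [monomial_zero_left] at this
  simpa using h.mul_outer_pow n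

lemma bd_t11_monomial (n m : ℕ) : Bd (2 ^ (n + m)) (t11 (monomial n (monomial m (1 : ℤ)))) := by
  rw [t11_monomial]
  have h : Bd 1 (C (C (1 : ℤ)) : ℤ[X][X]) := by
    have := bd_monomial 0 0
    rwa [monomial_zero_left, monomial_zero_left] at this
  have h2 := (h.mul_inner_pow m).mul_outer_pow n
  rw [pow_add]
  simpa using h2

end Pool.Agent.MP_09c87f_nt
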