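import Mathlib

open Polynomial Set

namespace Pool.Agent.MP_09c87f_nt

lemma arc_exists (g φ : ℝ → ℝ) (w' a b : ℝ) (hw : 0 ≤ w') (hgc : ContinuousOn g (Icc 0 w'))
    (hg : StrictMonoOn g (Icc 0 w')) (hφc : ContinuousOn φ (Icc a b))
    (hφ : ∀ s ∈ Icc a b, φ s ∈ Icc (g 0) (g w')) :
    ∃ τ : ℝ → ℝ, ContinuousOn τ (Icc a b) ∧ ∀ s ∈ Icc a b, τ s ∈ Icc 0 w' ∧ g (τ s) = φ s := by
  classical
  have hsub : Icc (g 0) (g w') ⊆ g '' Icc 0 w' := intermediate_value_Icc hw hgc
  have : OrdConnected (g '' Icc 0 w') :=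
    (isPreconnected_Icc.image g hgc).ordConnected
  let e := hg.orderIso g (Icc 0 w')
  have hec : Continuous e.symm := e.symm.continuous
  have key : ∀ y : (g '' Icc 0 w'), g (e.symm y : ℝ) = y := by
    intro y
    have := e.apply_symm_apply y
    exact congrArg Subtype.val this
  let ψ : Icc a b → (g '' Icc 0 w') := fun s => ⟨φ s, hsub (hφ s s.2)⟩
  have hψ : Continuous ψ := by
    apply Continuous.subtype_mk
    exact continuousOn_iff_continuous_domRestrict.1 hφc
  refine ⟨fun s => if h : s ∈ Icc a b then (e.symm (ψ ⟨s, h⟩) : ℝ) else 0, ?_, ?_⟩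
  · rw [continuousOn_iff_continuous_domRestrict]
    have : (Icc a b).domRestrict (fun s => if h : s ∈ Icc a b then (e.symm (ψ ⟨s, h⟩) : ℝ) else 0)
        = fun s : Icc a b => (e.symm (ψ s) : ℝ) := by
      funext s
      have hs := s.2
      simp only [Set.domRestrict_apply]
      rw [dif_pos hs]
    rw [this]
    exact continuous_subtype_val.comp (hec.comp hψ)
  · intro s hs
    simp only [hs, dite_true]
    refine ⟨(e.symm (ψ ⟨s, hs⟩)).2, key _⟩

lemma bump_hasDeriv (A B : ℕ) (hA : 0 < A) (hB : 0 < B) (s : ℝ) :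
    HasDerivAt (fun s : ℝ => s ^ A * (1 - s) ^ B)
      (s ^ (A - 1) * (1 - s) ^ (B - 1) * (A - (A + B) * s)) s := by
  have h1 : HasDerivAt (fun s : ℝ => s ^ A) (A * s ^ (A - 1)) s := hasDerivAt_pow A s
  have h2 : HasDerivAt (fun s : ℝ => (1 - s) ^ B) (B * (1 - s) ^ (B - 1) * (-1)) s := by
    have := ((hasDerivAt_id s).const_sub 1).fun_pow B
    simpa using this
  have h3 := h1.fun_mul h2
  refine h3.congr_deriv ?_
  obtain ⟨A, rfl⟩ : ∃ k, A = k + 1 := ⟨A - 1, by omega⟩
  obtain ⟨B, rfl⟩ : ∃ k, B = k + 1 := ⟨B - 1, by omega⟩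
  simp only [Nat.add_sub_cancel]
  push_cast
  ring

lemma bump_strictMono (A B : ℕ) (hA : 0 < A) (hB : 0 < B) :
    StrictMonoOn (fun s : ℝ => s ^ A * (1 - s) ^ B) (Icc 0 ((A : ℝ) / (A + B))) := by
  have hAB : (0 : ℝ) < A + B := by positivity
  apply strictMonoOn_of_deriv_pos (convex_Icc _ _)
  · fun_prop
  · intro s hs
    rw [interior_Icc] at hs
    rw [(bump_hasDeriv A B hA hB s).deriv]
    have h1 : 0 < s := hs.1
    have h2 : s * (A + B) < A := by rw [← lt_div_iff₀ hAB]; exact hs.2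
    have h3 : s < 1 := by
      have : (A : ℝ) / (A + B) ≤ 1 := by
        rw [div_le_one hAB]; have : (0 : ℝ) ≤ B := by positivity
        linarith
      linarith [hs.2]
    have h4 : 0 < 1 - s := by linarith
    have h5 : 0 < (A : ℝ) - (A + B) * s := by linarith
    positivity

lemma bump_strictAnti (A B : ℕ) (hA : 0 < A) (hB : 0 < B) :
    StrictAntiOn (fun s : ℝ => s ^ A * (1 - s) ^ B) (Icc ((A : ℝ) / (A + B)) 1) := by
  have hAB : (0 : ℝ) < A + B := by positivity
  apply strictAntiOn_of_deriv_neg (convex_Icc _ _)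
  · fun_prop
  · intro s hs
    rw [interior_Icc] at hs
    rw [(bump_hasDeriv A B hA hB s).deriv]
    have h2 : A < s * (A + B) := by rw [← div_lt_iff₀ hAB]; exact hs.1
    have h1 : 0 < s := lt_of_le_of_lt (by positivity) hs.1
    have h4 : 0 < 1 - s := by linarith [hs.2]
    have h5 : (A : ℝ) - (A + B) * s < 0 := by linarith
    have h6 : 0 < s ^ (A - 1) * (1 - s) ^ (B - 1) := by positivity
    exact mul_neg_of_pos_of_neg h6 h5

end Pool.Agent.MP_09c87f_nt
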