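import Pool.Agent.MP_09c87f_nt.Excl
import Pool.Agent.MP_09c87f_nt.Excl2

open Polynomial Set

namespace Pool.Agent.MP_09c87f_nt

/-- The bump polynomial `X ^ A * (1 - X) ^ B`. -/
noncomputable def bp (A B : ℕ) : ℝ[X] := X ^ A * (1 - X) ^ B

/-- `f(s) - κ g(t)` as a polynomial in `s` over `ℝ[t]`. -/
noncomputable def curve (A B A' B' : ℕ) (κ : ℝ) : ℝ[X][X] :=
  (bp A B).map C - C (C κ * bp A' B')

lemma bp_ne_zero (A B : ℕ) : bp A B ≠ 0 := by
  have h : (1 - X : ℝ[X]) ≠ 0 := by
    intro h
    have := congrArg (eval 0) h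
    simp at this
  exact mul_ne_zero (pow_ne_zero _ X_ne_zero) (pow_ne_zero _ h)

lemma bp_eval (A B : ℕ) (s : ℝ) : (bp A B).eval s = s ^ A * (1 - s) ^ B := by
  simp [bp]

lemma bp_natDegree (A B : ℕ) : (bp A B).natDegree = A + B := by
  have h1 : (1 - X : ℝ[X]).natDegree = 1 := by
    have : (1 - X : ℝ[X]) = -(X - C 1) := by simp
    rw [this, natDegree_neg, natDegree_X_sub_C]
  have h : (1 - X : ℝ[X]) ≠ 0 := by
    intro h
    rw [h] at h1
    simp at h1
  rw [bp, natDegree_mul (pow_ne_zero _ X_ne_zero) (pow_ne_zero _ h), natDegree_pow, natDegree_pow,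
    natDegree_X, h1]
  ring

lemma bp_deriv (A B : ℕ) : X * (1 - X) * derivative (bp A B) =
    bp A B * (C (A : ℝ) - C ((A : ℝ) + B) * X) := by
  apply Polynomial.funext
  intro s
  have h := log_deriv 1 A B s
  simp only [C_1, one_mul] at h
  simp only [bp, eval_mul, eval_sub, eval_C, eval_X, eval_one]
  simp only [eval_mul] at h
  linear_combination h

lemma curve_evalEval (A B A' B' : ℕ) (κ s t : ℝ) :
    (curve A B A' B' κ).evalEval t s = s ^ A * (1 - s) ^ B - κ * (t ^ A' * (1 - t) ^ B') := by
  simp [curve, evalEval_sub, evalEval_map_C, evalEval_C, bp_eval]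

lemma curve_map (A B A' B' : ℕ) (κ t : ℝ) :
    (curve A B A' B' κ).map (evalRingHom t) = bp A B - C (κ * (t ^ A' * (1 - t) ^ B')) := by
  simp only [curve, Polynomial.map_sub, Polynomial.map_map, map_C, coe_evalRingHom, eval_mul,
    eval_C, bp_eval]
  congr 1
  have : (evalRingHom t).comp C = RingHom.id ℝ := by
    ext; simp
  rw [this, Polynomial.map_id]

lemma curve_eval (A B A' B' : ℕ) (κ w : ℝ) :
    (curve A B A' B' κ).eval (C w) = C ((bp A B).eval w) - C κ * bp A' B' := by
  simp only [curve, eval_sub, eval_map, eval_C, eval₂_at_apply]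

lemma curve_deriv_eval (A B A' B' : ℕ) (κ w : ℝ) :
    (derivative (curve A B A' B' κ)).eval (C w) = C ((derivative (bp A B)).eval w) := by
  simp only [curve, derivative_sub, derivative_map, derivative_C, sub_zero, eval_map,
    eval₂_at_apply]

lemma curve_leadingCoeff (A B A' B' : ℕ) (hA : 0 < A) (κ : ℝ) :
    IsUnit (curve A B A' B' κ).leadingCoeff := by
  have hd : ((bp A B).map C : ℝ[X][X]).natDegree = A + B := by
    rw [natDegree_map_eq_of_injective C_injective, bp_natDegree]
  have h1 : (curve A B A' B' κ).leadingCoeff = ((bp A B).map C : ℝ[X][X]).leadingCoeff := by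
    rw [curve]
    apply leadingCoeff_sub_of_degree_lt
    apply lt_of_le_of_lt degree_C_le
    rw [← natDegree_pos_iff_degree_pos, hd]
    omega
  rw [h1, leadingCoeff_map_of_injective C_injective, Polynomial.isUnit_C]
  exact isUnit_iff_ne_zero.2 (leadingCoeff_ne_zero.2 (bp_ne_zero A B))

lemma swap_curve_leadingCoeff (A B A' B' : ℕ) (hA : 0 < A') {κ : ℝ} (hκ : κ ≠ 0) :
    IsUnit (Bivariate.swap (curve A B A' B' κ)).leadingCoeff := by
  have hne : (C κ * bp A' B' : ℝ[X]) ≠ 0 := mul_ne_zero (by simpa using hκ) (bp_ne_zero _ _)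
  have hd : ((C κ * bp A' B' : ℝ[X]).map C : ℝ[X][X]).natDegree = A' + B' := by
    rw [natDegree_map_eq_of_injective C_injective, natDegree_C_mul hκ, bp_natDegree]
  have h1 : (Bivariate.swap (curve A B A' B' κ)) =
      - (((C κ * bp A' B' : ℝ[X]).map C : ℝ[X][X]) - C (bp A B)) := by
    rw [curve, map_sub, Bivariate.swap_map_C, Bivariate.swap_C]
    ring
  rw [h1, leadingCoeff_neg]
  have h2 : (((C κ * bp A' B' : ℝ[X]).map C : ℝ[X][X]) - C (bp A B)).leadingCoeff =
      ((C κ * bp A' B' : ℝ[X]).map C : ℝ[X][X]).leadingCoeff := by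
    apply leadingCoeff_sub_of_degree_lt
    apply lt_of_le_of_lt degree_C_le
    rw [← natDegree_pos_iff_degree_pos, hd]
    omega
  rw [h2, leadingCoeff_map_of_injective C_injective]
  apply IsUnit.neg
  rw [Polynomial.isUnit_C]
  exact isUnit_iff_ne_zero.2 (leadingCoeff_ne_zero.2 hne)

lemma swap_coeff {R : Type*} [CommRing R] (F : R[X][X]) (i j : ℕ) :
    ((Bivariate.swap F).coeff j).coeff i = (F.coeff i).coeff j := by
  induction F using Polynomial.induction_on' with
  | add p q hp hq => simp [hp, hq]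
  | monomial n a =>
    induction a using Polynomial.induction_on' with
    | add p q hp hq =>
      rw [map_add, map_add, coeff_add, coeff_add, hp, hq, coeff_add, coeff_add]
    | monomial m r =>
      rw [Bivariate.swap_monomial_monomial]
      simp only [coeff_monomial]
      by_cases h1 : n = i <;> by_cases h2 : m = j <;> simp [h1, h2, coeff_monomial]

lemma swap_map_eval (F : ℝ[X][X]) (w : ℝ) :
    F.eval (C w) = (Bivariate.swap F).map (evalRingHom w) := by
  induction F using Polynomial.induction_on' with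
  | add p q hp hq => simp [hp, hq]
  | monomial n a =>
    induction a using Polynomial.induction_on' with
    | add p q hp hq =>
      rw [map_add, eval_add, map_add, Polynomial.map_add, hp, hq]
    | monomial m r =>
      rw [Bivariate.swap_monomial_monomial]
      simp only [eval_monomial, map_monomial, coe_evalRingHom]
      rw [← C_pow, mul_comm, C_mul_monomial, mul_comm]

lemma deriv_coeff_lt (F : ℝ[X][X]) (hF : IsUnit (Bivariate.swap F).leadingCoeff) (w : ℝ) :
    ((derivative F).eval (C w) = 0 ∨
      ((derivative F).eval (C w)).natDegree < (F.eval (C w)).natDegree) ∧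
    (F.eval (C w)).natDegree = (Bivariate.swap F).natDegree := by
  obtain ⟨c, hc, hcF⟩ := Polynomial.isUnit_iff.1 hF
  have h1 : (F.eval (C w)).natDegree = (Bivariate.swap F).natDegree := by
    rw [swap_map_eval]
    apply natDegree_map_of_leadingCoeff_ne_zero
    rw [← hcF]
    simpa using hc.ne_zero
  refine ⟨?_, h1⟩
  by_cases h0 : (derivative F).eval (C w) = 0
  · left; exact h0
  right
  by_contra hlt
  push Not at hlt
  set F1 := (derivative F).eval (C w) with hF1
  have h2 : F1.coeff F1.natDegree ≠ 0 := by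
    rw [coeff_natDegree]; exact leadingCoeff_ne_zero.2 h0
  apply h2
  have h3 : ∀ k, F1.coeff k = (derivative ((Bivariate.swap F).coeff k)).eval w := by
    intro k
    rw [hF1, swap_map_eval, coeff_map, coe_evalRingHom]
    congr 1
    ext i
    rw [swap_coeff, coeff_derivative, coeff_derivative, swap_coeff]
    rw [show ((i : ℝ[X]) + 1) = C ((i : ℝ) + 1) by simp, coeff_mul_C]
  rw [h3]
  rcases eq_or_lt_of_le hlt with h | h
  · rw [← h, h1, coeff_natDegree, ← hcF]
    simp
  · rw [coeff_eq_zero_of_natDegree_lt (by rw [← h1]; exact h)]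
    simp

end Pool.Agent.MP_09c87f_nt
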