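import Pool.Agent.MP_09c87f_nt.Cond
import Pool.Agent.MP_09c87f_nt.Excl3

open Polynomial

namespace Pool.Agent.MP_09c87f_nt

variable {R : Type*} [CommRing R]

/-- support inside `[0,I] × [0,J]` -/
def Box (I J : ℕ) (F : R[X][X]) : Prop :=
  F.natDegree ≤ I ∧ (Bivariate.swap F).natDegree ≤ J

lemma Box.coeff {I J : ℕ} {F : R[X][X]} (h : Box I J F) {i j : ℕ}
    (hij : (F.coeff i).coeff j ≠ 0) : i ≤ I ∧ j ≤ J := by
  constructor
  · by_contra h1
    push Not at h1
    apply hij
    rw [coeff_eq_zero_of_natDegree_lt (lt_of_le_of_lt h.1 h1), coeff_zero]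
  · by_contra h1
    push Not at h1
    apply hij
    rw [← swap_coeff, coeff_eq_zero_of_natDegree_lt (lt_of_le_of_lt h.2 h1), coeff_zero]

lemma box_of_coeff {I J : ℕ} {F : R[X][X]}
    (h : ∀ i j, (F.coeff i).coeff j ≠ 0 → i ≤ I ∧ j ≤ J) : Box I J F := by
  constructor
  · rw [natDegree_le_iff_coeff_eq_zero]
    intro i hi
    ext j
    rw [coeff_zero]
    by_contra h1
    have := (h i j h1).1
    omega
  · rw [natDegree_le_iff_coeff_eq_zero]
    intro j hj
    ext i
    rw [coeff_zero, swap_coeff]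
    by_contra h1
    have := (h i j h1).2
    omega

lemma Box.mono {I J I' J' : ℕ} {F : R[X][X]} (h : Box I J F) (hI : I ≤ I') (hJ : J ≤ J') :
    Box I' J' F := ⟨h.1.trans hI, h.2.trans hJ⟩

lemma Box.mul {I J I' J' : ℕ} {F G : R[X][X]} (hF : Box I J F) (hG : Box I' J' G) :
    Box (I + I') (J + J') (F * G) := by
  refine ⟨natDegree_mul_le.trans (add_le_add hF.1 hG.1), ?_⟩
  rw [map_mul]
  exact natDegree_mul_le.trans (add_le_add hF.2 hG.2)

lemma Box.add {I J : ℕ} {F G : R[X][X]} (hF : Box I J F) (hG : Box I J G) :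
    Box I J (F + G) := by
  refine ⟨natDegree_add_le_of_degree_le hF.1 hG.1, ?_⟩
  rw [map_add]
  exact natDegree_add_le_of_degree_le hF.2 hG.2

lemma Box.neg {I J : ℕ} {F : R[X][X]} (hF : Box I J F) : Box I J (-F) := by
  refine ⟨by rw [natDegree_neg]; exact hF.1, ?_⟩
  rw [map_neg, natDegree_neg]; exact hF.2

lemma Box.sum {ι : Type*} {I J : ℕ} (s : Finset ι) (f : ι → R[X][X])
    (h : ∀ a ∈ s, Box I J (f a)) : Box I J (∑ a ∈ s, f a) := by
  refine ⟨natDegree_sum_le_of_forall_le _ _ (fun a ha => (h a ha).1), ?_⟩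
  rw [map_sum]
  exact natDegree_sum_le_of_forall_le _ _ (fun a ha => (h a ha).2)

lemma Box.smul {I J : ℕ} {F : R[X][X]} (hF : Box I J F) (r : R) : Box I J (r • F) := by
  apply box_of_coeff
  intro i j h
  apply hF.coeff
  intro h0
  apply h
  rw [coeff_smul, coeff_smul, h0, smul_zero]

lemma box_monomial {I J n m : ℕ} (hn : n ≤ I) (hm : m ≤ J) (r : R) :
    Box I J (monomial n (monomial m r)) := by
  apply box_of_coeff
  intro i j h
  simp only [coeff_monomial] at h
  by_cases h1 : n = i
  · by_cases h2 : m = j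
    · omega
    · simp [h1, coeff_monomial, h2] at h
  · simp [h1] at h

lemma swap_t10 (F : R[X][X]) :
    Bivariate.swap (t10 F) = mapRingHom (compRingHom (1 - X)) (Bivariate.swap F) := by
  induction F using Polynomial.induction_on' with
  | add p q hp hq => rw [map_add, map_add, map_add, map_add, hp, hq]
  | monomial n a =>
    induction a using Polynomial.induction_on' with
    | add p q hp hq =>
      rw [map_add, map_add, map_add, map_add, map_add, hp, hq]
    | monomial m r =>
      rw [Bivariate.swap_monomial_monomial]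
      simp only [t10, coe_compRingHom_apply, monomial_comp, map_mul, map_pow, map_sub, map_one,
        coe_mapRingHom, map_monomial]
      rw [Bivariate.swap_Y, Bivariate.swap_C, map_monomial]
      rw [← C_mul_X_pow_eq_monomial, ← C_mul_X_pow_eq_monomial, C_mul, C_pow, C_sub, C_1]
      ring

lemma swap_mapc (F : R[X][X]) :
    Bivariate.swap (mapRingHom (compRingHom (1 - X)) F) = t10 (Bivariate.swap F) := by
  have h := swap_t10 (Bivariate.swap F)
  rw [Bivariate.swap_swap_apply] at h
  rw [← h, Bivariate.swap_swap_apply]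

lemma natDegree_t10_le (F : R[X][X]) : (t10 F).natDegree ≤ F.natDegree := by
  simp only [t10, coe_compRingHom_apply]
  refine natDegree_comp_le.trans ?_
  have : (1 - X : R[X][X]).natDegree ≤ 1 := by
    refine (natDegree_sub_le _ _).trans ?_
    simp [natDegree_X_le]
  calc _ ≤ F.natDegree * 1 := Nat.mul_le_mul_left _ this
    _ = _ := mul_one _

lemma Box.t10 {I J : ℕ} {F : R[X][X]} (hF : Box I J F) : Box I J (t10 F) := by
  refine ⟨(natDegree_t10_le F).trans hF.1, ?_⟩
  rw [swap_t10]
  exact natDegree_map_le.trans hF.2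

lemma Box.mapc {I J : ℕ} {F : R[X][X]} (hF : Box I J F) :
    Box I J (mapRingHom (compRingHom (1 - X)) F) := by
  refine ⟨natDegree_map_le.trans hF.1, ?_⟩
  rw [swap_mapc]
  exact (natDegree_t10_le _).trans hF.2

lemma Box.t11 {I J : ℕ} {F : R[X][X]} (hF : Box I J F) : Box I J (t11 F) :=
  hF.t10.mapc

lemma box_evalEval {I J : ℕ} {F : R[X][X]} (hF : Box I J F) (s t : R) :
    F.evalEval t s = ∑ i ∈ Finset.range (I + 1), ∑ j ∈ Finset.range (J + 1),
      (F.coeff i).coeff j * s ^ i * t ^ j := by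
  rw [evalEval, eval_eq_sum_range' (lt_of_le_of_lt hF.1 (Nat.lt_succ_self I)), eval_finset_sum]
  apply Finset.sum_congr rfl
  intro i _
  rw [eval_mul, eval_pow, eval_C]
  have hd : (F.coeff i).natDegree ≤ J := by
    rw [natDegree_le_iff_coeff_eq_zero]
    intro j hj
    by_contra h0
    have := (hF.coeff h0).2
    omega
  rw [eval_eq_sum_range' (lt_of_le_of_lt hd (Nat.lt_succ_self J)), Finset.sum_mul]
  apply Finset.sum_congr rfl
  intro j _
  ring

end Pool.Agent.MP_09c87f_nt
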