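import Pool.Agent.MP_09c87f_nt.Num

/-! The case in which both positions are good. -/

namespace Pool.Agent.MP_09c87f_nt

lemma T_bound {N m n x y u v : ℕ} (hn : n ≤ 48 * N ^ 3)
    (hxN : x ≤ N) (hyN : y ≤ N) (huN : u ≤ N) (hvN : v ≤ N) :
    n * (16 * (2 * (x * v) + u * y)) / m + 16 * (2 * (x * v) + u * y) ≤
      48 * N ^ 2 * (48 * N ^ 3 + 1) := by
  have hL0 : 16 * (2 * (x * v) + u * y) ≤ 48 * N ^ 2 := by
    have e1 : x * v ≤ N * N := Nat.mul_le_mul hxN hvN
    have e2 : u * y ≤ N * N := Nat.mul_le_mul huN hyN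
    nlinarith
  calc n * (16 * (2 * (x * v) + u * y)) / m + 16 * (2 * (x * v) + u * y)
      ≤ n * (16 * (2 * (x * v) + u * y)) + 16 * (2 * (x * v) + u * y) := by
        have := Nat.div_le_self (n * (16 * (2 * (x * v) + u * y))) m
        omega
    _ ≤ (48 * N ^ 3) * (48 * N ^ 2) + 48 * N ^ 2 := by
        have := Nat.mul_le_mul hn hL0
        omega
    _ = 48 * N ^ 2 * (48 * N ^ 3 + 1) := by ring

lemma pow_le_of_log' {c z r M q κ p : ℕ} (hc : 1 ≤ c) (hM : 1 ≤ M) (hr : 1 ≤ r)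
    (h : Real.log c * (z / r) ≤ Real.log M + κ * Real.log c * p + q * Real.log 2) :
    c ^ z ≤ (M * (c ^ κ) ^ p * 2 ^ q) ^ r := by
  have hcR : (0 : ℝ) < c := by exact_mod_cast hc
  have hMR : (0 : ℝ) < M := by exact_mod_cast hM
  have hrR : (0 : ℝ) < r := by exact_mod_cast hr
  have h0 : Real.log c * z = r * (Real.log c * (z / r)) := by field_simp
  have h1 : Real.log ((c : ℝ) ^ z) ≤ Real.log (((M : ℝ) * (c ^ κ) ^ p * 2 ^ q) ^ r) := by
    rw [Real.log_pow, Real.log_pow, Real.log_mul (by positivity) (by positivity),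
      Real.log_mul (by positivity) (by positivity), Real.log_pow, Real.log_pow, Real.log_pow,
      mul_comm, h0]
    apply mul_le_mul_of_nonneg_left _ hrR.le
    linarith
  have h2 := (Real.log_le_log_iff (by positivity) (by positivity)).1 h1
  exact_mod_cast h2

/-- `b ^ y * Q < c ^ z` when `w y < z v` by a good margin -/
lemma pos_lemma {b c y z v w Q : ℕ} (hc : 2 ≤ c) (hy : 1 ≤ y)
    (h2 : b ^ v < c ^ w) (h : w * y < z * v) (hQ : Q ^ v ≤ c ^ (z * v - w * y)) :
    b ^ y * Q < c ^ z := by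
  have h3 : (b ^ y * Q) ^ v < (c ^ z) ^ v := by
    calc (b ^ y * Q) ^ v = (b ^ v) ^ y * Q ^ v := by rw [mul_pow]; ring
      _ ≤ (b ^ v) ^ y * c ^ (z * v - w * y) := Nat.mul_le_mul_left _ hQ
      _ < (c ^ w) ^ y * c ^ (z * v - w * y) := by
          apply Nat.mul_lt_mul_of_pos_right _ (by positivity)
          exact Nat.pow_lt_pow_left h2 (by omega)
      _ = (c ^ z) ^ v := by
          rw [← pow_mul, ← pow_add, ← pow_mul]
          congr 1
          omega
  exact lt_of_pow_lt_pow_left₀ v (by omega) h3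

theorem case1 (N a b c x y z u v w : ℕ) (hN : 2 ^ 20 ≤ N) (ha : 2 ≤ a) (hb : 2 ≤ b) (hc : 2 ≤ c)
    (hx : 1 ≤ x) (hy : 1 ≤ y) (hz : 1 ≤ z) (hu : 1 ≤ u) (hv : 1 ≤ v)
    (hab : a.Coprime b) (hac : a.Coprime c)
    (h1 : a ^ x + b ^ y = c ^ z) (h2 : a ^ u + b ^ v = c ^ w)
    (hdA : c ^ z ≤ 2 * a ^ x) (hdB : c ^ w ≤ 2 * b ^ v)
    (hxN : x ≤ N) (hyN : y ≤ N) (huN : u ≤ N) (hvN : v ≤ N) (hzw : z ≤ w) (hwN : w ≤ N * z)
    (hN2 : w * y < z * v) (hN1 : z * u < w * x)
    (hp2 : ¬ c ^ (z * v - w * y) ≤ 2 ^ (N ^ 15)) (hp1 : ¬ c ^ (w * x - z * u) ≤ 2 ^ (N ^ 15)) :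
    c ^ z ≤ 2 ^ (N ^ 45) := by
  by_contra hbig
  have hNp : 1 ≤ N := by omega
  set T0 := 48 * N ^ 3 with hT0
  set K0 := HH T0 T0 with hK0
  have hT0N : T0 + 1 ≤ N ^ 4 := T0_le hN
  have hK0le : K0 ≤ 2 ^ (N ^ 13) := HH_le' (by omega) hT0N
  have hK0pos : 1 ≤ K0 := by rw [hK0, HH]; exact Nat.one_le_pow _ _ (by positivity)
  -- first step
  have hbig1 : ¬ c ^ z ≤ (MM T0 T0 K0 * 2 ^ (4 * N * T0)) ^ (N ^ 2) := by
    intro h
    apply hbig
    refine h.trans ?_
    calc (MM T0 T0 K0 * 2 ^ (4 * N * T0)) ^ (N ^ 2)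
        ≤ (2 ^ (N ^ 14) * 2 ^ (N ^ 14)) ^ (N ^ 2) := by
          gcongr
          · exact MM_le' (by omega) hT0N (by norm_num) hK0le
          · norm_num
          · calc 4 * N * T0 ≤ N * N * N ^ 4 := by gcongr <;> omega
              _ = N ^ 6 := by ring
              _ ≤ N ^ 14 := Nat.pow_le_pow_right hNp (by norm_num)
      _ = 2 ^ (2 * N ^ 16) := by
          rw [← pow_add, ← pow_mul]
          congr 1
          ring
      _ ≤ 2 ^ (N ^ 45) := Nat.pow_le_pow_right (by norm_num) (absorb (by omega) (by norm_num) hNp)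
  obtain ⟨m, n, k, hm, hmn, hn, hk, hck⟩ := G1 N T0 K0 a b c x y z u v w ha hb hc hx hy hz hu hv
    hab hac h1 h2 hdA hdB hxN hyN huN hvN hzw hwN hN2 hN1 hT0 hK0 hbig1
  -- consequences of the margins
  have hKN : K0 ^ N ≤ 2 ^ (N ^ 15) := by
    calc K0 ^ N ≤ (2 ^ (N ^ 13)) ^ N := by gcongr
      _ = 2 ^ (N ^ 14) := by rw [← pow_mul]; congr 1
      _ ≤ 2 ^ (N ^ 15) := Nat.pow_le_pow_right (by norm_num)
          (Nat.pow_le_pow_right hNp (by norm_num))
  have hQN : (T0 * N ^ 2) ^ N ≤ 2 ^ (N ^ 15) := by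
    calc (T0 * N ^ 2) ^ N ≤ (N ^ 4 * N ^ 2) ^ N := by gcongr; omega
      _ ≤ (2 ^ (N ^ 6)) ^ N := by
          apply Nat.pow_le_pow_left
          have : N ^ 4 * N ^ 2 = N ^ 6 := by ring
          rw [this]
          exact Nat.lt_two_pow_self.le
      _ = 2 ^ (N ^ 7) := by rw [← pow_mul]; congr 1
      _ ≤ 2 ^ (N ^ 15) := Nat.pow_le_pow_right (by norm_num)
          (Nat.pow_le_pow_right hNp (by norm_num))
  have hsmall : ∀ e d : ℕ, e ≤ N → ¬ c ^ d ≤ 2 ^ (N ^ 15) → k.natAbs * e < d := by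
    intro e d he hd
    by_contra h
    push Not at h
    apply hd
    calc c ^ d ≤ c ^ (k.natAbs * e) := Nat.pow_le_pow_right (by omega) h
      _ = (c ^ k.natAbs) ^ e := by rw [pow_mul]
      _ ≤ K0 ^ e := by gcongr
      _ ≤ K0 ^ N := Nat.pow_le_pow_right hK0pos he
      _ ≤ _ := hKN
  have hky := hsmall y _ hyN hp2
  have hkx := hsmall x _ hxN hp1
  have hA : n * y < m * v := by
    have h3 : (z : ℤ) * (m * v - n * y) = m * (z * v - w * y) + k * y := by
      rw [← hk]; ring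
    have h4 : (k.natAbs * y : ℤ) < z * v - w * y := by
      have := hky
      zify [hN2.le] at this
      simpa using this
    have h5 : -((k.natAbs : ℤ) * y) ≤ k * y := by
      have : -(k.natAbs : ℤ) ≤ k := by omega
      have hy0 : (0 : ℤ) ≤ y := by positivity
      have := mul_le_mul_of_nonneg_right this hy0
      linarith only [this]
    have h6 : (z : ℤ) * v - w * y ≤ m * (z * v - w * y) := by
      have hm' : (1 : ℤ) ≤ m := by exact_mod_cast hm
      have : (0 : ℤ) ≤ z * v - w * y := by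
        have := hN2.le
        zify at this
        linarith only [this]
      exact le_mul_of_one_le_left this hm'
    have h7 : 0 < (z : ℤ) * (m * v - n * y) := by linarith
    have h8 : 0 < (m : ℤ) * v - n * y := (pos_iff_pos_of_mul_pos h7).1 (by exact_mod_cast hz)
    zify
    linarith
  have hB : m * u < n * x := by
    have h3 : (z : ℤ) * (n * x - m * u) = m * (w * x - z * u) - k * x := by
      rw [← hk]; ring
    have h4 : (k.natAbs * x : ℤ) < w * x - z * u := by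
      have := hkx
      zify [hN1.le] at this
      simpa using this
    have h5 : -((k.natAbs : ℤ) * x) ≤ -(k * x) := by
      have : -(k.natAbs : ℤ) ≤ -k := by omega
      have hy0 : (0 : ℤ) ≤ x := by positivity
      have := mul_le_mul_of_nonneg_right this hy0
      linarith only [this]
    have h6 : (w : ℤ) * x - z * u ≤ m * (w * x - z * u) := by
      have hm' : (1 : ℤ) ≤ m := by exact_mod_cast hm
      have : (0 : ℤ) ≤ w * x - z * u := by
        have := hN1.le
        zify at this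
        linarith only [this]
      exact le_mul_of_one_le_left this hm'
    have h7 : 0 < (z : ℤ) * (n * x - m * u) := by linarith
    have h8 : 0 < (n : ℤ) * x - m * u := (pos_iff_pos_of_mul_pos h7).1 (by exact_mod_cast hz)
    zify
    linarith
  -- the second step
  set T := n * (16 * (2 * (x * v) + u * y)) / m + 16 * (2 * (x * v) + u * y) with hT
  have hTN : T + 1 ≤ N ^ 6 := by
    have h3 : T ≤ 48 * N ^ 2 * (48 * N ^ 3 + 1) := T_bound hn hxN hyN huN hvN
    have h4 := T1_le hN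
    omega
  set K1 := HH T T with hK1
  have hK1le : K1 ≤ 2 ^ (N ^ 19) := HH_le' (by omega) hTN
  set S := T + n * (x * v) with hS
  have hnxv : n * (x * v) ≤ N ^ 6 := by
    calc n * (x * v) ≤ N ^ 4 * (N * N) := by gcongr; omega
      _ = N ^ 6 := by ring
  have hSN : 2 * S ≤ N ^ 7 := by
    have h4 : 4 * N ^ 6 ≤ N ^ 7 := absorb (by omega) (by norm_num) hNp
    omega
  set K2 := K1 + c ^ (k.natAbs * (x * v)) * 2 ^ (n * (x * v)) * 2 with hK2
  have hcpow : ∀ e p : ℕ, e ≤ N ^ p → c ^ (k.natAbs * e) ≤ 2 ^ (N ^ (13 + p)) := by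
    intro e p he
    calc c ^ (k.natAbs * e) = (c ^ k.natAbs) ^ e := by rw [pow_mul]
      _ ≤ K0 ^ e := by gcongr
      _ ≤ (2 ^ (N ^ 13)) ^ e := by gcongr
      _ ≤ (2 ^ (N ^ 13)) ^ (N ^ p) := Nat.pow_le_pow_right (by positivity) he
      _ = 2 ^ (N ^ (13 + p)) := by rw [← pow_mul, pow_add]
  have hK2le : K2 ≤ 2 ^ (N ^ 20) := by
    have h3 : c ^ (k.natAbs * (x * v)) ≤ 2 ^ (N ^ 15) := hcpow _ 2 (by
      rw [pow_two]; exact Nat.mul_le_mul hxN hvN)
    calc K2 ≤ 2 ^ (N ^ 19) + 2 ^ (N ^ 15) * 2 ^ (N ^ 6) * 2 := by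
          rw [hK2]
          gcongr
          norm_num
      _ = 2 ^ (N ^ 19) + 2 ^ (N ^ 15 + N ^ 6 + 1) := by rw [pow_add, pow_add, pow_one]
      _ ≤ 2 ^ (N ^ 19 + 1) + 2 ^ (N ^ 19 + 1) := by
          gcongr
          · norm_num
          · omega
          · norm_num
          · have h4 : 2 * N ^ 15 ≤ N ^ 19 := absorb (by omega) (by norm_num) hNp
            have h5 : N ^ 6 ≤ N ^ 15 := Nat.pow_le_pow_right hNp (by norm_num)
            omega
      _ = 2 ^ (N ^ 19 + 2) := by ring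
      _ ≤ 2 ^ (N ^ 20) := by
          apply Nat.pow_le_pow_right (by norm_num)
          have h4 : 3 * N ^ 19 ≤ N ^ 20 := absorb (by omega) (by norm_num) hNp
          have h5 : 1 ≤ N ^ 19 := Nat.one_le_pow _ _ hNp
          omega
  have hβ : ¬ c ^ z ≤ EB S K2 := fun h => hbig (h.trans (EB_le hN hSN hK2le))
  have ha1 : 1 ≤ a := by omega
  have hb1 : 1 ≤ b := by omega
  have hau : a ^ x < c ^ z := by
    have : 0 < b ^ y := by positivity
    omega
  have hbv : b ^ v < c ^ w := by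
    have : 0 < a ^ u := by positivity
    omega
  have hΔ : u * y < x * v := by
    have h3 : (m * u) * (n * y) < (n * x) * (m * v) := Nat.mul_lt_mul'' hB hA
    have h4 : (m * n) * (u * y) < (m * n) * (x * v) := by
      calc (m * n) * (u * y) = (m * u) * (n * y) := by ring
        _ < (n * x) * (m * v) := h3
        _ = (m * n) * (x * v) := by ring
    exact Nat.lt_of_mul_lt_mul_left h4
  have hQle : ∀ r e d : ℕ, r ≤ T0 * N ^ 2 → e ≤ N → ¬ c ^ d ≤ 2 ^ (N ^ 15) → r ^ e ≤ c ^ d := by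
    intro r e d hr he hd
    push Not at hd
    have : 1 ≤ T0 * N ^ 2 := Nat.mul_pos (by positivity) (by positivity)
    calc r ^ e ≤ (T0 * N ^ 2) ^ e := by gcongr
      _ ≤ (T0 * N ^ 2) ^ N := Nat.pow_le_pow_right this he
      _ ≤ _ := hQN.trans hd.le
  have hxvN : x * v ≤ N ^ 2 := by rw [pow_two]; exact Nat.mul_le_mul hxN hvN
  have hcR : (0 : ℝ) < c := by exact_mod_cast (by omega : 0 < c)
  have hs : ((u * (m * v - n * y) : ℕ) : ℝ) /
      ((u * (m * v - n * y) : ℕ) + (v * (n * x - m * u) : ℕ)) < (a : ℝ) ^ x / (c : ℝ) ^ z := by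
    set A := u * (m * v - n * y) with hAd
    set B := v * (n * x - m * u) with hBd
    have hApos : 0 < A := Nat.mul_pos hu (by omega)
    have hBpos : 0 < B := Nat.mul_pos hv (by omega)
    have hAB : A + B = n * (x * v - u * y) := by
      rw [hAd, hBd]
      zify [hA.le, hB.le, hΔ.le]
      ring
    have hABle : A + B ≤ T0 * N ^ 2 := by
      rw [hAB]
      exact Nat.mul_le_mul hn ((Nat.sub_le _ _).trans hxvN)
    have h3 : b ^ y * (A + B) < c ^ z :=
      pos_lemma hc hy hbv hN2 (hQle _ _ _ hABle hvN hp2)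
    have h4 : A * c ^ z < (A + B) * a ^ x := by
      have h5 : c ^ z ≤ B * c ^ z := Nat.le_mul_of_pos_left _ hBpos
      have h6 : (A + B) * a ^ x + b ^ y * (A + B) = A * c ^ z + B * c ^ z := by
        rw [← add_mul, ← h1]; ring
      omega
    rw [div_lt_div_iff₀ (by positivity) (by positivity)]
    have h5 : ((A * c ^ z : ℕ) : ℝ) < (((A + B) * a ^ x : ℕ) : ℝ) := by exact_mod_cast h4
    push_cast at h5
    linarith only [h5]
  have ht : (a : ℝ) ^ u / (c : ℝ) ^ w < ((x * (m * v - n * y) : ℕ) : ℝ) /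
      ((x * (m * v - n * y) : ℕ) + (y * (n * x - m * u) : ℕ)) := by
    set A' := x * (m * v - n * y) with hA'd
    set B' := y * (n * x - m * u) with hB'd
    have hA'pos : 0 < A' := Nat.mul_pos hx (by omega)
    have hB'pos : 0 < B' := Nat.mul_pos hy (by omega)
    have hAB' : A' + B' = m * (x * v - u * y) := by
      rw [hA'd, hB'd]
      zify [hA.le, hB.le, hΔ.le]
      ring
    have hABle : A' + B' ≤ T0 * N ^ 2 := by
      rw [hAB']
      exact Nat.mul_le_mul (hmn.trans hn) ((Nat.sub_le _ _).trans hxvN)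
    have h3 : a ^ u * (A' + B') < c ^ w :=
      pos_lemma hc hu hau hN1 (hQle _ _ _ hABle hxN hp1)
    have h4 : a ^ u * (A' + B') < A' * c ^ w :=
      lt_of_lt_of_le h3 (Nat.le_mul_of_pos_left _ hA'pos)
    rw [div_lt_div_iff₀ (by positivity) (by positivity)]
    exact_mod_cast h4
  have hα : ¬ Real.log c * (z / (m * x * v)) ≤
      Real.log (MM T T K1) + |(k : ℝ)| * Real.log c * ((y * T + v * T) + (T + T * y) + T) +
        ((x * T + u * T) + (y * T + v * T)) * Real.log 2 := by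
    intro h
    have hMM : 1 ≤ MM T T K1 := by
      rw [MM]
      have : 0 < K1 := by rw [hK1, HH]; positivity
      exact Nat.succ_le_of_lt (by positivity)
    have h3 : Real.log c * (z / ((m * x * v : ℕ) : ℝ)) ≤ Real.log (MM T T K1) +
        (k.natAbs : ℝ) * Real.log c * (((y * T + v * T) + (T + T * y) + T : ℕ) : ℝ) +
        (((x * T + u * T) + (y * T + v * T) : ℕ) : ℝ) * Real.log 2 := by
      rw [Nat.cast_natAbs, Int.cast_abs]
      push_cast
      exact h
    have h4 := pow_le_of_log' (by omega) hMM (Nat.mul_pos (Nat.mul_pos hm hx) hv) h3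
    apply hbig
    have hTle : T ≤ N ^ 6 := by omega
    have g1 : y * T ≤ N * N ^ 6 := Nat.mul_le_mul hyN hTle
    have g2 : v * T ≤ N * N ^ 6 := Nat.mul_le_mul hvN hTle
    have g3 : x * T ≤ N * N ^ 6 := Nat.mul_le_mul hxN hTle
    have g4 : u * T ≤ N * N ^ 6 := Nat.mul_le_mul huN hTle
    have g5 : T * y ≤ N * N ^ 6 := by rw [mul_comm]; exact g1
    have g6 : T ≤ N * N ^ 6 := hTle.trans (Nat.le_mul_of_pos_left _ (by omega))
    have g7 : N * N ^ 6 = N ^ 7 := by ring
    rw [g7] at g1 g2 g3 g4 g5 g6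
    have g8 : 6 * N ^ 7 ≤ N ^ 8 := absorb (by omega) (by norm_num) hNp
    have hp : (y * T + v * T) + (T + T * y) + T ≤ N ^ 8 := by omega
    have hq : (x * T + u * T) + (y * T + v * T) ≤ N ^ 8 := by omega
    have hr : m * x * v ≤ N ^ 6 := by
      calc m * x * v ≤ N ^ 4 * N * N := by gcongr; omega
        _ = N ^ 6 := by ring
    have hMMle : MM T T K1 ≤ 2 ^ (N ^ 20) := MM_le' (by omega) hTN (by norm_num) hK1le
    have hcp := hcpow _ 8 hp
    rw [pow_mul] at hcp
    refine h4.trans ?_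
    calc (MM T T K1 * (c ^ k.natAbs) ^ ((y * T + v * T) + (T + T * y) + T) *
          2 ^ ((x * T + u * T) + (y * T + v * T))) ^ (m * x * v)
        ≤ (2 ^ (N ^ 20) * 2 ^ (N ^ (13 + 8)) * 2 ^ (N ^ 8)) ^ (m * x * v) := by
          gcongr
          norm_num
      _ ≤ (2 ^ (N ^ 20) * 2 ^ (N ^ (13 + 8)) * 2 ^ (N ^ 8)) ^ (N ^ 6) :=
          Nat.pow_le_pow_right (by positivity) hr
      _ = 2 ^ ((N ^ 20 + N ^ 21 + N ^ 8) * N ^ 6) := by rw [← pow_add, ← pow_add, ← pow_mul]
      _ ≤ 2 ^ (N ^ 45) := by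
          apply Nat.pow_le_pow_right (by norm_num)
          have e1 : N ^ 20 ≤ N ^ 21 := Nat.pow_le_pow_right hNp (by norm_num)
          have e2 : N ^ 8 ≤ N ^ 21 := Nat.pow_le_pow_right hNp (by norm_num)
          calc (N ^ 20 + N ^ 21 + N ^ 8) * N ^ 6 ≤ (N ^ 21 + N ^ 21 + N ^ 21) * N ^ 6 := by gcongr
            _ = 3 * N ^ 27 := by ring
            _ ≤ N ^ 45 := absorb (by omega) (by norm_num) hNp
  exact G2 a b c x y z u v w ha hb hc hx hy hu hv hab hac h1 h2 hdA hdB m n hm hmn k hk hA hB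
    T K1 S hT hK1 hS K2 hK2 hs ht hα hβ

end Pool.Agent.MP_09c87f_nt
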