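import Pool.Agent.MP_09c87f_nt.Wt

open Polynomial

namespace Pool.Agent.MP_09c87f_nt

variable {R : Type*} [CommRing R]

/-- `F(1 - S, T)` -/
noncomputable def t10 : R[X][X] →+* R[X][X] := compRingHom (1 - X)

/-- `F(1 - S, 1 - T)` -/
noncomputable def t11 : R[X][X] →+* R[X][X] := (mapRingHom (compRingHom (1 - X))).comp t10

lemma one_sub_comp (p : R[X]) : (p.comp (1 - X)).comp (1 - X) = p := by
  rw [comp_assoc]
  simp

lemma t10_t10 (F : R[X][X]) : t10 (t10 F) = F := by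
  simp only [t10, coe_compRingHom_apply]
  exact one_sub_comp F

lemma mapc_mapc (F : R[X][X]) :
    mapRingHom (compRingHom (1 - X)) (mapRingHom (compRingHom (1 - X)) F) = F := by
  simp only [coe_mapRingHom]
  rw [Polynomial.map_map]
  have : (compRingHom (1 - X : R[X])).comp (compRingHom (1 - X)) = RingHom.id _ := by
    apply RingHom.ext
    intro p
    simp only [RingHom.comp_apply, coe_compRingHom_apply, RingHom.id_apply]
    exact one_sub_comp p
  rw [this, Polynomial.map_id]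

lemma t10_ne_zero {F : R[X][X]} (hF : F ≠ 0) : t10 F ≠ 0 := by
  intro h
  apply hF
  rw [← t10_t10 F, h, map_zero]

lemma t11_ne_zero {F : R[X][X]} (hF : F ≠ 0) : t11 F ≠ 0 := by
  intro h
  apply t10_ne_zero hF
  rw [← mapc_mapc (t10 F)]
  have : mapRingHom (compRingHom (1 - X)) (t10 F) = 0 := h
  rw [this, map_zero]

/-- The four pairs of weights. -/
structure Wts where
  p1 : ℕ
  p2 : ℕ
  q1 : ℕ
  q2 : ℕ
  r1 : ℕ
  r2 : ℕ
  u1 : ℕ
  u2 : ℕ

/-- The four thresholds. -/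
structure Thr where
  VT : ℕ
  V0 : ℕ
  V1 : ℕ
  VS : ℕ

def Thr.dlt (θ : Thr) : ℤ := (θ.VS : ℤ) + θ.V0 + θ.V1 - θ.VT

/-- The support conditions. -/
def Cond (W : Wts) (θ : Thr) (F : R[X][X]) : Prop :=
  (∀ i j, θ.VT < W.p1 * i + W.p2 * j → (F.coeff i).coeff j = 0) ∧
  (∀ i j, W.q1 * i + W.q2 * j < θ.V0 → (F.coeff i).coeff j = 0) ∧
  (∀ i j, W.r1 * i + W.r2 * j < θ.V1 → ((t11 F).coeff i).coeff j = 0) ∧
  (∀ i j, W.u1 * i + W.u2 * j < θ.VS → ((t10 F).coeff i).coeff j = 0)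

/-- The optimal thresholds of a polynomial. -/
noncomputable def optThr (W : Wts) (F : R[X][X]) : Thr where
  VT := highW W.p1 W.p2 F
  V0 := lowW W.q1 W.q2 F
  V1 := lowW W.r1 W.r2 (t11 F)
  VS := lowW W.u1 W.u2 (t10 F)

lemma cond_opt (W : Wts) (F : R[X][X]) : Cond W (optThr W F) F := by
  refine ⟨?_, ?_, ?_, ?_⟩
  · intro i j h
    by_contra h0
    exact absurd (le_highW h0) (not_le.2 h)
  · intro i j h
    by_contra h0
    exact absurd (lowW_le h0) (not_le.2 h)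
  · intro i j h
    by_contra h0
    exact absurd (lowW_le h0) (not_le.2 h)
  · intro i j h
    by_contra h0
    exact absurd (lowW_le h0) (not_le.2 h)

lemma dlt_le_opt {W : Wts} {θ : Thr} {F : R[X][X]} (hF : F ≠ 0) (h : Cond W θ F) :
    θ.dlt ≤ (optThr W F).dlt := by
  obtain ⟨h1, h2, h3, h4⟩ := h
  have a1 : highW W.p1 W.p2 F ≤ θ.VT := by
    obtain ⟨i, j, hij, he⟩ := exists_highW (w1 := W.p1) (w2 := W.p2) hF
    rw [he]; by_contra hlt; push Not at hlt
    exact hij (h1 i j hlt)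
  have a2 : θ.V0 ≤ lowW W.q1 W.q2 F := by
    obtain ⟨i, j, hij, he⟩ := exists_lowW (w1 := W.q1) (w2 := W.q2) hF
    rw [he]; by_contra hlt; push Not at hlt
    exact hij (h2 i j hlt)
  have a3 : θ.V1 ≤ lowW W.r1 W.r2 (t11 F) := by
    obtain ⟨i, j, hij, he⟩ := exists_lowW (w1 := W.r1) (w2 := W.r2) (t11_ne_zero hF)
    rw [he]; by_contra hlt; push Not at hlt
    exact hij (h3 i j hlt)
  have a4 : θ.VS ≤ lowW W.u1 W.u2 (t10 F) := by
    obtain ⟨i, j, hij, he⟩ := exists_lowW (w1 := W.u1) (w2 := W.u2) (t10_ne_zero hF)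
    rw [he]; by_contra hlt; push Not at hlt
    exact hij (h4 i j hlt)
  simp only [Thr.dlt, optThr]
  omega

lemma optThr_mul [IsDomain R] (W : Wts) {F G : R[X][X]} (hF : F ≠ 0) (hG : G ≠ 0) :
    (optThr W (F * G)).dlt = (optThr W F).dlt + (optThr W G).dlt := by
  simp only [Thr.dlt, optThr, map_mul]
  rw [highW_mul hF hG, lowW_mul hF hG, lowW_mul (t11_ne_zero hF) (t11_ne_zero hG),
    lowW_mul (t10_ne_zero hF) (t10_ne_zero hG)]
  push_cast
  ring

end Pool.Agent.MP_09c87f_nt
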