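import Mathlib

namespace Pool.Agent.MP_09c87f_nt

/-- lattice points in a right triangle with legs `α`, `β` -/
lemma cnt (s : Finset (ℕ × ℕ)) (α β : ℝ) (hα : 0 < α) (hβ : 0 < β)
    (h : ∀ e ∈ s, (e.1 : ℝ) * β + e.2 * α < α * β) :
    (s.card : ℝ) ≤ α * β / 2 + α + β + 1 := by
  classical
  set N := ⌈β⌉₊ with hN
  have hN1 : 1 ≤ N := Nat.one_le_iff_ne_zero.2 (Nat.pos_iff_ne_zero.1 (Nat.ceil_pos.2 hβ))
  have hN1R : (1 : ℝ) ≤ N := by exact_mod_cast hN1
  have hNle : β ≤ N := Nat.le_ceil β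
  have hNlt : (N : ℝ) < β + 1 := Nat.ceil_lt_add_one hβ.le
  have hsub : s ⊆ (Finset.range N).biUnion (fun j =>
      (Finset.range ⌈α * (1 - j / β)⌉₊).image (fun i => (i, j))) := by
    intro e he
    have h1 := h e he
    rw [Finset.mem_biUnion]
    refine ⟨e.2, ?_, ?_⟩
    · rw [Finset.mem_range, hN, Nat.lt_ceil]
      have : (e.2 : ℝ) * α < α * β := by
        have : (0 : ℝ) ≤ (e.1 : ℝ) * β := by positivity
        linarith
      have h2 : α * (e.2 : ℝ) < α * β := by linarith
      exact lt_of_mul_lt_mul_left h2 hα.le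
    · rw [Finset.mem_image]
      refine ⟨e.1, ?_, rfl⟩
      rw [Finset.mem_range, Nat.lt_ceil]
      have h2 : α * (1 - (e.2 : ℝ) / β) = (α * β - e.2 * α) / β := by
        field_simp
      rw [h2, lt_div_iff₀ hβ]
      linarith
  have hcard : s.card ≤ ∑ j ∈ Finset.range N, ⌈α * (1 - (j : ℝ) / β)⌉₊ := by
    refine (Finset.card_le_card hsub).trans (Finset.card_biUnion_le.trans ?_)
    apply Finset.sum_le_sum
    intro j _
    exact Finset.card_image_le.trans (by simp)
  have hcardR : (s.card : ℝ) ≤ ∑ j ∈ Finset.range N, (α * (1 - (j : ℝ) / β) + 1) := by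
    have h1 : (s.card : ℝ) ≤ ((∑ j ∈ Finset.range N, ⌈α * (1 - (j : ℝ) / β)⌉₊ : ℕ) : ℝ) := by
      exact_mod_cast hcard
    refine h1.trans ?_
    rw [Nat.cast_sum]
    apply Finset.sum_le_sum
    intro j hj
    have hj' : (j : ℝ) < β := by rw [Finset.mem_range, hN, Nat.lt_ceil] at hj; exact hj
    have : 0 ≤ α * (1 - (j : ℝ) / β) := by
      apply mul_nonneg hα.le
      rw [sub_nonneg, div_le_one hβ]
      exact hj'.le
    exact (Nat.ceil_lt_add_one this).le
  refine hcardR.trans ?_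
  have hsum : ∑ j ∈ Finset.range N, (α * (1 - (j : ℝ) / β) + 1) =
      N * (α + 1) - α / β * (N * (N - 1) / 2) := by
    have h1 : ∀ j ∈ Finset.range N, (α * (1 - (j : ℝ) / β) + 1) =
        (α + 1) - α / β * j := by
      intro j _
      ring
    rw [Finset.sum_congr rfl h1, Finset.sum_sub_distrib, ← Finset.mul_sum]
    congr 1
    · simp
      ring
    · congr 1
      have h2 := Finset.sum_range_id_mul_two N
      have h3 : (∑ j ∈ Finset.range N, (j : ℝ)) * 2 = N * (N - 1) := by
        have : (((∑ j ∈ Finset.range N, j) * 2 : ℕ) : ℝ) = ((N * (N - 1) : ℕ) : ℝ) := by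
          rw [h2]
        push_cast [Nat.cast_sub hN1] at this
        exact this
      linarith
  rw [hsum]
  have key : α * N - α / β * (N * (N - 1) / 2) ≤ α * β / 2 + α := by
    have h1 : α * N - α / β * (N * (N - 1) / 2) - (α * β / 2 + α) =
        -(α / (2 * β)) * ((1 - (N - β)) ^ 2 + (N - 1)) := by
      field_simp
      ring
    have h2 : 0 ≤ (α / (2 * β)) * ((1 - (N - β)) ^ 2 + ((N : ℝ) - 1)) := by
      apply mul_nonneg (by positivity)
      have := sq_nonneg (1 - ((N : ℝ) - β))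
      linarith
    linarith
  linarith

end Pool.Agent.MP_09c87f_nt
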