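import Mathlib

/-! The exponent vectors of two distinct solutions are not proportional (`c` an odd prime). -/

namespace Pool.Agent.MP_09c87f_nt

lemma lte_case {c A B g z : ℕ} (hc : c.Prime) (hc2 : c ≠ 2) (hA : 2 ≤ A) (hB : 2 ≤ B)
    (hAc : ¬ c ∣ A) (hg : Odd g) (h : A ^ g + B ^ g = c ^ z) (hz : 1 ≤ z) : g = 1 := by
  haveI : Fact c.Prime := ⟨hc⟩
  have hodd : Odd c := hc.odd_of_ne_two hc2
  have hdvd : A + B ∣ c ^ z := by rw [← h]; exact Odd.nat_add_dvd_pow_add_pow A B hg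
  obtain ⟨s, hs, hAB⟩ := (Nat.dvd_prime_pow hc).1 hdvd
  have hs1 : s ≠ 0 := by
    rintro rfl
    simp at hAB
    omega
  have hcAB : c ∣ A + B := by rw [hAB]; exact dvd_pow_self _ hs1
  have hlte := padicValNat.pow_add_pow hodd hcAB hAc hg
  rw [h, hAB, padicValNat.prime_pow, padicValNat.prime_pow] at hlte
  have hg0 : g ≠ 0 := by rintro rfl; simp at hg
  have hpv : c ^ padicValNat c g ≤ g := Nat.le_of_dvd (by omega) pow_padicValNat_dvd
  have hle : A ^ g + B ^ g ≤ (A + B) * g := by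
    rw [h, hlte, pow_add, ← hAB]
    exact Nat.mul_le_mul_left _ hpv
  by_contra hg1
  have hg3 : 3 ≤ g := by
    rcases hg with ⟨k, hk⟩
    omega
  have hpow : g < 2 ^ (g - 1) := by
    obtain ⟨k, rfl⟩ : ∃ k, g = k + 3 := ⟨g - 3, by omega⟩
    clear * -
    induction k with
    | zero => norm_num
    | succ k ih =>
      have : k + 1 + 3 - 1 = (k + 3 - 1) + 1 := by omega
      rw [this, pow_succ]
      omega
  have key : ∀ M : ℕ, 2 ≤ M → M * g < M ^ g := by
    intro M hM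
    have e1 : M ^ g = M * M ^ (g - 1) := by
      rw [← pow_succ']
      congr 1
      omega
    rw [e1]
    exact Nat.mul_lt_mul_of_pos_left (hpow.trans_le (Nat.pow_le_pow_left hM _)) (by omega)
  have k1 := key A hA
  have k2 := key B hB
  rw [add_mul] at hle
  omega

lemma parity_case {c A B g f z w : ℕ} (hc : c.Prime) (hc2 : c ≠ 2)
    (hBc : ¬ c ∣ B) (hg : Even g) (hf : Odd f) (h1 : A ^ g + B ^ g = c ^ z) (hz : 1 ≤ z)
    (h2 : A ^ f + B ^ f = c ^ w) (hw : 1 ≤ w) : False := by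
  have e1 : (A : ℤ) ^ g ≡ -(B : ℤ) ^ g [ZMOD c] := by
    have : (A : ℤ) ^ g + B ^ g = c ^ z := by exact_mod_cast h1
    rw [Int.modEq_iff_dvd]
    have h3 : -(B : ℤ) ^ g - A ^ g = -(c : ℤ) ^ z := by linarith
    rw [h3]
    exact (dvd_pow_self _ (by omega)).neg_right
  have e2 : (A : ℤ) ^ f ≡ -(B : ℤ) ^ f [ZMOD c] := by
    have : (A : ℤ) ^ f + B ^ f = c ^ w := by exact_mod_cast h2
    rw [Int.modEq_iff_dvd]
    have h3 : -(B : ℤ) ^ f - A ^ f = -(c : ℤ) ^ w := by linarith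
    rw [h3]
    exact (dvd_pow_self _ (by omega)).neg_right
  have e3 := e1.pow f
  have e4 := e2.pow g
  rw [hf.neg_pow, ← pow_mul, ← pow_mul] at e3
  rw [hg.neg_pow, ← pow_mul, ← pow_mul, mul_comm f g] at e4
  have e5 := (e3.symm.trans e4).dvd
  have e6 : (B : ℤ) ^ (g * f) - -(B : ℤ) ^ (g * f) = ((2 * B ^ (g * f) : ℕ) : ℤ) := by
    push_cast; ring
  rw [e6] at e5
  have e7 : c ∣ 2 * B ^ (g * f) := by exact_mod_cast e5
  rcases (Nat.Prime.dvd_mul hc).1 e7 with h | h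
  · exact hc2 ((Nat.prime_dvd_prime_iff_eq hc Nat.prime_two).1 h)
  · exact hBc (hc.dvd_of_dvd_pow h)

theorem delta_ne (c : ℕ) (hc : c.Prime) (hc2 : c ≠ 2) (a b x y z u v w : ℕ) (ha : 2 ≤ a)
    (hb : 2 ≤ b) (hac : a.Coprime c) (hbc : b.Coprime c) (hx : 1 ≤ x) (hy : 1 ≤ y) (hz : 1 ≤ z)
    (hu : 1 ≤ u) (hv : 1 ≤ v) (hw : 1 ≤ w)
    (h1 : a ^ x + b ^ y = c ^ z) (h2 : a ^ u + b ^ v = c ^ w) (hne : (x, y) ≠ (u, v)) :
    x * v ≠ u * y := by
  intro heq
  obtain ⟨e, g, f, he, hco, hx1, hu1⟩ := Nat.exists_coprime' (m := x) (n := u)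
    (Nat.gcd_pos_of_pos_left _ hx)
  subst hx1
  subst hu1
  have hg1 : 1 ≤ g := Nat.pos_of_ne_zero (by rintro rfl; simp at hx)
  have hf1 : 1 ≤ f := Nat.pos_of_ne_zero (by rintro rfl; simp at hu)
  have h3 : g * v = f * y := by
    have : (g * v) * e = (f * y) * e := by
      calc (g * v) * e = g * e * v := by ring
        _ = f * e * y := heq
        _ = _ := by ring
    exact Nat.eq_of_mul_eq_mul_right he this
  have h4 : g ∣ y := hco.dvd_of_dvd_mul_left (Dvd.intro v h3)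
  obtain ⟨h, hh⟩ := h4
  have h5 : v = f * h := by
    have : g * v = g * (f * h) := by rw [h3, hh]; ring
    exact Nat.eq_of_mul_eq_mul_left hg1 this
  subst hh
  subst h5
  have hh1 : 1 ≤ h := Nat.pos_of_ne_zero (by rintro rfl; simp at hy)
  have hA : 2 ≤ a ^ e := ha.trans (Nat.le_self_pow (by omega) a)
  have hB : 2 ≤ b ^ h := hb.trans (Nat.le_self_pow (by omega) b)
  have hAc : ¬ c ∣ a ^ e := by
    intro hd
    have := hc.dvd_of_dvd_pow hd
    exact (Nat.Prime.coprime_iff_not_dvd hc).1 hac.symm this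
  have hBc : ¬ c ∣ b ^ h := by
    intro hd
    have := hc.dvd_of_dvd_pow hd
    exact (Nat.Prime.coprime_iff_not_dvd hc).1 hbc.symm this
  have k1 : (a ^ e) ^ g + (b ^ h) ^ g = c ^ z := by
    rw [← pow_mul, ← pow_mul, mul_comm e g, mul_comm h g]; exact h1
  have k2 : (a ^ e) ^ f + (b ^ h) ^ f = c ^ w := by
    rw [← pow_mul, ← pow_mul, mul_comm e f, mul_comm h f]; exact h2
  rcases Nat.even_or_odd g with hg | hg
  · rcases Nat.even_or_odd f with hf | hf
    · have : 2 ∣ Nat.gcd g f := Nat.dvd_gcd hg.two_dvd hf.two_dvd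
      rw [hco] at this
      omega
    · exact parity_case hc hc2 hBc hg hf k1 hz k2 hw
  · rcases Nat.even_or_odd f with hf | hf
    · exact parity_case hc hc2 hBc hf hg k2 hw k1 hz
    · have g1 := lte_case hc hc2 hA hB hAc hg k1 hz
      have f1 := lte_case hc hc2 hA hB hAc hf k2 hw
      subst g1
      subst f1
      exact hne rfl

end Pool.Agent.MP_09c87f_nt
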