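import Pool.Agent.MP_09c87f_nt.Irr
import Pool.Agent.MP_09c87f_nt.Count

open Polynomial

namespace Pool.Agent.MP_09c87f_nt

/-- weights attached to `(m, n)` and the exponents `(x, y, u, v)` -/
def wts (m n x y u v : ℕ) : Wts where
  p1 := x * v * m
  p2 := x * v * n
  q1 := m * v * x
  q2 := m * v * u
  r1 := n * x * y
  r2 := n * x * v
  u1 := x * (m * v - n * y)
  u2 := v * (n * x - m * u)

/-- thresholds used in the counting argument -/
noncomputable def thr0 (m n x y u v I J l : ℕ) : Thr where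
  VT := x * v * (m * I + n * J - l * n)
  V0 := m * v * (l * u)
  V1 := ⌈((l * n ^ 2 * x * y : ℕ) : ℝ) / m⌉₊
  VS := ⌈((l * (m * v - n * y) * (n * x - m * u) : ℕ) : ℝ) / m⌉₊

lemma cS0 {m n x y u v I J l : ℕ} (hm : 0 < m) (hn : 0 < n) (hl : 0 < l) (hlJ : l ≤ J)
    (hx : 0 < x) (hv : 0 < v) :
    ((S0 (wts m n x y u v) (thr0 m n x y u v I J l) I J).card : ℝ) ≤
      ((l : ℝ) * n / m) * l / 2 + (l : ℝ) * n / m + l + 1 := by
  classical
  have hmR : (0 : ℝ) < m := by exact_mod_cast hm
  have hnR : (0 : ℝ) < n := by exact_mod_cast hn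
  have hlR : (0 : ℝ) < l := by exact_mod_cast hl
  set s := S0 (wts m n x y u v) (thr0 m n x y u v I J l) I J with hs
  have hmem : ∀ e ∈ s, e.1 ≤ I ∧ e.2 ≤ J ∧ (I - e.1) * m + (J - e.2) * n < l * n := by
    intro e he
    rw [hs, S0, Finset.mem_filter, mem_bx] at he
    obtain ⟨⟨h1, h2⟩, h3⟩ := he
    refine ⟨h1, h2, ?_⟩
    simp only [wts, thr0] at h3
    have h4 : x * v * (m * I + n * J - l * n) < x * v * (m * e.1 + n * e.2) := by
      calc _ < _ := h3
        _ = _ := by ring
    have h5 := Nat.lt_of_mul_lt_mul_left h4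
    have h6 : l * n ≤ n * J := by rw [mul_comm]; exact Nat.mul_le_mul_left _ hlJ
    zify [h1, h2]
    have h7 : ((m * I + n * J - l * n : ℕ) : ℤ) = m * I + n * J - l * n := by
      rw [Nat.cast_sub (by omega)]; push_cast; ring
    have h8 : ((m * I + n * J - l * n : ℕ) : ℤ) < ((m * e.1 + n * e.2 : ℕ) : ℤ) := by
      exact_mod_cast h5
    rw [h7] at h8
    push_cast at h8
    linarith
  have hinj : Set.InjOn (fun e : ℕ × ℕ => (I - e.1, J - e.2)) s := by
    intro e he f hf hef
    obtain ⟨a1, a2, -⟩ := hmem e he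
    obtain ⟨b1, b2, -⟩ := hmem f hf
    simp only [Prod.mk.injEq] at hef
    ext <;> omega
  rw [← Finset.card_image_of_injOn hinj]
  have := cnt (s.image (fun e : ℕ × ℕ => (I - e.1, J - e.2))) ((l : ℝ) * n / m) l
    (by positivity) hlR (by
      intro e' he'
      rw [Finset.mem_image] at he'
      obtain ⟨e, he, rfl⟩ := he'
      obtain ⟨a1, a2, a3⟩ := hmem e he
      simp only
      have a4 : (((I - e.1) * m + (J - e.2) * n : ℕ) : ℝ) < ((l * n : ℕ) : ℝ) := by
        exact_mod_cast a3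
      push_cast at a4
      have hr : (0 : ℝ) < l / m := by positivity
      have a5 := mul_lt_mul_of_pos_right a4 hr
      calc ((I - e.1 : ℕ) : ℝ) * l + ((J - e.2 : ℕ) : ℝ) * (l * n / m) =
          (((I - e.1 : ℕ) : ℝ) * m + ((J - e.2 : ℕ) : ℝ) * n) * (l / m) := by
            field_simp
        _ < _ := a5
        _ = _ := by field_simp)
  exact this

lemma cS1 {m n x y u v I J l : ℕ} (hm : 0 < m) (hl : 0 < l)
    (hx : 0 < x) (hv : 0 < v) (hu : 0 < u) :
    ((S1 (wts m n x y u v) (thr0 m n x y u v I J l) I J).card : ℝ) ≤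
      ((l : ℝ) * u / x) * l / 2 + (l : ℝ) * u / x + l + 1 := by
  have hxR : (0 : ℝ) < x := by exact_mod_cast hx
  have huR : (0 : ℝ) < u := by exact_mod_cast hu
  have hlR : (0 : ℝ) < l := by exact_mod_cast hl
  apply cnt _ _ _ (by positivity) hlR
  intro e he
  rw [S1, Finset.mem_filter] at he
  have h3 := he.2
  simp only [wts, thr0] at h3
  have h4 : m * v * (x * e.1 + u * e.2) < m * v * (l * u) := by
    calc _ = _ := by ring
      _ < _ := h3
  have h5 := Nat.lt_of_mul_lt_mul_left h4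
  have h6 : ((x * e.1 + u * e.2 : ℕ) : ℝ) < ((l * u : ℕ) : ℝ) := by exact_mod_cast h5
  push_cast at h6
  have hr : (0 : ℝ) < l / x := by positivity
  have a5 := mul_lt_mul_of_pos_right h6 hr
  calc (e.1 : ℝ) * l + (e.2 : ℝ) * (l * u / x) = ((x : ℝ) * e.1 + u * e.2) * (l / x) := by
        field_simp
    _ < _ := a5
    _ = _ := by field_simp

lemma cS2 {m n x y u v I J l : ℕ} (hm : 0 < m) (hn : 0 < n) (hl : 0 < l)
    (hx : 0 < x) (hv : 0 < v) (hy : 0 < y) :
    ((S2 (wts m n x y u v) (thr0 m n x y u v I J l) I J).card : ℝ) ≤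
      ((l : ℝ) * n / m) * (l * n * y / (m * v)) / 2 + (l : ℝ) * n / m + l * n * y / (m * v) + 1 := by
  have hxR : (0 : ℝ) < x := by exact_mod_cast hx
  have hvR : (0 : ℝ) < v := by exact_mod_cast hv
  have hyR : (0 : ℝ) < y := by exact_mod_cast hy
  have hlR : (0 : ℝ) < l := by exact_mod_cast hl
  have hmR : (0 : ℝ) < m := by exact_mod_cast hm
  have hnR : (0 : ℝ) < n := by exact_mod_cast hn
  apply cnt _ _ _ (by positivity) (by positivity)
  intro e he
  rw [S2, Finset.mem_filter] at he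
  have h3 := he.2
  simp only [wts, thr0] at h3
  rw [Nat.lt_ceil] at h3
  push_cast at h3
  have hr : (0 : ℝ) < l / (m * x * v) := by positivity
  have a5 := mul_lt_mul_of_pos_right h3 hr
  calc (e.1 : ℝ) * (l * n * y / (m * v)) + (e.2 : ℝ) * (l * n / m) =
      ((n : ℝ) * x * y * e.1 + n * x * v * e.2) * (l / (m * x * v)) := by
        field_simp
    _ < _ := a5
    _ = _ := by field_simp

lemma cS3 {m n x y u v I J l : ℕ} (hm : 0 < m) (hl : 0 < l)
    (hx : 0 < x) (hv : 0 < v) (hA : n * y < m * v) (hB : m * u < n * x) :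
    ((S3 (wts m n x y u v) (thr0 m n x y u v I J l) I J).card : ℝ) ≤
      ((l : ℝ) * (n * x - m * u) / (m * x)) * (l * (m * v - n * y) / (m * v)) / 2 +
        (l : ℝ) * (n * x - m * u) / (m * x) + l * (m * v - n * y) / (m * v) + 1 := by
  have hxR : (0 : ℝ) < x := by exact_mod_cast hx
  have hvR : (0 : ℝ) < v := by exact_mod_cast hv
  have hlR : (0 : ℝ) < l := by exact_mod_cast hl
  have hmR : (0 : ℝ) < m := by exact_mod_cast hm
  have hAR : (0 : ℝ) < (m : ℝ) * v - n * y := by
    have : ((n * y : ℕ) : ℝ) < ((m * v : ℕ) : ℝ) := by exact_mod_cast hA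
    push_cast at this
    linarith
  have hBR : (0 : ℝ) < (n : ℝ) * x - m * u := by
    have : ((m * u : ℕ) : ℝ) < ((n * x : ℕ) : ℝ) := by exact_mod_cast hB
    push_cast at this
    linarith
  apply cnt _ _ _ (by positivity) (by positivity)
  intro e he
  rw [S3, Finset.mem_filter] at he
  have h3 := he.2
  simp only [wts, thr0] at h3
  rw [Nat.lt_ceil] at h3
  push_cast [Nat.cast_sub hA.le, Nat.cast_sub hB.le] at h3
  have hr : (0 : ℝ) < l / (m * x * v) := by positivity
  have a5 := mul_lt_mul_of_pos_right h3 hr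
  calc (e.1 : ℝ) * (l * (m * v - n * y) / (m * v)) + (e.2 : ℝ) * (l * (n * x - m * u) / (m * x)) =
      ((x : ℝ) * (m * v - n * y) * e.1 + v * (n * x - m * u) * e.2) * (l / (m * x * v)) := by
        field_simp
    _ < _ := a5
    _ = _ := by field_simp

theorem EX (m n x y u v : ℕ) (hm : 0 < m) (hx : 0 < x) (hy : 0 < y) (hu : 0 < u) (hv : 0 < v)
    (hA : n * y < m * v) (hB : m * u < n * x) (hmn : m ≤ n) :
    ∃ (P : ℤ[X][X]) (θ : Thr), P ≠ 0 ∧
      Box (n * (16 * (2 * (x * v) + u * y)) / m) (16 * (2 * (x * v) + u * y)) P ∧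
      Bd (HH (n * (16 * (2 * (x * v) + u * y)) / m) (16 * (2 * (x * v) + u * y))) P ∧
      Cond (wts m n x y u v) θ P ∧ (n : ℤ) ≤ θ.dlt := by
  have hn : 0 < n := lt_of_lt_of_le hm hmn
  set D := x * v with hD
  set g := u * y with hg
  set L := 16 * (2 * D + g) with hL
  set l := 2 * (16 * D + g) with hl
  set I := n * L / m with hI
  have hDpos : 0 < D := Nat.mul_pos hx hv
  have hgpos : 0 < g := Nat.mul_pos hu hy
  have hgD : g < D := by
    have h1 : (m * u) * (n * y) < (n * x) * (m * v) := Nat.mul_lt_mul'' hB hA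
    have h2 : (m * n) * g < (m * n) * D := by
      calc (m * n) * g = (m * u) * (n * y) := by rw [hg]; ring
        _ < (n * x) * (m * v) := h1
        _ = (m * n) * D := by rw [hD]; ring
    exact Nat.lt_of_mul_lt_mul_left h2
  have hlL : l ≤ L := by rw [hl, hL]; omega
  have hlpos : 0 < l := by rw [hl]; omega
  have hmR : (0 : ℝ) < m := by exact_mod_cast hm
  have hnR : (0 : ℝ) < n := by exact_mod_cast hn
  have hxR : (0 : ℝ) < x := by exact_mod_cast hx
  have hvR : (0 : ℝ) < v := by exact_mod_cast hv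
  have hyR : (0 : ℝ) < y := by exact_mod_cast hy
  have huR : (0 : ℝ) < u := by exact_mod_cast hu
  have hDR : (D : ℝ) = x * v := by rw [hD]; push_cast; ring
  have hgR : (g : ℝ) = u * y := by rw [hg]; push_cast; ring
  have hD1 : (1 : ℝ) ≤ D := by exact_mod_cast hDpos
  have hg1 : (1 : ℝ) ≤ g := by exact_mod_cast hgpos
  have hgD' : (g : ℝ) ≤ D := by exact_mod_cast hgD.le
  have hLR : (L : ℝ) = 16 * (2 * D + g) := by rw [hL]; push_cast; ring
  have hlR : (l : ℝ) = 2 * (16 * D + g) := by rw [hl]; push_cast; ring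
  have hAR : (0 : ℝ) < (m : ℝ) * v - n * y := by
    have : ((n * y : ℕ) : ℝ) < ((m * v : ℕ) : ℝ) := by exact_mod_cast hA
    push_cast at this
    linarith
  have hBR : (0 : ℝ) < (n : ℝ) * x - m * u := by
    have : ((m * u : ℕ) : ℝ) < ((n * x : ℕ) : ℝ) := by exact_mod_cast hB
    push_cast at this
    linarith
  have hρ : (1 : ℝ) ≤ (n : ℝ) / m := by
    rw [le_div_iff₀ hmR, one_mul]; exact_mod_cast hmn
  -- the count
  have hcount : (S0 (wts m n x y u v) (thr0 m n x y u v I L l) I L).card +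
      (S1 (wts m n x y u v) (thr0 m n x y u v I L l) I L).card +
      ((S2 (wts m n x y u v) (thr0 m n x y u v I L l) I L).card +
      (S3 (wts m n x y u v) (thr0 m n x y u v I L l) I L).card) < (I + 1) * (L + 1) := by
    have c0 := cS0 (m := m) (n := n) (x := x) (y := y) (u := u) (v := v) (I := I) hm hn hlpos hlL
      hx hv
    have c1 := cS1 (m := m) (n := n) (x := x) (y := y) (u := u) (v := v) (I := I) (J := L) hm hlpos
      hx hv hu
    have c2 := cS2 (m := m) (n := n) (x := x) (y := y) (u := u) (v := v) (I := I) (J := L) hm hn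
      hlpos hx hv hy
    have c3 := cS3 (m := m) (n := n) (x := x) (y := y) (u := u) (v := v) (I := I) (J := L) hm hlpos
      hx hv hA hB
    have hI1 : (n : ℝ) / m * L < I + 1 := by
      have h1 : n * L < m * (I + 1) := by
        rw [hI]
        exact Nat.lt_mul_div_succ _ hm
      have h2 : ((n * L : ℕ) : ℝ) < ((m * (I + 1) : ℕ) : ℝ) := by exact_mod_cast h1
      push_cast at h2
      rw [div_mul_eq_mul_div, div_lt_iff₀ hmR]
      linarith
    have harea : ((l : ℝ) * n / m) * l / 2 + ((l : ℝ) * u / x) * l / 2 +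
        ((l : ℝ) * n / m) * (l * n * y / (m * v)) / 2 +
        ((l : ℝ) * (n * x - m * u) / (m * x)) * (l * (m * v - n * y) / (m * v)) / 2 =
        (n : ℝ) / m * (l ^ 2 * (2 * D + g) / (2 * D)) := by
      rw [hDR, hgR]
      field_simp
      ring
    have hlin : ((l : ℝ) * n / m + l + 1) + ((l : ℝ) * u / x + l + 1) +
        ((l : ℝ) * n / m + l * n * y / (m * v) + 1) +
        ((l : ℝ) * (n * x - m * u) / (m * x) + l * (m * v - n * y) / (m * v) + 1) =
        l * (3 * (n / m) + 3) + 4 := by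
      field_simp
      ring
    have hkey : (l : ℝ) ^ 2 * (2 * D + g) / (2 * D) + 380 * D ≤ (L : ℝ) ^ 2 := by
      have h2D : (0 : ℝ) < 2 * D := by linarith
      rw [hLR, hlR]
      rw [← sub_nonneg]
      have : (16 * (2 * (D : ℝ) + g)) ^ 2 -
          ((2 * (16 * (D : ℝ) + g)) ^ 2 * (2 * D + g) / (2 * D) + 380 * D) =
          ((2 * D + g) * (192 * D * g - 2 * g ^ 2) - 380 * D ^ 2) / D := by
        field_simp
        ring
      rw [this]
      apply div_nonneg _ (by linarith)
      have e1 : 190 * D * g ≤ 192 * D * g - 2 * (g : ℝ) ^ 2 := by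
        have := mul_le_mul_of_nonneg_right hgD' (by linarith only [hg1] : (0 : ℝ) ≤ g)
        linarith only [this]
      have e2 : (2 * (D : ℝ)) * (190 * D * g) ≤ (2 * D + g) * (192 * D * g - 2 * g ^ 2) := by
        apply mul_le_mul _ e1 (by positivity) (by linarith)
        linarith
      have e3 : 380 * (D : ℝ) ^ 2 ≤ (2 * (D : ℝ)) * (190 * D * g) := by
        have : (D : ℝ) ^ 2 * 1 ≤ (D : ℝ) ^ 2 * g := mul_le_mul_of_nonneg_left hg1 (by positivity)
        linarith only [this]
      linarith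
    have hsum : (((S0 (wts m n x y u v) (thr0 m n x y u v I L l) I L).card +
      (S1 (wts m n x y u v) (thr0 m n x y u v I L l) I L).card +
      ((S2 (wts m n x y u v) (thr0 m n x y u v I L l) I L).card +
      (S3 (wts m n x y u v) (thr0 m n x y u v I L l) I L).card) : ℕ) : ℝ) <
        (((I + 1) * (L + 1) : ℕ) : ℝ) := by
      push_cast
      have s1 : (n : ℝ) / m * (l ^ 2 * (2 * D + g) / (2 * D)) + (l * (3 * (n / m) + 3) + 4) <
          (n : ℝ) / m * L * (L + 1) := by
        set ρ := (n : ℝ) / m with hρdef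
        have t1 : ρ * (l ^ 2 * (2 * D + g) / (2 * D)) ≤ ρ * (L ^ 2 - 380 * D) :=
          mul_le_mul_of_nonneg_left (by linarith) (by linarith)
        have t2 : (l : ℝ) * (3 * ρ + 3) + 4 ≤ ρ * (6 * l + 4) := by
          have hl0 : (0 : ℝ) < l := by rw [hlR]; linarith
          have : (l : ℝ) * 3 + 4 ≤ ρ * (l * 3 + 4) := by
            have h0 : (0 : ℝ) ≤ l * 3 + 4 := by linarith only [hl0]
            exact le_mul_of_one_le_left h0 hρ
          linarith only [this]
        have t3 : 6 * (l : ℝ) + 4 < 380 * D + L := by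
          rw [hlR, hLR]; linarith
        have t4 : ρ * (6 * l + 4) < ρ * (380 * D + L) :=
          mul_lt_mul_of_pos_left t3 (by linarith only [hρ])
        linarith only [t1, t2, t4]
      have s2 : (n : ℝ) / m * L * (L + 1) ≤ ((I : ℝ) + 1) * (L + 1) := by
        apply mul_le_mul_of_nonneg_right hI1.le
        positivity
      linarith
    exact_mod_cast hsum
  obtain ⟨P, hP0, hPb, hPB, hPc⟩ := exists_small (wts m n x y u v) (thr0 m n x y u v I L l) I L
    hcount
  refine ⟨P, thr0 m n x y u v I L l, hP0, hPb, hPB, hPc, ?_⟩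
  have h1 : ((n : ℤ) : ℝ) ≤ (((thr0 m n x y u v I L l).dlt : ℤ) : ℝ) := by
    simp only [Thr.dlt, thr0]
    have hsub : l * n ≤ n * L := by rw [mul_comm]; exact Nat.mul_le_mul_left _ hlL
    push_cast [Nat.cast_sub (show l * n ≤ m * I + n * L by omega)]
    have v1 := Nat.le_ceil (((l * n ^ 2 * x * y : ℕ) : ℝ) / m)
    have vS := Nat.le_ceil (((l * (m * v - n * y) * (n * x - m * u) : ℕ) : ℝ) / m)
    push_cast [Nat.cast_sub hA.le, Nat.cast_sub hB.le] at v1 vS
    have hmI : (m : ℝ) * I ≤ n * L := by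
      have : m * I ≤ n * L := by rw [hI]; exact Nat.mul_div_le _ _
      exact_mod_cast this
    have e1 : (l : ℝ) * (m * v - n * y) * (n * x - m * u) / m + m * v * (l * u) +
        l * n ^ 2 * x * y / m - x * v * (m * I + n * L - l * n) =
        l * n * (2 * D + g) - D * (m * I + n * L) := by
      rw [hDR, hgR]
      field_simp
      ring
    have e2 : (D : ℝ) * (m * I + n * L) ≤ D * (2 * (n * L)) :=
      mul_le_mul_of_nonneg_left (by linarith) (by linarith)
    have e3 : (l : ℝ) * n * (2 * D + g) - D * (2 * (n * L)) = n * (2 * g * (2 * D + g)) := by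
      rw [hlR, hLR]; ring
    have e4 : (n : ℝ) * 1 ≤ n * (2 * g * (2 * D + g)) := by
      apply mul_le_mul_of_nonneg_left _ hnR.le
      have : (1 : ℝ) * 1 ≤ g * (2 * D + g) :=
        mul_le_mul hg1 (by linarith only [hD1, hg1]) (by norm_num) (by linarith only [hg1])
      linarith only [this]
    push_cast [Nat.cast_sub hA.le, Nat.cast_sub hB.le]
    linarith
  exact_mod_cast h1

end Pool.Agent.MP_09c87f_nt
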