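import Pool.Agent.MP_09c87f_nt.Irr

open Polynomial

namespace Pool.Agent.MP_09c87f_nt

/-- rectangle of exponents -/
def rc (a b : ℕ) : Finset (ℕ × ℕ) := Finset.range a ×ˢ Finset.range b

lemma mem_rc {a b : ℕ} {e : ℕ × ℕ} : e ∈ rc a b ↔ e.1 < a ∧ e.2 < b := by
  simp [rc]

lemma card_rc (a b : ℕ) : (rc a b).card = a * b := by
  simp [rc]

section
variable {R : Type*} [CommRing R]

/-- polynomial with prescribed coefficients on `s` -/
noncomputable def mkS (s : Finset (ℕ × ℕ)) (t : s → R) : R[X][X] :=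
  ∑ b : s, C (C (t b)) * mon R b

lemma mkS_coeff (s : Finset (ℕ × ℕ)) (t : s → R) (e : ℕ × ℕ) (he : e ∈ s) :
    ((mkS s t).coeff e.1).coeff e.2 = t ⟨e, he⟩ := by
  rw [mkS, finset_coeff]
  rw [Finset.sum_eq_single (⟨e, he⟩ : s)]
  · rw [CC_coeff, mon_coeff]; simp
  · intro b _ hb
    rw [CC_coeff, mon_coeff, if_neg, mul_zero]
    intro h
    apply hb
    ext1
    exact h
  · intro h; exact absurd (Finset.mem_univ _) h

lemma mkS_coeff' (s : Finset (ℕ × ℕ)) (t : s → R) (i j : ℕ) (he : (i, j) ∉ s) :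
    ((mkS s t).coeff i).coeff j = 0 := by
  rw [mkS, finset_coeff]
  apply Finset.sum_eq_zero
  intro b _
  rw [CC_coeff, mon_coeff, if_neg, mul_zero]
  rintro h
  exact he (h ▸ b.2)

lemma mkS_box {a b : ℕ} (ha : 1 ≤ a) (hb : 1 ≤ b) (t : rc a b → R) :
    Box (a - 1) (b - 1) (mkS (rc a b) t) := by
  apply box_of_coeff
  intro i j hij
  by_contra h
  apply hij
  apply mkS_coeff'
  rw [mem_rc]
  simp only
  omega

end

lemma Bd.X_mul {K : ℤ} {P : ℤ[X][X]} (h : Bd K P) : Bd K (X * P) := by
  intro i j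
  cases i with
  | zero =>
    rw [coeff_X_mul_zero, coeff_zero, abs_zero]
    exact h.nonneg
  | succ i => rw [coeff_X_mul]; exact h i j

lemma Bd.CX_mul {K : ℤ} {P : ℤ[X][X]} (h : Bd K P) : Bd K (C X * P) := by
  intro i j
  rw [coeff_C_mul]
  cases j with
  | zero =>
    rw [coeff_X_mul_zero, abs_zero]
    exact h.nonneg
  | succ j => rw [coeff_X_mul]; exact h i j

lemma Bd.mon_mul {K : ℤ} {P : ℤ[X][X]} (h : Bd K P) (e : ℕ × ℕ) : Bd K (mon ℤ e * P) := by
  have e1 : mon ℤ e = X ^ e.1 * C X ^ e.2 := by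
    rw [mon, ← C_mul_X_pow_eq_monomial, ← C_mul_X_pow_eq_monomial, C_1, one_mul, C_pow]
    ring
  rw [e1, mul_assoc]
  have h1 : ∀ n : ℕ, Bd K (C X ^ n * P) := by
    intro n
    induction n with
    | zero => simpa using h
    | succ n ih => rw [pow_succ', mul_assoc]; exact ih.CX_mul
  have h2 : ∀ n : ℕ, Bd K (X ^ n * (C X ^ e.2 * P)) := by
    intro n
    induction n with
    | zero => simpa using h1 e.2
    | succ n ih => rw [pow_succ', mul_assoc]; exact ih.X_mul
  exact h2 e.1

/-- the matrix of the elimination system -/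
noncomputable def elA (F E : ℤ[X][X]) (a b c d f : ℕ) :
    rc a b → (rc c d ⊕ rc c f) ⊕ rc a 1 → ℤ
  | e, .inl (.inl u) => ((mon ℤ u * F).coeff e.1.1).coeff e.1.2
  | e, .inl (.inr u) => ((mon ℤ u * E).coeff e.1.1).coeff e.1.2
  | e, .inr u => ((mon ℤ u).coeff e.1.1).coeff e.1.2

theorem elim (I J K : ℕ) (hJ : 1 ≤ J) (hK : 1 ≤ K) (F E : ℤ[X][X]) (hF0 : F ≠ 0)
    (hFb : Box I J F) (hEb : Box I J E) (hFB : Bd K F) (hEB : Bd K E)
    (hirr : Irreducible (bm (Int.castRingHom ℚ) F))
    (hnd : ¬ bm (Int.castRingHom ℚ) F ∣ bm (Int.castRingHom ℚ) E) :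
    ∃ (Q : ℤ[X][X]), Q ≠ 0 ∧ (Bivariate.swap Q).natDegree = 0 ∧
      Bd ((((2 * I * J + 1) * (2 * J) + (2 * I * J + I + 1)) * K) ^
        ((2 * I * J + 1) * (2 * J) + (2 * I * J + I + 1)) : ℕ) Q ∧
      ∃ U W : ℤ[X][X], U * F + W * E + Q = 0 := by
  classical
  set q := (Bivariate.swap F).natDegree with hq
  have hqJ : q ≤ J := hFb.2
  set S := I * (J + q) with hS
  have hSle : S ≤ 2 * I * J := by
    rw [hS]
    calc I * (J + q) ≤ I * (J + J) := Nat.mul_le_mul_left _ (by omega)
      _ = 2 * I * J := by ring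
  have hcard : Fintype.card (rc (S + I + 1) (J + q)) <
      Fintype.card ((rc (S + 1) J ⊕ rc (S + 1) q) ⊕ rc (S + I + 1) 1) := by
    simp only [Fintype.card_sum, Fintype.card_coe, card_rc]
    have : (S + I + 1) * (J + q) = (S + 1) * J + (S + 1) * q + I * (J + q) := by ring
    rw [this, ← hS]
    omega
  have hbd : ∀ e u, |elA F E (S + I + 1) (J + q) (S + 1) J q e u| ≤ ((K : ℕ) : ℤ) := by
    intro e u
    match u with
    | .inl (.inl u) => exact hFB.mon_mul _ _ _
    | .inl (.inr u) => exact hEB.mon_mul _ _ _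
    | .inr u =>
      refine (bd_monomial _ _ _ _).trans ?_
      exact_mod_cast hK
  obtain ⟨t, ht0, htA, htb⟩ := siegel_basic (elA F E (S + I + 1) (J + q) (S + 1) J q) K hK hbd hcard
  set U := mkS (rc (S + 1) J) (fun b => t (.inl (.inl b))) with hU
  set W := mkS (rc (S + 1) q) (fun b => t (.inl (.inr b))) with hW
  set Q := mkS (rc (S + I + 1) 1) (fun b => t (.inr b)) with hQ
  have hUb : Box S (J - 1) U := by
    have := mkS_box (by omega : 1 ≤ S + 1) hJ (fun b => t (.inl (.inl b)) : rc (S + 1) J → ℤ)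
    simpa using this
  have hQb : Box (S + I) 0 Q := by
    have := mkS_box (by omega : 1 ≤ S + I + 1) (le_refl 1)
      (fun b => t (.inr b) : rc (S + I + 1) 1 → ℤ)
    simpa using this
  have hW0 : q = 0 → W = 0 := by
    intro h0
    ext i j
    rw [hW, mkS_coeff']
    · simp
    · rw [mem_rc, h0]; simp
  have hWb : 1 ≤ q → Box S (q - 1) W := by
    intro h1
    have := mkS_box (by omega : 1 ≤ S + 1) h1 (fun b => t (.inl (.inr b)) : rc (S + 1) q → ℤ)
    simpa using this
  have hid : U * F + W * E + Q = 0 := by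
    ext i j
    rw [coeff_zero, coeff_zero]
    by_cases hm : (i, j) ∈ rc (S + I + 1) (J + q)
    · have h1 := htA ⟨(i, j), hm⟩
      rw [Fintype.sum_sum_type, Fintype.sum_sum_type] at h1
      rw [coeff_add, coeff_add, coeff_add, coeff_add]
      have e1 : ((U * F).coeff i).coeff j = ∑ b : rc (S + 1) J,
          elA F E (S + I + 1) (J + q) (S + 1) J q ⟨(i, j), hm⟩ (.inl (.inl b)) *
            t (.inl (.inl b)) := by
        rw [hU, mkS, Finset.sum_mul, finset_coeff]
        apply Finset.sum_congr rfl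
        intro b _
        rw [mul_assoc, CC_coeff, mul_comm]
        rfl
      have e2 : ((W * E).coeff i).coeff j = ∑ b : rc (S + 1) q,
          elA F E (S + I + 1) (J + q) (S + 1) J q ⟨(i, j), hm⟩ (.inl (.inr b)) *
            t (.inl (.inr b)) := by
        rw [hW, mkS, Finset.sum_mul, finset_coeff]
        apply Finset.sum_congr rfl
        intro b _
        rw [mul_assoc, CC_coeff, mul_comm]
        rfl
      have e3 : (Q.coeff i).coeff j = ∑ b : rc (S + I + 1) 1,
          elA F E (S + I + 1) (J + q) (S + 1) J q ⟨(i, j), hm⟩ (.inr b) * t (.inr b) := by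
        rw [hQ, mkS, finset_coeff]
        apply Finset.sum_congr rfl
        intro b _
        rw [CC_coeff, mul_comm]
        rfl
      rw [e1, e2, e3]
      exact h1
    · by_contra h0
      apply hm
      rw [mem_rc]
      have hFb' : Box I q F := ⟨hFb.1, le_refl _⟩
      have hb1 : Box (S + I) (J + q - 1) (U * F) :=
        (hUb.mul hFb').mono (le_refl _) (by omega)
      have hb2 : Box (S + I) (J + q - 1) (W * E) := by
        rcases Nat.eq_zero_or_pos q with h | h
        · rw [hW0 h, zero_mul]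
          exact ⟨by simp, by simp⟩
        · exact ((hWb h).mul hEb).mono (le_refl _) (by omega)
      have hb3 : Box (S + I) (J + q - 1) Q := hQb.mono (le_refl _) (by omega)
      have := ((hb1.add hb2).add hb3).coeff h0
      simp only
      omega
  have hQ0 : Q ≠ 0 := by
    intro hQz
    rw [hQz, add_zero] at hid
    have hcast : Function.Injective (Int.castRingHom ℚ) := Int.cast_injective
    have hWz : W = 0 := by
      by_contra hWne
      have hq1 : 1 ≤ q := by
        by_contra h
        exact hWne (hW0 (by omega))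
      have hid2 := congrArg (bm (Int.castRingHom ℚ)) hid
      rw [map_add, map_mul, map_mul, map_zero] at hid2
      have hdvd : bm (Int.castRingHom ℚ) F ∣ bm (Int.castRingHom ℚ) W * bm (Int.castRingHom ℚ) E := by
        rw [eq_neg_of_add_eq_zero_right hid2]
        exact (dvd_mul_left _ _).neg_right
      rcases hirr.prime.dvd_or_dvd hdvd with h | h
      · obtain ⟨M, hM⟩ := h
        have hWq : bm (Int.castRingHom ℚ) W ≠ 0 := bm_ne_zero hcast hWne
        have hM0 : M ≠ 0 := by rintro rfl; rw [mul_zero] at hM; exact hWq hM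
        have hFq : bm (Int.castRingHom ℚ) F ≠ 0 := bm_ne_zero hcast hF0
        have hd1 : (Bivariate.swap (bm (Int.castRingHom ℚ) W)).natDegree ≤ q - 1 :=
          (bm_box _ (hWb hq1)).2
        rw [hM, map_mul, natDegree_mul (swap_ne_zero hFq) (swap_ne_zero hM0)] at hd1
        have hd2 : q ≤ (Bivariate.swap (bm (Int.castRingHom ℚ) F)).natDegree := by
          have hsF := swap_ne_zero hF0
          have h3 : (Bivariate.swap F).coeff q ≠ 0 := by
            rw [hq, coeff_natDegree]; exact leadingCoeff_ne_zero.2 hsF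
          obtain ⟨i, hi⟩ : ∃ i, ((Bivariate.swap F).coeff q).coeff i ≠ 0 := by
            by_contra h4
            push Not at h4
            apply h3
            ext i
            simp [h4 i]
          rw [swap_coeff] at hi
          apply le_natDegree_of_ne_zero
          intro h5
          have h6 : ((bm (Int.castRingHom ℚ) F).coeff i).coeff q = 0 := by
            rw [← swap_coeff, h5, coeff_zero]
          rw [bm_coeff] at h6
          exact hi (hcast (by rw [h6, map_zero]))
        omega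
      · exact hnd h
    rw [hWz, zero_mul, add_zero] at hid
    have hUz : U = 0 := (mul_eq_zero.1 hid).resolve_right hF0
    apply ht0
    funext u
    match u with
    | .inl (.inl u) =>
      have := mkS_coeff (rc (S + 1) J) (fun b => t (.inl (.inl b))) u.1 u.2
      rw [← hU, hUz] at this
      simpa using this.symm
    | .inl (.inr u) =>
      have := mkS_coeff (rc (S + 1) q) (fun b => t (.inl (.inr b))) u.1 u.2
      rw [← hW, hWz] at this
      simpa using this.symm
    | .inr u =>
      have := mkS_coeff (rc (S + I + 1) 1) (fun b => t (.inr b)) u.1 u.2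
      rw [← hQ, hQz] at this
      simpa using this.symm
  refine ⟨Q, hQ0, Nat.le_zero.1 hQb.2, ?_, U, W, hid⟩
  have hc1 : Fintype.card ((rc (S + 1) J ⊕ rc (S + 1) q) ⊕ rc (S + I + 1) 1) ≤
      (2 * I * J + 1) * (2 * J) + (2 * I * J + I + 1) := by
    simp only [Fintype.card_sum, Fintype.card_coe, card_rc]
    have h1 : (S + 1) * J + (S + 1) * q ≤ (2 * I * J + 1) * (2 * J) := by
      calc (S + 1) * J + (S + 1) * q = (S + 1) * (J + q) := by ring
        _ ≤ (2 * I * J + 1) * (2 * J) := Nat.mul_le_mul (by omega) (by omega)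
    omega
  intro i j
  have hN : ((Fintype.card ((rc (S + 1) J ⊕ rc (S + 1) q) ⊕ rc (S + I + 1) 1) * K) ^
      (Fintype.card ((rc (S + 1) J ⊕ rc (S + 1) q) ⊕ rc (S + I + 1) 1)) : ℕ) ≤
      (((2 * I * J + 1) * (2 * J) + (2 * I * J + I + 1)) * K) ^
        ((2 * I * J + 1) * (2 * J) + (2 * I * J + I + 1)) := by
    refine (Nat.pow_le_pow_left (Nat.mul_le_mul_right K hc1) _).trans ?_
    apply Nat.pow_le_pow_right _ hc1
    exact Nat.mul_pos (Nat.lt_of_lt_of_le (Nat.succ_pos _) (Nat.le_add_left _ _)) hK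
  by_cases hm : (i, j) ∈ rc (S + I + 1) 1
  · have := mkS_coeff (rc (S + I + 1) 1) (fun b => t (.inr b)) (i, j) hm
    simp only at this
    rw [← hQ] at this
    rw [this]
    refine (htb _).trans ?_
    exact_mod_cast hN
  · rw [hQ, mkS_coeff' _ _ _ _ hm, abs_zero]
    exact Int.natCast_nonneg _

end Pool.Agent.MP_09c87f_nt
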