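import Mathlib

open Polynomial

namespace Pool.Agent.MP_09c87f_nt

lemma dvd_form {A B : ℕ} {a : ℝ[X]} (h : a ∣ X ^ A * (1 - X) ^ B) :
    ∃ (c : ℝ) (i j : ℕ), c ≠ 0 ∧ a = C c * (X ^ i * (1 - X) ^ j) := by
  obtain ⟨a1, a2, h1, h2, rfl⟩ := exists_dvd_and_dvd_of_dvd_mul h
  have hp : Prime (1 - X : ℝ[X]) := by
    have := (Polynomial.prime_X_sub_C (1 : ℝ)).neg
    simpa using this
  obtain ⟨i, -, hi⟩ := (dvd_prime_pow Polynomial.prime_X A).1 h1
  obtain ⟨j, -, hj⟩ := (dvd_prime_pow hp B).1 h2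
  obtain ⟨u, hu⟩ := hi.symm
  obtain ⟨v, hv⟩ := hj.symm
  obtain ⟨r, hr, hru⟩ := Polynomial.isUnit_iff.1 u.isUnit
  obtain ⟨t, ht, htv⟩ := Polynomial.isUnit_iff.1 v.isUnit
  refine ⟨r * t, i, j, mul_ne_zero hr.ne_zero ht.ne_zero, ?_⟩
  rw [← hu, ← hv, ← hru, ← htv, C_mul]
  ring

lemma log_deriv (c : ℝ) (i j : ℕ) (w : ℝ) :
    (derivative (C c * (X ^ i * (1 - X) ^ j))).eval w * (w * (1 - w)) =
      (C c * (X ^ i * (1 - X) ^ j)).eval w * (i * (1 - w) - j * w) := by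
  have h1 : ∀ (n : ℕ) (x : ℝ), (n : ℝ) * x ^ (n - 1) * x = n * x ^ n := by
    intro n x
    cases n with
    | zero => simp
    | succ n => simp [pow_succ]; ring
  simp only [derivative_mul, derivative_C, zero_mul, zero_add, derivative_X_pow, derivative_pow,
    derivative_sub, derivative_one, derivative_X, eval_mul, eval_add, eval_C, eval_pow, eval_X,
    eval_sub, eval_one, eval_natCast, eval_neg, map_natCast, zero_sub, eval_zero]
  have e1 := h1 i w
  have e2 := h1 j (1 - w)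
  linear_combination (c * (1 - w) ^ j * (1 - w)) * e1 - (c * w ^ i * w) * e2

end Pool.Agent.MP_09c87f_nt
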