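import Pool.Agent.MP_09c87f_nt.Excl3

open Polynomial Set

namespace Pool.Agent.MP_09c87f_nt

lemma natDegree_map_eval (F : ℝ[X][X]) (hF : IsUnit F.leadingCoeff) (t : ℝ) :
    (F.map (evalRingHom t)).natDegree = F.natDegree := by
  apply natDegree_map_of_leadingCoeff_ne_zero
  exact (hF.map (evalRingHom t)).ne_zero

lemma form_natDegree {c : ℝ} (hc : c ≠ 0) (i j : ℕ) :
    (C c * (X ^ i * (1 - X) ^ j) : ℝ[X]).natDegree = i + j := by
  rw [natDegree_C_mul hc]
  exact bp_natDegree i j

/-- multiplicity data at a prime dividing both factors -/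
lemma prime_dvd_both {A' B' : ℕ} (hA' : 0 < A') (hB' : 0 < B') {κ v : ℝ} (hκ : κ ≠ 0) (hv : v ≠ 0)
    {P Q : ℝ[X]} (h : P * Q = C v - C κ * bp A' B') {π : ℝ[X]} (hπ : Prime π)
    (h1 : π ∣ P) (h2 : π ∣ Q) : Associated π (X - C ((A' : ℝ) / (A' + B'))) := by
  have hAB : (A' : ℝ) + B' ≠ 0 := by positivity
  have hPQ : π ∣ P * Q := h1.mul_right _
  have hd : π ∣ derivative (P * Q) := by
    rw [derivative_mul]
    exact dvd_add (h2.mul_left _) (h1.mul_right _)
  rw [h] at hd hPQ
  have hd2 : π ∣ C κ * derivative (bp A' B') := by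
    have : derivative (C v - C κ * bp A' B') = - (C κ * derivative (bp A' B')) := by
      simp [derivative_sub, derivative_mul]
    rw [this] at hd
    exact (dvd_neg).1 hd
  have hd3 : π ∣ C κ * (bp A' B' * (C (A' : ℝ) - C ((A' : ℝ) + B') * X)) := by
    rw [← bp_deriv]
    have : C κ * (X * (1 - X) * derivative (bp A' B')) =
      (X * (1 - X)) * (C κ * derivative (bp A' B')) := by ring
    rw [this]
    exact hd2.mul_left _
  have hu : IsUnit (C κ : ℝ[X]) := Polynomial.isUnit_C.2 (isUnit_iff_ne_zero.2 hκ)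
  rw [hu.dvd_mul_left] at hd3
  rcases hπ.dvd_or_dvd hd3 with h3 | h3
  · exfalso
    have h4 : π ∣ C v := by
      have : C v = (C v - C κ * bp A' B') + C κ * bp A' B' := by ring
      rw [this]
      exact dvd_add hPQ (h3.mul_left _)
    have h5 : IsUnit (C v : ℝ[X]) := Polynomial.isUnit_C.2 (isUnit_iff_ne_zero.2 hv)
    exact hπ.not_unit (isUnit_of_dvd_unit h4 h5)
  · have h4 : π ∣ X - C ((A' : ℝ) / (A' + B')) := by
      have h5 : X - C ((A' : ℝ) / (A' + B')) =
          C (-1 / ((A' : ℝ) + B')) * (C (A' : ℝ) - C ((A' : ℝ) + B') * X) := by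
        rw [mul_sub, ← mul_assoc, ← C_mul, ← C_mul]
        have e1 : -1 / ((A' : ℝ) + B') * A' = - (A' / (A' + B')) := by ring
        have e2 : -1 / ((A' : ℝ) + B') * (A' + B') = -1 := by
          field_simp
        rw [e1, e2]
        simp
        ring
      rw [h5]
      exact h3.mul_left _
    exact (hπ.irreducible.associated_of_dvd (irreducible_X_sub_C _) h4)

lemma zero_set_lemma (F H : ℝ[X][X]) {A B A' B' : ℕ} (hA' : 0 < A')
    (hB' : 0 < B') {κ : ℝ} (hκ : κ ≠ 0) (hFH : F * H = curve A B A' B' κ) {s t : ℝ}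
    (ht0 : 0 < t) (ht1 : t < (A' : ℝ) / (A' + B'))
    (hF : F.evalEval t s = 0) (hH : H.evalEval t s = 0) : False := by
  have hAB : (0 : ℝ) < A' + B' := by positivity
  have h1 : F.eval (C s) * H.eval (C s) = C ((bp A B).eval s) - C κ * bp A' B' := by
    rw [← eval_mul, hFH, curve_eval]
  have h2 : (derivative (F.eval (C s) * H.eval (C s))).eval t = 0 := by
    rw [derivative_mul]
    simp only [eval_add, eval_mul]
    rw [show eval t (eval (C s) F) = 0 from hF, show eval t (eval (C s) H) = 0 from hH]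
    ring
  rw [h1] at h2
  have h3 : (derivative (bp A' B')).eval t = 0 := by
    simp only [derivative_sub, derivative_C, derivative_mul, zero_mul, zero_add, zero_sub,
      eval_neg, eval_mul, eval_C] at h2
    have := neg_eq_zero.1 h2
    exact (mul_eq_zero.1 this).resolve_left hκ
  have h4 := congrArg (eval t) (bp_deriv A' B')
  simp only [eval_mul, eval_sub, eval_X, eval_one, h3, eval_C, bp_eval] at h4
  have h5 : t * (A' + B') < A' := by rwa [← lt_div_iff₀ hAB]
  have h6 : t < 1 := by
    have : (A' : ℝ) / (A' + B') ≤ 1 := by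
      rw [div_le_one hAB]; have : (0 : ℝ) ≤ B' := by positivity
      linarith
    linarith
  have h7 : 0 < t ^ A' * (1 - t) ^ B' := by
    have : 0 < 1 - t := by linarith
    positivity
  have h8 : 0 < (A' : ℝ) - (A' + B') * t := by linarith
  have := mul_pos h7 h8
  rw [← h4] at this
  simp at this

end Pool.Agent.MP_09c87f_nt
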