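import Pool.Agent.MP_09c87f_nt.Excl4

open Polynomial Set

namespace Pool.Agent.MP_09c87f_nt

lemma bp_deriv_crit (A B : ℕ) (hA : 0 < A) (hB : 0 < B) :
    (derivative (bp A B)).eval ((A : ℝ) / (A + B)) = 0 := by
  have hAB : (0 : ℝ) < A + B := by positivity
  have h := congrArg (eval ((A : ℝ) / (A + B))) (bp_deriv A B)
  simp only [eval_mul, eval_sub, eval_X, eval_one, eval_C] at h
  have h1 : (A : ℝ) - (A + B) * (A / (A + B)) = 0 := by field_simp; ring
  rw [h1, mul_zero] at h
  have hw : (0 : ℝ) < A / (A + B) := by positivity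
  have hw1 : (A : ℝ) / (A + B) < 1 := by
    rw [div_lt_one hAB]
    have : (0 : ℝ) < B := by exact_mod_cast hB
    linarith
  have : (A : ℝ) / (A + B) * (1 - A / (A + B)) ≠ 0 := mul_ne_zero hw.ne' (by linarith)
  exact (mul_eq_zero.1 h).resolve_left this

lemma bp_pos (A B : ℕ) {w : ℝ} (h0 : 0 < w) (h1 : w < 1) : 0 < (bp A B).eval w := by
  rw [bp_eval]
  have : 0 < 1 - w := by linarith
  positivity

lemma log_rel (F : ℝ[X][X]) (c : ℝ) (i j : ℕ) (t w : ℝ)
    (h : F.map (evalRingHom t) = C c * (X ^ i * (1 - X) ^ j)) :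
    ((derivative F).eval (C w)).eval t * (w * (1 - w)) =
      (F.eval (C w)).eval t * (i * (1 - w) - j * w) ∧
    (F.eval (C w)).eval t = c * (w ^ i * (1 - w) ^ j) := by
  have h1 : ((derivative F).eval (C w)).eval t = (derivative (F.map (evalRingHom t))).eval w := by
    rw [derivative_map, map_evalRingHom_eval]
  have h2 : (F.eval (C w)).eval t = (F.map (evalRingHom t)).eval w := by
    rw [map_evalRingHom_eval]
  rw [h1, h2, h]
  refine ⟨log_deriv c i j w, by simp⟩

/-- Case I: coprime. -/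
lemma case_one {F0 H0 F1 H1 : ℝ[X]} (e1 : F1 * H0 + F0 * H1 = 0)
    (hdeg : F1 = 0 ∨ F1.natDegree < F0.natDegree) (hcop : IsCoprime F0 H0) : F1 = 0 := by
  rcases hdeg with h | h
  · exact h
  have h1 : F0 ∣ F1 * H0 := by
    rw [eq_neg_of_add_eq_zero_left e1]
    exact (dvd_mul_right _ _).neg_right
  have h2 : F0 ∣ F1 := hcop.dvd_of_dvd_mul_right h1
  by_contra h0
  exact absurd (natDegree_le_of_dvd h2 h0) (not_le.2 h)

lemma case_two {A' B' : ℕ} (hA' : 0 < A') (hB' : 0 < B') {κ v : ℝ} (hκ : κ ≠ 0) (hv : v ≠ 0)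
    {F0 H0 F1 H1 : ℝ[X]} (e0 : F0 * H0 = C v - C κ * bp A' B')
    (e1 : F1 * H0 + F0 * H1 = 0)
    (hdeg : F1 = 0 ∨ F1.natDegree < F0.natDegree)
    (hF : F0.eval ((A' : ℝ) / (A' + B')) = 0) (hH : H0.eval ((A' : ℝ) / (A' + B')) = 0) :
    ∃ (G : ℝ[X]) (γ : ℝ), F0 = (X - C ((A' : ℝ) / (A' + B'))) * G ∧ F1 = C γ * G ∧
      G.eval ((A' : ℝ) / (A' + B')) ≠ 0 := by
  have hAB : (0 : ℝ) < A' + B' := by positivity
  set w' := (A' : ℝ) / (A' + B') with hw'
  have hw0 : 0 < w' := by positivity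
  have hw1 : w' < 1 := by
    rw [hw', div_lt_one hAB]
    have : (0 : ℝ) < B' := by exact_mod_cast hB'
    linarith
  obtain ⟨G, hG⟩ := dvd_iff_isRoot.2 hF
  obtain ⟨K, hK⟩ := dvd_iff_isRoot.2 hH
  -- G * K does not vanish at w'
  have hGK : (G * K).eval w' ≠ 0 := by
    intro h0
    obtain ⟨M, hM⟩ := dvd_iff_isRoot.2 h0
    have h1 : C v - C κ * bp A' B' = (X - C w') ^ 3 * M := by
      rw [← e0, hG, hK]
      linear_combination (X - C w') ^ 2 * hM
    have h2 : (X - C w') ^ 2 ∣ C κ * derivative (bp A' B') := by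
      have h3 := congrArg derivative h1
      have h4 : derivative (C v - C κ * bp A' B') = - (C κ * derivative (bp A' B')) := by
        simp [derivative_sub, derivative_mul]
      rw [h4] at h3
      have h5 : C κ * derivative (bp A' B') =
          (X - C w') ^ 2 * (-(3 * M + (X - C w') * derivative M)) := by
        rw [← neg_inj, h3]
        simp only [derivative_mul, derivative_pow, derivative_sub, derivative_X, derivative_C,
          sub_zero, mul_one, Nat.cast_ofNat]
        simp only [map_ofNat]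
        ring
      exact ⟨_, h5⟩
    have h6 : (X - C w') ^ 2 ∣ (X - C w') * (C (κ * (A' + B')) * bp A' B') := by
      have h7 : (X - C w') * (C (κ * (A' + B')) * bp A' B') =
          (C κ * derivative (bp A' B')) * (-(X * (1 - X))) := by
        have h8 := bp_deriv A' B'
        have h9 : C (A' : ℝ) - C ((A' : ℝ) + B') * X = - (C ((A' : ℝ) + B') * (X - C w')) := by
          rw [mul_sub, ← C_mul, hw', mul_div_cancel₀ _ hAB.ne']
          ring
        rw [h9] at h8
        rw [C_mul]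
        linear_combination (C κ : ℝ[X]) * h8
      rw [h7]
      exact h2.mul_right _
    rw [pow_two] at h6
    have h10 := (mul_dvd_mul_iff_left (X_sub_C_ne_zero w')).1 h6
    have h11 := dvd_iff_isRoot.1 h10
    simp only [IsRoot, eval_mul, eval_C] at h11
    have h12 : κ * (A' + B') ≠ 0 := mul_ne_zero hκ hAB.ne'
    have h13 := (bp_pos A' B' hw0 hw1).ne'
    exact (mul_ne_zero h12 h13) h11
  rw [eval_mul] at hGK
  have hGne : G.eval w' ≠ 0 := left_ne_zero_of_mul hGK
  have hG0 : G ≠ 0 := by rintro rfl; simp at hGne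
  have hF0 : F0 ≠ 0 := by
    rw [hG]; exact mul_ne_zero (X_sub_C_ne_zero w') hG0
  have hcop : IsCoprime G K := by
    apply isCoprime_of_prime_dvd
    · rintro ⟨h, -⟩; exact hG0 h
    · intro π hπ h1 h2
      have := prime_dvd_both hA' hB' hκ hv e0 hπ (hG ▸ h1.mul_left _) (hK ▸ h2.mul_left _)
      have h3 : X - C w' ∣ G := this.symm.dvd.trans h1
      exact hGne (dvd_iff_isRoot.1 h3)
  have h1 : F1 * K + G * H1 = 0 := by
    have : (X - C w') * (F1 * K + G * H1) = 0 := by
      rw [hG, hK] at e1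
      linear_combination e1
    exact (mul_eq_zero.1 this).resolve_left (X_sub_C_ne_zero w')
  have h2 : G ∣ F1 * K := by
    rw [eq_neg_of_add_eq_zero_left h1]
    exact (dvd_mul_right _ _).neg_right
  obtain ⟨M, hM⟩ := hcop.dvd_of_dvd_mul_right h2
  rcases hdeg with h | h
  · exact ⟨G, 0, hG, by simp [h], hGne⟩
  · have hd : M.natDegree = 0 := by
      by_cases hM0 : M = 0
      · simp [hM0]
      rw [hM, hG, natDegree_mul hG0 hM0, natDegree_mul (X_sub_C_ne_zero w') hG0,
        natDegree_X_sub_C] at h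
      omega
    obtain ⟨γ, hγ⟩ := natDegree_eq_zero.1 hd
    exact ⟨G, γ, hG, by rw [hM, ← hγ, mul_comm], hGne⟩

end Pool.Agent.MP_09c87f_nt
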