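import Pool.Agent.MP_09c87f_nt.Excl5

open Polynomial Set

namespace Pool.Agent.MP_09c87f_nt

/-- second order Taylor expansion in the outer variable -/
lemma taylor_two (F : ℝ[X][X]) (w : ℝ) :
    ∃ R : ℝ[X][X], F = C (F.eval (C w)) + (X - C (C w)) * C ((derivative F).eval (C w)) +
      (X - C (C w)) ^ 2 * R := by
  obtain ⟨k, hk⟩ := Polynomial.binomExpansion (F.map (C : ℝ[X] →+* ℝ[X][X])) (C (C w))
    (X - C (C w))
  refine ⟨k, ?_⟩
  have h1 : (C (C w) : ℝ[X][X]) + (X - C (C w)) = X := by ring
  rw [h1] at hk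
  have h2 : eval X (F.map (C : ℝ[X] →+* ℝ[X][X])) = F := by
    rw [eval_map]
    exact eval₂_C_X
  have h3 : eval (C (C w)) (F.map (C : ℝ[X] →+* ℝ[X][X])) = C (F.eval (C w)) := by
    rw [eval_map, eval₂_at_apply]
  have h4 : eval (C (C w)) (derivative (F.map (C : ℝ[X] →+* ℝ[X][X]))) =
      C ((derivative F).eval (C w)) := by
    rw [derivative_map, eval_map, eval₂_at_apply]
  rw [h2, h3, h4] at hk
  linear_combination hk

lemma continuousOn_evalEval (F : ℝ[X][X]) {τ : ℝ → ℝ} {S : Set ℝ} (hτ : ContinuousOn τ S) :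
    ContinuousOn (fun s => F.evalEval (τ s) s) S := by
  induction F using Polynomial.induction_on' with
  | add p q hp hq =>
    simp only [evalEval_add]
    exact ContinuousOn.add hp hq
  | monomial n a =>
    have : (fun s => (monomial n a : ℝ[X][X]).evalEval (τ s) s) =
        fun s => a.eval (τ s) * s ^ n := by
      funext s
      simp [evalEval, eval_monomial]
    rw [this]
    exact (a.continuous.comp_continuousOn hτ).mul (continuousOn_id.pow n)

theorem exclusion (A B A' B' : ℕ) (hA : 0 < A) (hB : 0 < B) (hA' : 0 < A') (hB' : 0 < B')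
    {κ : ℝ} (hκ : 0 < κ) (F H : ℝ[X][X]) (hFH : F * H = curve A B A' B' κ)
    (s0 t0 : ℝ) (hs0 : (A : ℝ) / (A + B) < s0) (hs1 : s0 < 1) (ht0 : 0 < t0)
    (ht1 : t0 < (A' : ℝ) / (A' + B')) (hF : F.evalEval t0 s0 = 0) :
    ∃ (c c' : ℝ) (i j i' j' : ℕ), c ≠ 0 ∧ c' ≠ 0 ∧
      F.map (evalRingHom 0) = C c * (X ^ i * (1 - X) ^ j) ∧
      F.map (evalRingHom 1) = C c' * (X ^ i' * (1 - X) ^ j') ∧
      i + j = F.natDegree ∧ i' + j' = F.natDegree ∧ i ≤ i' ∧ IsUnit F.leadingCoeff := by
  have hu : IsUnit F.leadingCoeff := by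
    have h := curve_leadingCoeff A B A' B' hA κ
    rw [← hFH, leadingCoeff_mul] at h
    exact isUnit_of_mul_isUnit_left h
  have hus : IsUnit (Bivariate.swap F).leadingCoeff := by
    have h := swap_curve_leadingCoeff A B A' B' hA' hκ.ne'
    rw [← hFH, map_mul, leadingCoeff_mul] at h
    exact isUnit_of_mul_isUnit_left h
  obtain ⟨c, i, j, hc, hF0form⟩ : ∃ (c : ℝ) (i j : ℕ), c ≠ 0 ∧
      F.map (evalRingHom 0) = C c * (X ^ i * (1 - X) ^ j) := by
    apply dvd_form (A := A) (B := B)
    have := curve_map A B A' B' κ 0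
    rw [← hFH, Polynomial.map_mul] at this
    rw [zero_pow hA'.ne'] at this
    simp only [zero_mul, mul_zero, C_0, sub_zero] at this
    exact ⟨_, this.symm⟩
  obtain ⟨c', i', j', hc', hF1form⟩ : ∃ (c : ℝ) (i j : ℕ), c ≠ 0 ∧
      F.map (evalRingHom 1) = C c * (X ^ i * (1 - X) ^ j) := by
    apply dvd_form (A := A) (B := B)
    have := curve_map A B A' B' κ 1
    rw [← hFH, Polynomial.map_mul] at this
    rw [sub_self, zero_pow hB'.ne'] at this
    simp only [mul_zero, C_0, sub_zero] at this
    exact ⟨_, this.symm⟩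
  have hij : i + j = F.natDegree := by
    rw [← natDegree_map_eval F hu 0, hF0form, form_natDegree hc]
  have hij' : i' + j' = F.natDegree := by
    rw [← natDegree_map_eval F hu 1, hF1form, form_natDegree hc']
  refine ⟨c, c', i, j, i', j', hc, hc', hF0form, hF1form, hij, hij', ?_, hu⟩
  by_contra hlt
  push Not at hlt
  -- notation
  have hAB : (0 : ℝ) < A + B := by positivity
  have hAB' : (0 : ℝ) < A' + B' := by positivity
  set w := (A : ℝ) / (A + B) with hw
  set w' := (A' : ℝ) / (A' + B') with hw'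
  have hw0 : 0 < w := by positivity
  have hw1 : w < 1 := by
    rw [hw, div_lt_one hAB]
    have : (0 : ℝ) < B := by exact_mod_cast hB
    linarith
  have hw'0 : 0 < w' := by positivity
  have hw'1 : w' < 1 := by
    rw [hw', div_lt_one hAB']
    have : (0 : ℝ) < B' := by exact_mod_cast hB'
    linarith
  have hW : 0 < w * (1 - w) := mul_pos hw0 (by linarith)
  set F0 := F.eval (C w) with hF0
  set F1 := (derivative F).eval (C w) with hF1
  set H0 := H.eval (C w) with hH0
  set H1 := (derivative H).eval (C w) with hH1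
  have e0 : F0 * H0 = C ((bp A B).eval w) - C κ * bp A' B' := by
    rw [hF0, hH0, ← eval_mul, hFH, curve_eval]
  have e1 : F1 * H0 + F0 * H1 = 0 := by
    have h := curve_deriv_eval A B A' B' κ w
    rw [← hFH, derivative_mul, eval_add, eval_mul, eval_mul, hw, bp_deriv_crit A B hA hB] at h
    simpa using h
  have hv : (bp A B).eval w ≠ 0 := (bp_pos A B hw0 hw1).ne'
  have hdeg := (deriv_coeff_lt F hus w).1
  obtain ⟨l0, n0⟩ := log_rel F c i j 0 w hF0form
  obtain ⟨l1, n1⟩ := log_rel F c' i' j' 1 w hF1form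
  rw [← hF0, ← hF1] at l0 l1
  rw [← hF0] at n0 n1
  have hn0 : F0.eval 0 ≠ 0 := by
    rw [n0]
    have : 0 < 1 - w := by linarith
    positivity
  have hn1 : F0.eval 1 ≠ 0 := by
    rw [n1]
    have : 0 < 1 - w := by linarith
    positivity
  have hijR : (i : ℝ) + j = i' + j' := by
    exact_mod_cast hij.trans hij'.symm
  have hltR : (i' : ℝ) < i := by exact_mod_cast hlt
  by_cases hboth : F0.eval w' = 0 ∧ H0.eval w' = 0
  · -- node case
    obtain ⟨G, γ, hG, hγ, hGne⟩ := case_two hA' hB' hκ.ne' hv e0 e1 hdeg hboth.1 hboth.2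
    rw [← hw'] at hG hGne
    have a0 : F0.eval 0 = -w' * G.eval 0 := by rw [hG]; simp
    have a1 : F0.eval 1 = (1 - w') * G.eval 1 := by rw [hG]; simp
    have b0 : F1.eval 0 = γ * G.eval 0 := by rw [hγ]; simp
    have b1 : F1.eval 1 = γ * G.eval 1 := by rw [hγ]; simp
    have hG0 : G.eval 0 ≠ 0 := by
      intro h; rw [a0, h, mul_zero] at hn0; exact hn0 rfl
    have hG1 : G.eval 1 ≠ 0 := by
      intro h; rw [a1, h, mul_zero] at hn1; exact hn1 rfl
    rw [a0, b0] at l0
    rw [a1, b1] at l1
    have m0 : γ * (w * (1 - w)) = -w' * (i * (1 - w) - j * w) := by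
      apply mul_left_cancel₀ hG0
      linear_combination l0
    have m1 : γ * (w * (1 - w)) = (1 - w') * (i' * (1 - w) - j' * w) := by
      apply mul_left_cancel₀ hG1
      linear_combination l1
    have hγneg : γ < 0 := by
      by_contra hge
      push Not at hge
      have h1 : 0 ≤ γ * (w * (1 - w)) := mul_nonneg hge hW.le
      have h2 : (i : ℝ) * (1 - w) - j * w ≤ 0 := by
        by_contra h; push Not at h
        rw [m0] at h1
        have := mul_pos hw'0 h
        linarith
      have h3 : 0 ≤ (i' : ℝ) * (1 - w) - j' * w := by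
        by_contra h; push Not at h
        rw [m1] at h1
        have : 0 < 1 - w' := by linarith
        have := mul_pos this (neg_pos.2 h)
        linarith
      have h4 : (i : ℝ) * (1 - w) - j * w - (i' * (1 - w) - j' * w) = i - i' := by
        linear_combination w * (-hijR)
      linarith
    -- values at the node
    have hval : (bp A B).eval w = κ * (bp A' B').eval w' := by
      have := congrArg (eval w') e0
      simp only [eval_mul, eval_sub, eval_C] at this
      rw [hboth.1, zero_mul] at this
      linarith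
    have hval' : w ^ A * (1 - w) ^ B = κ * (w' ^ A' * (1 - w') ^ B') := by
      rw [← bp_eval, ← bp_eval]; exact hval
    have hg := bump_strictMono A' B' hA' hB'
    rw [← hw'] at hg
    have hf := bump_strictAnti A B hA hB
    rw [← hw] at hf
    obtain ⟨τ, hτc, hτ⟩ := arc_exists (fun t : ℝ => t ^ A' * (1 - t) ^ B')
      (fun s : ℝ => s ^ A * (1 - s) ^ B / κ) w' w s0 hw'0.le (by fun_prop) hg (by fun_prop) (by
        intro s hs
        have hs1' : s ≤ 1 := by linarith [hs.2]
        have hs0' : 0 ≤ s := by linarith [hs.1]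
        simp only [zero_pow hA'.ne', zero_mul]
        constructor
        · have : 0 ≤ 1 - s := by linarith
          positivity
        · have h : s ^ A * (1 - s) ^ B ≤ w ^ A * (1 - w) ^ B :=
            hf.antitoneOn (left_mem_Icc.2 hw1.le) ⟨hs.1, hs1'⟩ hs.1
          rw [div_le_iff₀ hκ]
          linarith)
    have hws0 : w < s0 := hs0
    -- basic facts on the arc
    have harc : ∀ s ∈ Ioc w s0, 0 < τ s ∧ τ s < w' := by
      intro s hs
      obtain ⟨h1, h2⟩ := hτ s ⟨hs.1.le, hs.2⟩
      have hs1' : s < 1 := by linarith [hs.2]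
      have hs0' : 0 < s := by linarith [hs.1]
      have hpos : 0 < s ^ A * (1 - s) ^ B / κ := by
        have : 0 < 1 - s := by linarith
        positivity
      refine ⟨lt_of_le_of_ne h1.1 ?_, lt_of_le_of_ne h1.2 ?_⟩
      · intro h
        rw [← h, zero_pow hA'.ne', zero_mul] at h2
        linarith
      · intro h
        rw [h, eq_div_iff hκ.ne'] at h2
        have : s ^ A * (1 - s) ^ B < w ^ A * (1 - w) ^ B :=
          hf (left_mem_Icc.2 hw1.le) ⟨hs.1.le, hs1'.le⟩ hs.1
        linarith
    have hprod : ∀ s ∈ Icc w s0, F.evalEval (τ s) s * H.evalEval (τ s) s = 0 := by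
      intro s hs
      rw [← evalEval_mul, hFH, curve_evalEval]
      have := (hτ s hs).2
      rw [this]
      field_simp
      ring
    have hno : ∀ s ∈ Ioc w s0, F.evalEval (τ s) s = 0 → H.evalEval (τ s) s = 0 → False := by
      intro s hs h1 h2
      exact zero_set_lemma F H hA' hB' hκ.ne' hFH (harc s hs).1 (harc s hs).2 h1 h2
    have hτ0 : τ s0 = t0 := by
      have h1 := hτ s0 (right_mem_Icc.2 hws0.le)
      have h2 : F.evalEval t0 s0 * H.evalEval t0 s0 = 0 := by rw [hF, zero_mul]
      rw [← evalEval_mul, hFH, curve_evalEval] at h2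
      apply hg.injOn h1.1 ⟨ht0.le, ht1.le⟩
      have h3 := h1.2
      simp only [h3]
      rw [div_eq_iff hκ.ne']
      linarith
    have hcF := continuousOn_evalEval F hτc
    have hcH := continuousOn_evalEval H hτc
    have hallF : ∀ s ∈ Ioc w s0, F.evalEval (τ s) s = 0 := by
      intro s hs
      by_contra hne
      have hHs : H.evalEval (τ s) s = 0 :=
        (mul_eq_zero.1 (hprod s ⟨hs.1.le, hs.2⟩)).resolve_left hne
      have hFs0 : F.evalEval (τ s0) s0 = 0 := by rw [hτ0]; exact hF
      have hHs0 : H.evalEval (τ s0) s0 ≠ 0 := fun h => hno s0 (right_mem_Ioc.2 hws0) hFs0 h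
      have hcont : ContinuousOn (fun r => |F.evalEval (τ r) r| - |H.evalEval (τ r) r|)
          (Icc s s0) := by
        apply (hcF.abs.sub hcH.abs).mono
        exact Icc_subset_Icc_left hs.1.le
      have hiv := intermediate_value_Icc' hs.2 hcont
      have hmem : (0 : ℝ) ∈ Icc (|F.evalEval (τ s0) s0| - |H.evalEval (τ s0) s0|)
          (|F.evalEval (τ s) s| - |H.evalEval (τ s) s|) := by
        rw [hHs, hFs0]
        constructor
        · simp
        · simp
      obtain ⟨r, hr, hr0⟩ := hiv hmem
      have hr' : r ∈ Ioc w s0 := ⟨lt_of_lt_of_le hs.1 hr.1, hr.2⟩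
      have hp := hprod r ⟨hr'.1.le, hr'.2⟩
      simp only at hr0
      have hr1 : |F.evalEval (τ r) r| = |H.evalEval (τ r) r| := by linarith
      rcases mul_eq_zero.1 hp with h | h
      · rw [h, abs_zero] at hr1
        exact hno r hr' h (abs_eq_zero.1 hr1.symm)
      · rw [h, abs_zero] at hr1
        exact hno r hr' (abs_eq_zero.1 hr1) h
    -- local analysis
    obtain ⟨R, hR⟩ := taylor_two F w
    rw [← hF0, ← hF1] at hR
    have hcR := continuousOn_evalEval R hτc
    have hcG : ContinuousOn (fun s => G.eval (τ s)) (Icc w s0) :=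
      G.continuous.comp_continuousOn hτc
    have hΨ : ContinuousOn (fun s => |G.eval (τ s)| * |γ| - (s - w) * |R.evalEval (τ s) s|)
        (Icc w s0) := by
      apply ContinuousOn.sub
      · exact hcG.abs.mul continuousOn_const
      · exact (continuousOn_id.sub continuousOn_const).mul hcR.abs
    have hle : ∀ s ∈ Ioc w s0,
        |G.eval (τ s)| * |γ| - (s - w) * |R.evalEval (τ s) s| ≤ 0 := by
      intro s hs
      have h1 := hallF s hs
      rw [hR] at h1
      simp only [evalEval_add, evalEval_mul, evalEval_C, evalEval_sub, evalEval_X,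
        evalEval_pow] at h1
      rw [hG, hγ] at h1
      simp only [eval_mul, eval_sub, eval_X, eval_C] at h1
      have hsw : 0 < s - w := by linarith [hs.1]
      have htw : τ s - w' < 0 := by linarith [(harc s hs).2]
      have h2 : |G.eval (τ s)| * |(τ s - w') + γ * (s - w)| =
          (s - w) ^ 2 * |R.evalEval (τ s) s| := by
        have h21 : (s - w) ^ 2 * |R.evalEval (τ s) s| = |(s - w) ^ 2 * R.evalEval (τ s) s| := by
          rw [abs_mul, abs_of_nonneg (sq_nonneg (s - w))]
        rw [h21, ← abs_mul, abs_eq_abs]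
        right
        linear_combination h1
      have h3 : |γ| * (s - w) ≤ |(τ s - w') + γ * (s - w)| := by
        rw [abs_of_neg hγneg, abs_of_neg]
        · linarith
        · have := mul_neg_of_neg_of_pos hγneg hsw
          linarith
      have h4 : |G.eval (τ s)| * (|γ| * (s - w)) ≤ (s - w) ^ 2 * |R.evalEval (τ s) s| := by
        rw [← h2]
        exact mul_le_mul_of_nonneg_left h3 (abs_nonneg _)
      have h5 : (s - w) * (|G.eval (τ s)| * |γ| - (s - w) * |R.evalEval (τ s) s|) ≤ 0 := by
        linarith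
      by_contra h6
      push Not at h6
      have := mul_pos hsw h6
      linarith
    have hτw : τ w = w' := by
      have h1 := hτ w (left_mem_Icc.2 hws0.le)
      apply hg.injOn h1.1 ⟨hw'0.le, le_refl _⟩
      have h3 := h1.2
      simp only [h3]
      rw [div_eq_iff hκ.ne', hval']
      ring
    have hlim := (hΨ w (left_mem_Icc.2 hws0.le)).mono (Ioc_subset_Icc_self)
    have hbot := left_nhdsWithin_Ioc_neBot hws0
    have hfin : |G.eval (τ w)| * |γ| - (w - w) * |R.evalEval (τ w) w| ≤ 0 := by
      apply le_of_tendsto hlim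
      exact eventually_nhdsWithin_of_forall hle
    rw [hτw, sub_self, zero_mul, sub_zero] at hfin
    have h1 : 0 < |G.eval w'| := abs_pos.2 hGne
    have h2 : 0 < |γ| := abs_pos.2 hγneg.ne
    have := mul_pos h1 h2
    linarith
  · -- coprime case
    have hcop : IsCoprime F0 H0 := by
      have hF00 : F0 ≠ 0 := by
        intro h; rw [h, eval_zero] at hn0; exact hn0 rfl
      apply isCoprime_of_prime_dvd
      · rintro ⟨h, -⟩; exact hF00 h
      · intro π hπ h1 h2
        have h3 := prime_dvd_both hA' hB' hκ.ne' hv e0 hπ h1 h2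
        rw [← hw'] at h3
        apply hboth
        exact ⟨dvd_iff_isRoot.1 (h3.symm.dvd.trans h1), dvd_iff_isRoot.1 (h3.symm.dvd.trans h2)⟩
    have hF10 := case_one e1 hdeg hcop
    rw [hF10, eval_zero, zero_mul] at l0 l1
    have k0 := (mul_eq_zero.1 l0.symm).resolve_left hn0
    have k1 := (mul_eq_zero.1 l1.symm).resolve_left hn1
    have : (i : ℝ) = i' := by
      linear_combination k0 - k1 + w * hijR
    linarith

end Pool.Agent.MP_09c87f_nt
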