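import Pool.Agent.MP_09c87f_nt.SchApp
import Pool.Agent.MP_09c87f_nt.DeltaNe

namespace Pool.Agent.MP_09c87f_nt

open Sch

namespace Sch

theorem num1 (s : ℕ) (hs : 81 ≤ s) : s ^ 4 ≤ 3 ^ (s - 31) := by
  induction s, hs using Nat.le_induction with
  | base => norm_num
  | succ n hn ih =>
    have h1 : 3 ^ (n + 1 - 31) = 3 * 3 ^ (n - 31) := by
      rw [show n + 1 - 31 = (n - 31) + 1 by omega, pow_succ]; ring
    rw [h1]
    have h2 : 6 * (n + 1) ≤ 7 * n := by omega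
    have h3 : (6 * (n + 1)) ^ 4 ≤ (7 * n) ^ 4 := Nat.pow_le_pow_left h2 4
    rw [mul_pow, mul_pow] at h3
    norm_num at h3
    omega

theorem num2 (n : ℕ) (hn : 20 ≤ n) : 100 * n + 100 ≤ 3 ^ n := by
  induction n, hn using Nat.le_induction with
  | base => norm_num
  | succ n hn ih => rw [pow_succ]; omega

theorem cong_of_sum {c a b x y z : ℕ} (hc : c.Prime) (hc2 : c ≠ 2) (h : a ^ x + b ^ y = c ^ z) :
    (c : ℤ) ^ z ∣ ((a ^ (c - 1) : ℕ) : ℤ) ^ x - ((b ^ (c - 1) : ℕ) : ℤ) ^ y := by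
  have hev : Even (c - 1) := (hc.eq_two_or_odd'.resolve_left hc2).tsub_odd (by decide) |> fun h => h
  have h1 : (c : ℤ) ^ z = (a : ℤ) ^ x - (-(b : ℤ) ^ y) := by
    rw [sub_neg_eq_add]; exact_mod_cast h.symm
  have h2 : ((a ^ (c - 1) : ℕ) : ℤ) ^ x - ((b ^ (c - 1) : ℕ) : ℤ) ^ y
      = ((a : ℤ) ^ x) ^ (c - 1) - (-(b : ℤ) ^ y) ^ (c - 1) := by
    rw [hev.neg_pow]
    push_cast
    ring
  rw [h1, h2]
  exact sub_dvd_pow_sub_pow _ _ _

theorem fermat {c a : ℕ} (hc : c.Prime) (hac : a.Coprime c) :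
    (c : ℤ) ∣ ((a ^ (c - 1) : ℕ) : ℤ) - 1 := by
  have h : (a : ℤ) ^ (c - 1) ≡ 1 [ZMOD c] :=
    Int.ModEq.pow_card_sub_one_eq_one hc (Nat.isCoprime_iff_coprime.mpr hac)
  push_cast
  exact h.symm.dvd

/-- exponent bound -/
theorem exp_le {c a x z : ℕ} (ha : 2 ≤ a) (h : a ^ x < c ^ z) : x ≤ c * z := by
  have h1 : 2 ^ x < 2 ^ (c * z) := by
    calc 2 ^ x ≤ a ^ x := by gcongr
      _ < c ^ z := h
      _ ≤ (2 ^ c) ^ z := by gcongr; exact Nat.lt_two_pow_self.le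
      _ = _ := by rw [pow_mul]
  exact ((Nat.pow_lt_pow_iff_right (by norm_num)).mp h1).le

theorem base_le {c a x z : ℕ} (hc : 1 ≤ c) (hx : 1 ≤ x) (h : a ^ x < c ^ z) : a ^ (c - 1) ≤ c ^ (z * c) := by
  have h1 : a ≤ c ^ z := by
    rcases Nat.eq_zero_or_pos a with h0 | h0
    · rw [h0]; exact Nat.zero_le _
    · calc a = a ^ 1 := (pow_one a).symm
        _ ≤ a ^ x := Nat.pow_le_pow_right h0 hx
        _ ≤ c ^ z := h.le
  calc a ^ (c - 1) ≤ (c ^ z) ^ (c - 1) := by gcongr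
    _ = c ^ (z * (c - 1)) := by rw [← pow_mul]
    _ ≤ c ^ (z * c) := Nat.pow_le_pow_right hc (by gcongr; omega)

/-- First application: `w ≤ z ^ 4`. -/
theorem step1 {c a b u v z w : ℕ} (hc : c.Prime) (hc2 : c ≠ 2) (ha : 2 ≤ a) (hb : 2 ≤ b)
    (hab : a.Coprime b) (hac : a.Coprime c) (hbc : b.Coprime c)
    (hAM : a ^ (c - 1) ≤ c ^ (z * c)) (hBM : b ^ (c - 1) ≤ c ^ (z * c))
    (hu : 1 ≤ u) (hv : 1 ≤ v) (h2 : a ^ u + b ^ v = c ^ w) (hzw : z ≤ w) (hz : c ^ 20 < z) :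
    w ≤ z ^ 4 := by
  by_contra hcon
  push Not at hcon
  have hc3 : 3 ≤ c := by have := hc.two_le; omega
  have hc1 : 1 < c := hc.one_lt
  have hc0 : 0 < c := hc.pos
  obtain ⟨s, hs⟩ : ∃ s, s = Nat.clog c w := ⟨_, rfl⟩
  have hws : w ≤ c ^ s := by rw [hs]; exact Nat.le_pow_clog hc1 w
  have hw81 : c ^ 80 < w := by
    calc c ^ 80 = (c ^ 20) ^ 4 := by rw [← pow_mul]
      _ < z ^ 4 := Nat.pow_lt_pow_left hz (by norm_num)
      _ < w := hcon
  have hs81 : 81 ≤ s := by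
    have h : c ^ 80 < c ^ s := hw81.trans_le hws
    have := (Nat.pow_lt_pow_iff_right hc1).mp h
    omega
  have hws' : c ^ (s - 1) < w := by
    rw [hs]
    exact Nat.pow_pred_clog_lt_self hc1 (by have : 1 ≤ c ^ 80 := Nat.one_le_pow _ _ hc0
                                            omega)
  have hus : ∀ q, q ≤ c * w → q ≤ c ^ (s + 1) := by
    intro q hq
    calc q ≤ c * w := hq
      _ ≤ c * c ^ s := by gcongr
      _ = c ^ (s + 1) := by rw [pow_succ]; ring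
  have hau : a ^ u < c ^ w := by have : 0 < b ^ v := by positivity
                                 omega
  have hbv : b ^ v < c ^ w := by have : 0 < a ^ u := by positivity
                                 omega
  have hpow2 : ∀ q, 2 ≤ q → 2 ≤ q ^ (c - 1) := by
    intro q hq
    calc 2 ≤ q := hq
      _ = q ^ 1 := (pow_one q).symm
      _ ≤ q ^ (c - 1) := Nat.pow_le_pow_right (by omega) (by omega)
  have hz0 : 1 ≤ z := by omega
  have key := app_bound (c := c) (A := a ^ (c - 1)) (B := b ^ (c - 1)) (X := u) (Y := v) (N := w)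
    (α := 1) (M := z * c) (R := z * c) (l := 10 * s) (t := s + 1) hc hc2 (hpow2 a ha) (hpow2 b hb)
    (Nat.Coprime.pow _ _ hab) le_rfl (by rw [pow_one]; exact fermat hc hac)
    (by rw [pow_one]; exact fermat hc hbc) hAM hBM (by rw [mul_one]) (by nlinarith) (by omega) hu hv
    (hus _ (exp_le ha hau)) (hus _ (exp_le hb hbv)) ?_ (cong_of_sum hc hc2 h2)
  · -- contradiction
    have h3 : w < c ^ 15 * z ^ 2 * s ^ 2 := by
      refine key.trans_le ?_
      have e1 : 8256 * 1 * (z * c) ^ 2 * (10 * s) ^ 2 + (s + 1) + z * c * (256 * (z * c) * (10 * s))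
          ≤ 3 ^ 13 * ((z * c) ^ 2 * s ^ 2) := by
        have e2 : s ≤ (z * c) ^ 2 * s ^ 2 := by
          calc s ≤ s * s := Nat.le_mul_self s
            _ = 1 * s ^ 2 := by ring
            _ ≤ (z * c) ^ 2 * s ^ 2 := by
              gcongr
              exact Nat.one_le_iff_ne_zero.mpr (by positivity)
        have e3 : 1 ≤ (z * c) ^ 2 * s ^ 2 := by omega
        have e4 : (z * c) ^ 2 * s ≤ (z * c) ^ 2 * s ^ 2 := by
          gcongr
          exact Nat.le_self_pow (by norm_num) s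
        have e5 : 8256 * 1 * (z * c) ^ 2 * (10 * s) ^ 2 = 825600 * ((z * c) ^ 2 * s ^ 2) := by ring
        have e6 : z * c * (256 * (z * c) * (10 * s)) = 2560 * ((z * c) ^ 2 * s) := by ring
        rw [e5, e6]
        norm_num
        omega
      refine e1.trans ?_
      calc 3 ^ 13 * ((z * c) ^ 2 * s ^ 2) ≤ c ^ 13 * ((z * c) ^ 2 * s ^ 2) := by gcongr
        _ = c ^ 15 * z ^ 2 * s ^ 2 := by ring
    have h4 : c ^ 30 * s ^ 4 ≤ w := by
      calc c ^ 30 * s ^ 4 ≤ c ^ 30 * 3 ^ (s - 31) := Nat.mul_le_mul_left _ (num1 s hs81)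
        _ ≤ c ^ 30 * c ^ (s - 31) := by gcongr
        _ = c ^ (s - 1) := by rw [← pow_add]; congr 1; omega
        _ ≤ w := hws'.le
    have h5 : (c ^ 15 * z ^ 2 * s ^ 2) ^ 2 ≤ w ^ 2 := by
      calc (c ^ 15 * z ^ 2 * s ^ 2) ^ 2 = z ^ 4 * (c ^ 30 * s ^ 4) := by ring
        _ ≤ w * w := by gcongr
        _ = w ^ 2 := by ring
    have h6 : w ^ 2 < (c ^ 15 * z ^ 2 * s ^ 2) ^ 2 := Nat.pow_lt_pow_left h3 (by norm_num)
    omega
  · -- size
    rw [show 2 * 1 * (10 * s) = (4 * s) * 5 by ring, pow_mul c (4 * s) 5]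
    apply Nat.pow_le_pow_left
    calc 516 * (z * c * (10 * s) * c ^ (s + 1)) = 5160 * z * s * c ^ (s + 2) := by ring
      _ ≤ c ^ 8 * c ^ s * c ^ s * c ^ (s + 2) := by
        gcongr
        · calc 5160 ≤ 3 ^ 8 := by norm_num
            _ ≤ c ^ 8 := by gcongr
        · exact hzw.trans hws
        · exact (Nat.lt_pow_self hc1).le
      _ = c ^ (3 * s + 10) := by rw [← pow_add, ← pow_add, ← pow_add]; congr 1; ring
      _ ≤ c ^ (4 * s) := Nat.pow_le_pow_right hc0 (by omega)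

theorem step2 {c : ℕ} (hc : c.Prime) (hc2 : c ≠ 2) {P Q : ℤ} (hP : (c : ℤ) ∣ P - 1)
    {x y u v z t : ℕ} (h1 : (c : ℤ) ^ z ∣ P ^ x - Q ^ y) (h2 : (c : ℤ) ^ z ∣ P ^ u - Q ^ v)
    (hne : x * v ≠ u * y) (ht1 : x * v ≤ c ^ t) (ht2 : u * y ≤ c ^ t) :
    (c : ℤ) ^ (z - t) ∣ P - 1 := by
  have h3 : (c : ℤ) ^ z ∣ P ^ (x * v) - P ^ (u * y) := by
    have e1 : (c : ℤ) ^ z ∣ P ^ (x * v) - Q ^ (y * v) := by
      rw [pow_mul, pow_mul]
      exact h1.trans (sub_dvd_pow_sub_pow _ _ _)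
    have e2 : (c : ℤ) ^ z ∣ P ^ (u * y) - Q ^ (v * y) := by
      rw [pow_mul, pow_mul]
      exact h2.trans (sub_dvd_pow_sub_pow _ _ _)
    have e3 := dvd_sub e1 e2
    rw [mul_comm v y] at e3
    have e4 : P ^ (x * v) - Q ^ (y * v) - (P ^ (u * y) - Q ^ (y * v)) = P ^ (x * v) - P ^ (u * y) := by
      ring
    rwa [e4] at e3
  have hcop : IsCoprime ((c : ℤ)) P := by
    obtain ⟨k, hk⟩ := hP
    exact ⟨-k, 1, by linear_combination hk⟩
  have key : ∀ m n : ℕ, m < n → n ≤ c ^ t → (c : ℤ) ^ z ∣ P ^ n - P ^ m → (c : ℤ) ^ (z - t) ∣ P - 1 := by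
    intro m n hmn hn h
    obtain ⟨d, rfl⟩ := Nat.exists_eq_add_of_lt hmn
    have e1 : P ^ (m + d + 1) - P ^ m = P ^ m * (P ^ (d + 1) - 1 ^ (d + 1)) := by
      rw [one_pow]; ring
    rw [e1] at h
    have e2 : (c : ℤ) ^ z ∣ P ^ (d + 1) - 1 ^ (d + 1) :=
      (IsCoprime.pow hcop).dvd_of_dvd_mul_left h
    exact root_cong hc hc2 hP (by simp) (by omega) (by omega) e2
  rcases lt_or_gt_of_ne hne with h | h
  · refine key _ _ h ht2 ?_
    rw [← dvd_neg, neg_sub]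
    exact h3
  · exact key _ _ h ht1 h3

end Sch

open Sch in
/-- Exponential bound, given that the determinant is nonzero. -/
theorem expBound_of_ne (c : ℕ) (hc : c.Prime) (hc2 : c ≠ 2) (a b x y z u v w : ℕ) (ha : 2 ≤ a)
    (hb : 2 ≤ b) (hab : a.Coprime b) (hac : a.Coprime c) (hbc : b.Coprime c) (hx : 1 ≤ x)
    (hy : 1 ≤ y) (hu : 1 ≤ u) (hv : 1 ≤ v)
    (h1 : a ^ x + b ^ y = c ^ z) (h2 : a ^ u + b ^ v = c ^ w) (hzw : z ≤ w) (hne : x * v ≠ u * y) :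
    z ≤ c ^ 20 ∨ (x ≤ c ^ 20 ∧ y ≤ c ^ 20 ∧ u ≤ c ^ 20 ∧ v ≤ c ^ 20 ∧ w ≤ c ^ 20 * z ∧
      c ^ z ≤ a ^ (c ^ 20) ∧ c ^ z ≤ b ^ (c ^ 20)) := by
  rw [or_iff_not_imp_left]
  intro hz
  push Not at hz
  have hc3 : 3 ≤ c := by have := hc.two_le; omega
  have hc1 : 1 < c := hc.one_lt
  have hc0 : 0 < c := hc.pos
  have hax : a ^ x < c ^ z := by have : 0 < b ^ y := by positivity
                                 omega
  have hby : b ^ y < c ^ z := by have : 0 < a ^ x := by positivity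
                                 omega
  have hau : a ^ u < c ^ w := by have : 0 < b ^ v := by positivity
                                 omega
  have hbv : b ^ v < c ^ w := by have : 0 < a ^ u := by positivity
                                 omega
  have hAM := base_le hc0 hx hax
  have hBM := base_le hc0 hy hby
  have hw4 := step1 hc hc2 ha hb hab hac hbc hAM hBM hu hv h2 hzw hz
  obtain ⟨s, hs⟩ : ∃ s, s = Nat.clog c z := ⟨_, rfl⟩
  have hzs : z ≤ c ^ s := by rw [hs]; exact Nat.le_pow_clog hc1 z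
  have hs21 : 21 ≤ s := by
    have h : c ^ 20 < c ^ s := hz.trans_le hzs
    have := (Nat.pow_lt_pow_iff_right hc1).mp h
    omega
  have hzs' : c ^ (s - 1) < z := by
    rw [hs]
    exact Nat.pow_pred_clog_lt_self hc1 (by have : 1 ≤ c ^ 20 := Nat.one_le_pow _ _ hc0
                                            omega)
  have hzbig : 100 * s ≤ z := by
    have e1 := num2 (s - 1) (by omega)
    have e2 : 3 ^ (s - 1) ≤ c ^ (s - 1) := by gcongr
    omega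
  have hws : w ≤ c ^ (4 * s) := by
    calc w ≤ z ^ 4 := hw4
      _ ≤ (c ^ s) ^ 4 := by gcongr
      _ = c ^ (4 * s) := by rw [← pow_mul]; congr 1; ring
  have hsm : ∀ q, q ≤ c * z → q ≤ c ^ (s + 1) := by
    intro q hq
    calc q ≤ c * z := hq
      _ ≤ c * c ^ s := by gcongr
      _ = c ^ (s + 1) := by rw [pow_succ]; ring
  have hbg : ∀ q, q ≤ c * w → q ≤ c ^ (4 * s + 1) := by
    intro q hq
    calc q ≤ c * w := hq
      _ ≤ c * c ^ (4 * s) := by gcongr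
      _ = c ^ (4 * s + 1) := by rw [pow_succ]; ring
  have hx' := hsm x (exp_le ha hax)
  have hy' := hsm y (exp_le hb hby)
  have hu' := hbg u (exp_le ha hau)
  have hv' := hbg v (exp_le hb hbv)
  have hxv : x * v ≤ c ^ (5 * s + 2) := by
    calc x * v ≤ c ^ (s + 1) * c ^ (4 * s + 1) := by gcongr
      _ = _ := by rw [← pow_add]; congr 1; ring
  have huy : u * y ≤ c ^ (5 * s + 2) := by
    calc u * y ≤ c ^ (4 * s + 1) * c ^ (s + 1) := by gcongr
      _ = _ := by rw [← pow_add]; congr 1; ring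
  have hC1 := cong_of_sum hc hc2 h1
  have hC2 := (pow_dvd_pow (c : ℤ) hzw).trans (cong_of_sum hc hc2 h2)
  have hFA := fermat hc hac
  have hFB := fermat hc hbc
  obtain ⟨α, hα⟩ : ∃ α, α = z - (5 * s + 2) := ⟨_, rfl⟩
  have hA1 : (c : ℤ) ^ α ∣ ((a ^ (c - 1) : ℕ) : ℤ) - 1 := by
    rw [hα]
    exact step2 hc hc2 hFA hC1 hC2 hne hxv huy
  have hB1 : (c : ℤ) ^ α ∣ ((b ^ (c - 1) : ℕ) : ℤ) - 1 := by
    rw [hα]
    refine step2 hc hc2 hFB (x := y) (y := x) (u := v) (v := u) (Q := ((a ^ (c - 1) : ℕ) : ℤ)) ?_ ?_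
      ?_ (t := 5 * s + 2) ?_ ?_
    · rw [← dvd_neg, neg_sub]; exact hC1
    · rw [← dvd_neg, neg_sub]; exact hC2
    · intro h; apply hne; rw [mul_comm x v, ← h, mul_comm]
    · rw [mul_comm]; exact huy
    · rw [mul_comm]; exact hxv
  have hpow2 : ∀ q, 2 ≤ q → 2 ≤ q ^ (c - 1) := by
    intro q hq
    calc 2 ≤ q := hq
      _ = q ^ 1 := (pow_one q).symm
      _ ≤ q ^ (c - 1) := Nat.pow_le_pow_right (by omega) (by omega)
  have h2α : z ≤ 2 * α := by omega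
  have hαz : α ≤ z := by omega
  -- size of a, b
  have hsize : ∀ q, 2 ≤ q → (c : ℤ) ^ α ∣ ((q ^ (c - 1) : ℕ) : ℤ) - 1 →
      c ^ z ≤ q ^ (2 * c) := by
    intro q hq hdvd
    have e1 : (1 : ℤ) < ((q ^ (c - 1) : ℕ) : ℤ) := by exact_mod_cast (hpow2 q hq)
    have e2 : (c : ℤ) ^ α ≤ ((q ^ (c - 1) : ℕ) : ℤ) - 1 := Int.le_of_dvd (by linarith) hdvd
    have e3 : c ^ α ≤ q ^ (c - 1) := by
      have : (c : ℤ) ^ α ≤ ((q ^ (c - 1) : ℕ) : ℤ) := by linarith
      exact_mod_cast this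
    calc c ^ z ≤ c ^ (2 * α) := Nat.pow_le_pow_right hc0 h2α
      _ = (c ^ α) ^ 2 := by rw [← pow_mul]; congr 1; ring
      _ ≤ (q ^ (c - 1)) ^ 2 := by gcongr
      _ = q ^ (2 * (c - 1)) := by rw [← pow_mul]; congr 1; ring
      _ ≤ q ^ (2 * c) := Nat.pow_le_pow_right (by omega) (by omega)
  have hsa := hsize a ha hA1
  have hsb := hsize b hb hB1
  -- second application
  have key := app_bound (c := c) (A := a ^ (c - 1)) (B := b ^ (c - 1)) (X := u) (Y := v) (N := w)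
    (α := α) (M := z * c) (R := 2 * c) (l := 2) (t := 4 * s + 1) hc hc2 (hpow2 a ha) (hpow2 b hb)
    (Nat.Coprime.pow _ _ hab) (by omega) hA1 hB1 hAM hBM
    (by calc z * c ≤ (2 * α) * c := by gcongr
          _ = 2 * c * α := by ring) (by omega) le_rfl hu hv hu' hv' ?_ (cong_of_sum hc hc2 h2)
  · have hwz : w ≤ c ^ 13 * z := by
      refine key.le.trans ?_
      have e1 : 8256 * α * (2 * c) ^ 2 * 2 ^ 2 + (4 * s + 1) + z * c * (256 * (2 * c) * 2)
          ≤ 3 ^ 11 * (c ^ 2 * z) := by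
        have e2 : 8256 * α * (2 * c) ^ 2 * 2 ^ 2 = 132096 * (c ^ 2 * α) := by ring
        have e3 : z * c * (256 * (2 * c) * 2) = 1024 * (c ^ 2 * z) := by ring
        have e4 : c ^ 2 * α ≤ c ^ 2 * z := by gcongr
        have e5 : z ≤ c ^ 2 * z := Nat.le_mul_of_pos_left _ (by positivity)
        rw [e2, e3]
        norm_num
        omega
      refine e1.trans ?_
      calc 3 ^ 11 * (c ^ 2 * z) ≤ c ^ 11 * (c ^ 2 * z) := by gcongr
        _ = c ^ 13 * z := by ring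
    have hle : ∀ n, n ≤ 15 → c ^ n ≤ c ^ 20 := fun n hn => Nat.pow_le_pow_right hc0 (by omega)
    have h2c : 2 * c ≤ c ^ 2 := by nlinarith
    have hexp : ∀ q e, 2 ≤ q → q ^ e < c ^ w → c ^ z ≤ q ^ (2 * c) → e ≤ c ^ 20 := by
      intro q e hq he hqz
      have e1 : q ^ e < q ^ (2 * c * c ^ 13) := by
        calc q ^ e < c ^ w := he
          _ ≤ c ^ (c ^ 13 * z) := Nat.pow_le_pow_right hc0 hwz
          _ = (c ^ z) ^ (c ^ 13) := by rw [← pow_mul]; congr 1; ring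
          _ ≤ (q ^ (2 * c)) ^ (c ^ 13) := by gcongr
          _ = q ^ (2 * c * c ^ 13) := by rw [← pow_mul]
      have e2 := (Nat.pow_lt_pow_iff_right (by omega : 1 < q)).mp e1
      calc e ≤ 2 * c * c ^ 13 := e2.le
        _ ≤ c ^ 2 * c ^ 13 := by gcongr
        _ = c ^ 15 := by rw [← pow_add]
        _ ≤ c ^ 20 := hle 15 le_rfl
    have hzw' : c ^ z ≤ c ^ w := Nat.pow_le_pow_right hc0 hzw
    refine ⟨hexp a x ha (hax.trans_le hzw') hsa, hexp b y hb (hby.trans_le hzw') hsb,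
      hexp a u ha hau hsa, hexp b v hb hbv hsb, ?_, ?_, ?_⟩
    · exact hwz.trans (Nat.mul_le_mul_right _ (hle 13 (by norm_num)))
    · exact hsa.trans (Nat.pow_le_pow_right (by omega) (h2c.trans (hle 2 (by norm_num))))
    · exact hsb.trans (Nat.pow_le_pow_right (by omega) (h2c.trans (hle 2 (by norm_num))))
  · -- T condition
    calc (516 * (2 * c * 2 * c ^ (4 * s + 1))) ^ 5 = (2064 * c ^ (4 * s + 2)) ^ 5 := by ring
      _ ≤ (c ^ 7 * c ^ (4 * s + 2)) ^ 5 := by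
        gcongr
        calc 2064 ≤ 3 ^ 7 := by norm_num
          _ ≤ c ^ 7 := by gcongr
      _ = c ^ (20 * s + 45) := by rw [← pow_add, ← pow_mul]; congr 1; ring
      _ ≤ c ^ (2 * α * 2) := Nat.pow_le_pow_right hc0 (by omega)

/-- Exponential bound. -/
theorem expBound (c : ℕ) (hc : c.Prime) (hc2 : c ≠ 2) (a b x y z u v w : ℕ) (ha : 2 ≤ a)
    (hb : 2 ≤ b) (hab : a.Coprime b) (hac : a.Coprime c) (hbc : b.Coprime c) (hx : 1 ≤ x)
    (hy : 1 ≤ y) (hz : 1 ≤ z) (hu : 1 ≤ u) (hv : 1 ≤ v) (hw : 1 ≤ w)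
    (h1 : a ^ x + b ^ y = c ^ z) (h2 : a ^ u + b ^ v = c ^ w) (hzw : z ≤ w)
    (hne : (x, y) ≠ (u, v)) :
    z ≤ c ^ 20 ∨ (x ≤ c ^ 20 ∧ y ≤ c ^ 20 ∧ u ≤ c ^ 20 ∧ v ≤ c ^ 20 ∧ w ≤ c ^ 20 * z ∧
      c ^ z ≤ a ^ (c ^ 20) ∧ c ^ z ≤ b ^ (c ^ 20)) :=
  expBound_of_ne c hc hc2 a b x y z u v w ha hb hab hac hbc hx hy hu hv h1 h2 hzw
    (delta_ne c hc hc2 a b x y z u v w ha hb hac hbc hx hy hz hu hv hw h1 h2 hne)

end Pool.Agent.MP_09c87f_nt

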