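import Pool.Agent.MP_09c87f_nt.Two
import Pool.Agent.MP_09c87f_nt.Excl6

open Polynomial

namespace Pool.Agent.MP_09c87f_nt

lemma coeff_form (c : ℝ) (i j : ℕ) : (C c * (X ^ i * (1 - X) ^ j) : ℝ[X]).coeff i = c := by
  rw [coeff_C_mul]
  have h : (X ^ i * (1 - X) ^ j : ℝ[X]).coeff i = ((1 - X) ^ j : ℝ[X]).coeff 0 := by
    have := coeff_X_pow_mul ((1 - X : ℝ[X]) ^ j) i 0
    simpa using this
  rw [h, coeff_zero_eq_eval_zero]
  simp

lemma coeff_form' (c : ℝ) (i j : ℕ) : (C c * ((1 - X) ^ i * X ^ j) : ℝ[X]).coeff j = c := by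
  rw [mul_comm ((1 - X) ^ i : ℝ[X])]
  exact coeff_form c j i

lemma map_eval_coeff (F : ℝ[X][X]) (i : ℕ) :
    (F.map (evalRingHom 0)).coeff i = (F.coeff i).coeff 0 := by
  rw [coeff_map, coe_evalRingHom, coeff_zero_eq_eval_zero]

lemma t10_map (F : ℝ[X][X]) (t : ℝ) :
    (t10 F).map (evalRingHom t) = (F.map (evalRingHom t)).comp (1 - X) := by
  simp only [t10, coe_compRingHom_apply]
  rw [Polynomial.map_comp]
  simp

lemma t11_map (F : ℝ[X][X]) :
    (t11 F).map (evalRingHom 0) = (F.map (evalRingHom 1)).comp (1 - X) := by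
  rw [← t10_map]
  have h : t11 F = mapRingHom (compRingHom (1 - X)) (t10 F) := rfl
  rw [h, coe_mapRingHom, Polynomial.map_map]
  congr 1
  apply RingHom.ext
  intro p
  simp

theorem dlt_le_zero {m n x y u v : ℕ} (hA : n * y < m * v) (F : ℝ[X][X])
    (θ : Thr) (hc : Cond (wts m n x y u v) θ F) {c c' : ℝ} {i j i' j' : ℕ} (hc0 : c ≠ 0)
    (hc0' : c' ≠ 0) (h0 : F.map (evalRingHom 0) = C c * (X ^ i * (1 - X) ^ j))
    (h1 : F.map (evalRingHom 1) = C c' * (X ^ i' * (1 - X) ^ j'))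
    (hij : i + j = F.natDegree) (hij' : i' + j' = F.natDegree) (hle : i ≤ i')
    (hu : IsUnit F.leadingCoeff) : θ.dlt ≤ 0 := by
  obtain ⟨c1, c2, c3, c4⟩ := hc
  simp only [wts] at c1 c2 c3 c4
  have k1 : (F.coeff F.natDegree).coeff 0 ≠ 0 := by
    obtain ⟨r, hr, hrF⟩ := Polynomial.isUnit_iff.1 hu
    rw [coeff_natDegree, ← hrF]
    simpa using hr.ne_zero
  have k2 : (F.coeff i).coeff 0 ≠ 0 := by
    rw [← map_eval_coeff, h0, coeff_form]; exact hc0
  have k3 : ((t10 F).coeff j).coeff 0 ≠ 0 := by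
    rw [← map_eval_coeff, t10_map, h0]
    simp only [mul_comp, C_comp, pow_comp, X_comp, sub_comp, one_comp, sub_sub_cancel]
    rw [coeff_form']; exact hc0
  have k4 : ((t11 F).coeff j').coeff 0 ≠ 0 := by
    rw [← map_eval_coeff, t11_map, h1]
    simp only [mul_comp, C_comp, pow_comp, X_comp, sub_comp, one_comp, sub_sub_cancel]
    rw [coeff_form']; exact hc0'
  have b1 : x * v * m * F.natDegree ≤ θ.VT := by
    by_contra h; push Not at h
    exact k1 (c1 _ _ (by simpa using h))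
  have b2 : θ.V0 ≤ m * v * x * i := by
    by_contra h; push Not at h
    exact k2 (c2 _ _ (by simpa using h))
  have b3 : θ.VS ≤ x * (m * v - n * y) * j := by
    by_contra h; push Not at h
    exact k3 (c4 _ _ (by simpa using h))
  have b4 : θ.V1 ≤ n * x * y * j' := by
    by_contra h; push Not at h
    exact k4 (c3 _ _ (by simpa using h))
  rw [Thr.dlt]
  zify [hA.le] at b1 b2 b3 b4
  have e1 : (F.natDegree : ℤ) = i + j := by exact_mod_cast hij.symm
  have e2 : (j' : ℤ) ≤ j := by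
    have : i + j = i' + j' := hij.trans hij'.symm
    omega
  rw [e1] at b1
  have e3 : (n : ℤ) * x * y * j' ≤ n * x * y * j := mul_le_mul_of_nonneg_left e2 (by positivity)
  have e4 : (x : ℤ) * (m * v - n * y) * j + m * v * x * i + n * x * y * j - x * v * m * (i + j) = 0 := by
    ring
  linarith

/-- integral version of the curve -/
noncomputable def EZ (A B A' B' e1 e2 c : ℕ) : ℤ[X][X] :=
  C (C ((c : ℤ) ^ e1)) * (X ^ A * (1 - X) ^ B) -
    C (C ((c : ℤ) ^ e2)) * (C (X ^ A' * (1 - X) ^ B'))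

lemma EZ_real (A B A' B' e1 e2 c : ℕ) (hc : 0 < c) :
    bm (Int.castRingHom ℝ) (EZ A B A' B' e1 e2 c) =
      C (C ((c : ℝ) ^ e1)) * curve A B A' B' ((c : ℝ) ^ e2 / (c : ℝ) ^ e1) := by
  have hcR : (c : ℝ) ≠ 0 := by exact_mod_cast hc.ne'
  have hcc : (C (C ((c : ℝ) ^ e2)) : ℝ[X][X]) =
      C (C ((c : ℝ) ^ e1)) * C (C ((c : ℝ) ^ e2 / (c : ℝ) ^ e1)) := by
    rw [← C_mul, ← C_mul, mul_div_cancel₀]
    exact pow_ne_zero _ hcR
  simp only [EZ, bm, curve, bp, map_sub, map_mul, coe_mapRingHom, map_C, map_pow, map_X, map_one]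
  simp only [Polynomial.map_mul, Polynomial.map_pow, map_X, Polynomial.map_sub, Polynomial.map_one,
    eq_intCast, Int.cast_pow, Int.cast_natCast, map_C]
  simp only [map_pow] at hcc
  rw [hcc]
  ring

lemma Bd.CC {K : ℤ} {P : ℤ[X][X]} (h : Bd K P) (r : ℤ) (hr : 0 ≤ r) : Bd (r * K) (C (C r) * P) := by
  intro i j
  rw [CC_coeff, abs_mul, abs_of_nonneg hr]
  exact mul_le_mul_of_nonneg_left (h i j) hr

lemma Bd.sub {K K' : ℤ} {P Q : ℤ[X][X]} (h : Bd K P) (h' : Bd K' Q) : Bd (K + K') (P - Q) := by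
  intro i j
  rw [coeff_sub, coeff_sub]
  have h1 := abs_sub ((P.coeff i).coeff j) ((Q.coeff i).coeff j)
  have h2 := h i j
  have h3 := h' i j
  linarith

lemma bd_one : Bd 1 (1 : ℤ[X][X]) := by
  have h := bd_monomial 0 0
  rwa [monomial_zero_left, monomial_zero_left, C_1, C_1] at h

lemma EZ_bd (A B A' B' e1 e2 c : ℕ) :
    Bd ((c ^ e1 * 2 ^ B + c ^ e2 * 2 ^ B' : ℕ) : ℤ) (EZ A B A' B' e1 e2 c) := by
  have h1 : Bd (2 ^ B) (X ^ A * (1 - X) ^ B : ℤ[X][X]) := by
    have h := bd_one.mul_outer_pow B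
    rw [mul_one, mul_one] at h
    have h2 : ∀ n : ℕ, Bd (2 ^ B) (X ^ n * (1 - X) ^ B : ℤ[X][X]) := by
      intro n
      induction n with
      | zero => simpa using h
      | succ n ih => rw [pow_succ', mul_assoc]; exact ih.X_mul
    exact h2 A
  have h3 : Bd (2 ^ B') (C (X ^ A' * (1 - X) ^ B') : ℤ[X][X]) := by
    have h := bd_one.mul_inner_pow B'
    rw [mul_one, mul_one] at h
    rw [C_mul, C_pow, C_pow]
    have h2 : ∀ n : ℕ, Bd (2 ^ B') (C X ^ n * C (1 - X) ^ B' : ℤ[X][X]) := by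
      intro n
      induction n with
      | zero => simpa using h
      | succ n ih => rw [pow_succ', mul_assoc]; exact ih.CX_mul
    exact h2 A'
  have h4 := (h1.CC ((c : ℤ) ^ e1) (by positivity)).sub (h3.CC ((c : ℤ) ^ e2) (by positivity))
  rw [EZ]
  push_cast
  exact h4

lemma EZ_box (A B A' B' e1 e2 c : ℕ) : Box (A + B) (A' + B') (EZ A B A' B' e1 e2 c) := by
  have hX : Box 1 0 (X : ℤ[X][X]) := by
    have := box_monomial (R := ℤ) (I := 1) (J := 0) (le_refl 1) (le_refl 0) 1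
    rwa [monomial_zero_left, C_1, ← X_pow_eq_monomial, pow_one] at this
  have hCX : Box 0 1 (C X : ℤ[X][X]) := by
    have := box_monomial (R := ℤ) (I := 0) (J := 1) (le_refl 0) (le_refl 1) 1
    rwa [monomial_zero_left, ← X_pow_eq_monomial, pow_one] at this
  have hCC : ∀ r : ℤ, Box 0 0 (C (C r) : ℤ[X][X]) := by
    intro r
    have := box_monomial (R := ℤ) (I := 0) (J := 0) (le_refl 0) (le_refl 0) r
    rwa [monomial_zero_left, monomial_zero_left] at this
  have hpow : ∀ (I J : ℕ) (P : ℤ[X][X]), Box I J P → ∀ n : ℕ, Box (n * I) (n * J) (P ^ n) := by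
    intro I J P hP n
    induction n with
    | zero => simpa using hCC 1
    | succ n ih =>
      rw [pow_succ, Nat.succ_mul, Nat.succ_mul]
      exact ih.mul hP
  have h1 : Box 1 0 (1 - X : ℤ[X][X]) := by
    rw [sub_eq_add_neg]
    have h0 := hCC 1
    rw [C_1, C_1] at h0
    exact (h0.mono (by norm_num) (le_refl _)).add hX.neg
  have h2 : Box 0 1 (C (1 - X) : ℤ[X][X]) := by
    rw [C_sub, sub_eq_add_neg]
    have h0 := hCC 1
    exact (h0.mono (le_refl _) (by norm_num)).add hCX.neg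
  have h3 : Box (A + B) 0 (X ^ A * (1 - X) ^ B : ℤ[X][X]) := by
    have := (hpow _ _ _ hX A).mul (hpow _ _ _ h1 B)
    simpa using this
  have h4 : Box 0 (A' + B') (C (X ^ A' * (1 - X) ^ B') : ℤ[X][X]) := by
    rw [C_mul, C_pow, C_pow]
    have := (hpow _ _ _ hCX A').mul (hpow _ _ _ h2 B')
    simpa using this
  rw [EZ, sub_eq_add_neg]
  have h5 := ((hCC ((c : ℤ) ^ e1)).mul h3).mono (I' := A + B) (J' := A' + B') (by omega) (by omega)
  have h6 := ((hCC ((c : ℤ) ^ e2)).mul h4).mono (I' := A + B) (J' := A' + B') (by omega) (by omega)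
  exact h5.add h6.neg

end Pool.Agent.MP_09c87f_nt
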