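import Mathlib

namespace Pool.Agent.MP_09c87f_nt

/-- The solutions `(x, y, z)` in positive integers of `a ^ x + b ^ y = c ^ z`. -/
def solutions (a b c : ℕ) : Set (ℕ × ℕ × ℕ) :=
  {p | 0 < p.1 ∧ 0 < p.2.1 ∧ 0 < p.2.2 ∧ a ^ p.1 + b ^ p.2.1 = c ^ p.2.2}

/-- `(a, b)` is an exceptional pair for `c`: `a, b > 1`, the integers `a, b, c` are relatively
prime, and the equation has at least two solutions in positive integers. -/
def Exceptional (a b c : ℕ) : Prop :=
  1 < a ∧ 1 < b ∧ Nat.gcd (Nat.gcd a b) c = 1 ∧ 2 ≤ (solutions a b c).encard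

end Pool.Agent.MP_09c87f_nt
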