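import Pool.Agent.MP_09c87f_nt.Assemble
import Pool.Agent.MP_09c87f_nt.ExpBound
import Pool.Agent.MP_09c87f_nt.FinalDefs

namespace Pool.Agent.MP_09c87f_nt

theorem final_two (c : ℕ) (hc : c.Prime) (hc2 : c ≠ 2) (a b x y z u v w : ℕ) (ha : 2 ≤ a)
    (hb : 2 ≤ b) (hab : a.Coprime b) (hac : a.Coprime c) (hbc : b.Coprime c) (hx : 1 ≤ x)
    (hy : 1 ≤ y) (hz : 1 ≤ z) (hu : 1 ≤ u) (hv : 1 ≤ v) (hw : 1 ≤ w)
    (h1 : a ^ x + b ^ y = c ^ z) (h2 : a ^ u + b ^ v = c ^ w) (hzw : z ≤ w)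
    (hne : (x, y) ≠ (u, v)) : max a b ≤ c ^ c ^ 1000 := by
  have hc3 : 3 ≤ c := by
    have := hc.two_le
    omega
  set N := c ^ 20 with hN
  have hN20 : 2 ^ 20 ≤ N := by
    calc 2 ^ 20 ≤ 3 ^ 20 := by norm_num
      _ ≤ c ^ 20 := Nat.pow_le_pow_left hc3 20
  have hcN : c ≤ N := Nat.le_self_pow (by norm_num) c
  have hcz : c ^ z ≤ c ^ c ^ 1000 := by
    rcases expBound c hc hc2 a b x y z u v w ha hb hab hac hbc hx hy hz hu hv hw h1 h2 hzw hne with
      h | ⟨k1, k2, k3, k4, k5, k6, k7⟩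
    · apply Nat.pow_le_pow_right (by omega)
      exact h.trans (Nat.pow_le_pow_right (by omega) (by norm_num))
    · have h3 := assembled N a b c x y z u v w hN20 ha hb (by omega) hcN hx hy hz hu hv hab hac hbc
        h1 h2 hne k1 k2 k3 k4 hzw k5 k6 k7
      refine h3.trans ?_
      calc 2 ^ (N ^ 45) ≤ c ^ (N ^ 45) := Nat.pow_le_pow_left (by omega) _
        _ = c ^ c ^ 900 := by rw [hN, ← pow_mul]
        _ ≤ c ^ c ^ 1000 := by
          apply Nat.pow_le_pow_right (by omega)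
          exact Nat.pow_le_pow_right (by omega) (by norm_num)
  apply max_le
  · refine le_trans ?_ hcz
    calc a ≤ a ^ x := Nat.le_self_pow (by omega) a
      _ ≤ c ^ z := by omega
  · refine le_trans ?_ hcz
    calc b ≤ b ^ y := Nat.le_self_pow (by omega) b
      _ ≤ c ^ z := by omega

lemma coprime_of_solution {a b c x y z : ℕ} (hg : Nat.gcd (Nat.gcd a b) c = 1) (hx : 0 < x)
    (hy : 0 < y) (h : a ^ x + b ^ y = c ^ z) (hz : 0 < z) :
    a.Coprime b ∧ a.Coprime c ∧ b.Coprime c := by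
  refine ⟨?_, ?_, ?_⟩
  · apply Nat.Coprime.symm
    rw [Nat.coprime_comm]
    apply Nat.coprime_of_dvd
    intro p hp hpa hpb
    have hpc : p ∣ c := by
      apply hp.dvd_of_dvd_pow (n := z)
      rw [← h]
      exact dvd_add (dvd_pow hpa (by omega)) (dvd_pow hpb (by omega))
    have := Nat.dvd_gcd (Nat.dvd_gcd hpa hpb) hpc
    rw [hg] at this
    exact hp.one_lt.ne' (Nat.dvd_one.1 this)
  · apply Nat.coprime_of_dvd
    intro p hp hpa hpc
    have hpb : p ∣ b := by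
      apply hp.dvd_of_dvd_pow (n := y)
      have h3 : p ∣ a ^ x + b ^ y := by rw [h]; exact dvd_pow hpc (by omega)
      exact (Nat.dvd_add_right (dvd_pow hpa (by omega))).1 h3
    have := Nat.dvd_gcd (Nat.dvd_gcd hpa hpb) hpc
    rw [hg] at this
    exact hp.one_lt.ne' (Nat.dvd_one.1 this)
  · apply Nat.coprime_of_dvd
    intro p hp hpb hpc
    have hpa : p ∣ a := by
      apply hp.dvd_of_dvd_pow (n := x)
      have h3 : p ∣ a ^ x + b ^ y := by rw [h]; exact dvd_pow hpc (by omega)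
      exact (Nat.dvd_add_left (dvd_pow hpb (by omega))).1 h3
    have := Nat.dvd_gcd (Nat.dvd_gcd hpa hpb) hpc
    rw [hg] at this
    exact hp.one_lt.ne' (Nat.dvd_one.1 this)

/-- The effective bound for exceptional pairs, for every odd prime `c`. -/
theorem exceptional_bound (c a b : ℕ) (hc : c.Prime) (hc2 : c ≠ 2) (h : Exceptional a b c) :
    max a b ≤ c ^ c ^ 1000 := by
  obtain ⟨ha, hb, hg, hN⟩ := h
  obtain ⟨p, q, hp, hq, hpq⟩ : ∃ p q, p ∈ solutions a b c ∧ q ∈ solutions a b c ∧ p ≠ q := by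
    have h1 : 1 < (solutions a b c).encard := lt_of_lt_of_le (by norm_num) hN
    obtain ⟨p, q, hp, hq, hpq⟩ := Set.one_lt_encard_iff.1 h1
    exact ⟨p, q, hp, hq, hpq⟩
  obtain ⟨x, y, z⟩ := p
  obtain ⟨u, v, w⟩ := q
  obtain ⟨hx, hy, hz, h1⟩ := hp
  obtain ⟨hu, hv, hw, h2⟩ := hq
  simp only at hx hy hz h1 hu hv hw h2
  obtain ⟨hab, hac, hbc⟩ := coprime_of_solution hg hx hy h1 hz
  have hc1 : 1 < c := hc.one_lt
  have hne : (x, y) ≠ (u, v) := by
    intro h
    simp only [Prod.mk.injEq] at h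
    obtain ⟨rfl, rfl⟩ := h
    rw [h1] at h2
    have := Nat.pow_right_injective hc1 h2
    subst this
    exact hpq rfl
  rcases le_total z w with hzw | hzw
  · exact final_two c hc hc2 a b x y z u v w ha hb hab hac hbc hx hy hz hu hv hw h1 h2 hzw hne
  · exact final_two c hc hc2 a b u v w x y z ha hb hab hac hbc hu hv hw hx hy hz h2 h1 hzw hne.symm

end Pool.Agent.MP_09c87f_nt
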