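import Pool.Agent.MP_09c87f_nt.G2

open Polynomial

namespace Pool.Agent.MP_09c87f_nt

/-- if `log c * z ≤ r * (log M + q * log 2)` then `c ^ z ≤ (M * 2 ^ q) ^ r` -/
lemma pow_le_of_log {c z r M q : ℕ} (hc : 1 ≤ c) (hM : 1 ≤ M)
    (h : Real.log c * z ≤ r * (Real.log M + q * Real.log 2)) : c ^ z ≤ (M * 2 ^ q) ^ r := by
  have hcR : (0 : ℝ) < c := by exact_mod_cast hc
  have hMR : (0 : ℝ) < M := by exact_mod_cast hM
  have h1 : Real.log ((c : ℝ) ^ z) ≤ Real.log (((M : ℝ) * 2 ^ q) ^ r) := by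
    rw [Real.log_pow, Real.log_pow, Real.log_mul (by positivity) (by positivity), Real.log_pow]
    linarith
  have h2 := (Real.log_le_log_iff (by positivity) (by positivity)).1 h1
  exact_mod_cast h2

theorem G1 (N T0 K0 a b c x y z u v w : ℕ) (ha : 2 ≤ a) (hb : 2 ≤ b) (hc : 2 ≤ c)
    (hx : 1 ≤ x) (hy : 1 ≤ y) (hz : 1 ≤ z) (hu : 1 ≤ u) (hv : 1 ≤ v)
    (hab : a.Coprime b) (hac : a.Coprime c)
    (h1 : a ^ x + b ^ y = c ^ z) (h2 : a ^ u + b ^ v = c ^ w)
    (hdA : c ^ z ≤ 2 * a ^ x) (hdB : c ^ w ≤ 2 * b ^ v)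
    (hxN : x ≤ N) (hyN : y ≤ N) (huN : u ≤ N) (hvN : v ≤ N) (hzw : z ≤ w) (hwN : w ≤ N * z)
    (hN2 : w * y < z * v) (hN1 : z * u < w * x)
    (hT0 : T0 = 48 * N ^ 3) (hK0 : K0 = HH T0 T0)
    (hbig : ¬ c ^ z ≤ (MM T0 T0 K0 * 2 ^ (4 * N * T0)) ^ (N ^ 2)) :
    ∃ (m n : ℕ) (k : ℤ), 1 ≤ m ∧ m ≤ n ∧ n ≤ T0 ∧ (m : ℤ) * w - n * z = k ∧
      c ^ k.natAbs ≤ K0 := by
  have hNpos : 1 ≤ N := hx.trans hxN
  have hK0pos : 1 ≤ K0 := by rw [hK0, HH]; exact Nat.one_le_pow _ _ (by positivity)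
  have hL0 : 16 * (2 * (x * v) + u * y) ≤ 48 * N ^ 2 := by
    have e1 : x * v ≤ N * N := Nat.mul_le_mul hxN hvN
    have e2 : u * y ≤ N * N := Nat.mul_le_mul huN hyN
    nlinarith
  have hI0 : w * (16 * (2 * (x * v) + u * y)) / z ≤ T0 := by
    calc w * (16 * (2 * (x * v) + u * y)) / z ≤ (N * z) * (48 * N ^ 2) / z :=
          Nat.div_le_div_right (Nat.mul_le_mul hwN hL0)
      _ = T0 := by
          rw [hT0]
          have : N * z * (48 * N ^ 2) = (48 * N ^ 3) * z := by ring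
          rw [this, Nat.mul_div_cancel _ hz]
  have hJ0 : 16 * (2 * (x * v) + u * y) ≤ T0 := by
    rw [hT0]
    refine hL0.trans ?_
    exact Nat.mul_le_mul_left _ (Nat.pow_le_pow_right hNpos (by norm_num))
  obtain ⟨P, θ, hP0, hPb, hPB, hPc, hPd⟩ := EX z w x y u v hz hx hy hu hv hN2 hN1 hzw
  have hPb' : Box T0 T0 P := hPb.mono hI0 hJ0
  have hPB' : Bd K0 P := hPB.mono (by rw [hK0]; exact_mod_cast HH_mono hI0 hJ0)
  have hMM : 1 ≤ MM T0 T0 K0 := by
    rw [MM]
    have : 0 < K0 := hK0pos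
    exact Nat.succ_le_of_lt (by positivity)
  have hK0le : K0 ≤ (MM T0 T0 K0 * 2 ^ (4 * N * T0)) ^ (N ^ 2) := by
    have e1 : K0 ≤ MM T0 T0 K0 := by
      rw [MM]
      calc K0 = 1 * (1 * (K0 * 1)) := by ring
        _ ≤ _ := Nat.mul_le_mul (Nat.succ_le_of_lt (by positivity))
            (Nat.mul_le_mul (Nat.succ_le_of_lt (by positivity))
            (Nat.mul_le_mul_left _ Nat.one_le_two_pow))
    have e2 : MM T0 T0 K0 ≤ MM T0 T0 K0 * 2 ^ (4 * N * T0) :=
      Nat.le_mul_of_pos_right _ (by positivity)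
    have e3 : MM T0 T0 K0 * 2 ^ (4 * N * T0) ≤ (MM T0 T0 K0 * 2 ^ (4 * N * T0)) ^ (N ^ 2) := by
      apply Nat.le_self_pow
      have : 1 ≤ N ^ 2 := Nat.one_le_pow _ _ hNpos
      omega
    exact e1.trans (e2.trans e3)
  have hzero : (bm (Int.castRingHom ℝ) P).evalEval ((a : ℝ) ^ u / (c : ℝ) ^ w)
      ((a : ℝ) ^ x / (c : ℝ) ^ z) = 0 := by
    by_contra hne
    apply hbig
    have h3 := PF_gen a b c x y z u v w ha hb hc hx hv hab h1 h2 hdA hdB z w hz (hz.trans hzw) 0
      (by ring) hN2 hN1 P θ T0 T0 K0 hK0pos hP0 hPb' hPB' hPc hne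
    apply pow_le_of_log (by omega) hMM
    simp only [Int.cast_zero, abs_zero, zero_mul, add_zero] at h3
    have hL : 0 < Real.log c := Real.log_pos (by exact_mod_cast (by omega : 1 < c))
    have hzR : (0 : ℝ) < z := by exact_mod_cast hz
    have hxR : (0 : ℝ) < x := by exact_mod_cast hx
    have hvR : (0 : ℝ) < v := by exact_mod_cast hv
    have hd : (z : ℝ) ≤ ((θ.dlt : ℤ) : ℝ) := by
      have : (w : ℝ) ≤ ((θ.dlt : ℤ) : ℝ) := by exact_mod_cast hPd
      have h5 : (z : ℝ) ≤ w := by exact_mod_cast hzw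
      linarith
    have h4 : Real.log c * (z / (x * v)) ≤ Real.log c * (z * ((θ.dlt : ℤ) : ℝ) / (z * x * v)) := by
      apply mul_le_mul_of_nonneg_left _ hL.le
      have : (z : ℝ) * ((θ.dlt : ℤ) : ℝ) / (z * x * v) = ((θ.dlt : ℤ) : ℝ) / (x * v) := by
        field_simp
      rw [this]
      exact div_le_div_of_nonneg_right hd (by positivity)
    have h5 := h4.trans h3
    have hxN' : (x : ℝ) ≤ N := by exact_mod_cast hxN
    have hyN' : (y : ℝ) ≤ N := by exact_mod_cast hyN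
    have huN' : (u : ℝ) ≤ N := by exact_mod_cast huN
    have hvN' : (v : ℝ) ≤ N := by exact_mod_cast hvN
    have hN0 : (0 : ℝ) < N := by linarith
    have hlog2 : 0 ≤ Real.log 2 := Real.log_nonneg (by norm_num)
    have h6 : ((x : ℝ) * T0 + u * T0 + (y * T0 + v * T0)) * Real.log 2 ≤
        ((4 * N * T0 : ℕ) : ℝ) * Real.log 2 := by
      apply mul_le_mul_of_nonneg_right _ hlog2
      push_cast
      have hT : (0 : ℝ) ≤ T0 := by positivity
      have q1 := mul_le_mul_of_nonneg_right hxN' hT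
      have q2 := mul_le_mul_of_nonneg_right hyN' hT
      have q3 := mul_le_mul_of_nonneg_right huN' hT
      have q4 := mul_le_mul_of_nonneg_right hvN' hT
      linarith only [q1, q2, q3, q4]
    have h7 : Real.log c * (z / (x * v)) ≤ Real.log (MM T0 T0 K0) +
        ((4 * N * T0 : ℕ) : ℝ) * Real.log 2 := h5.trans (by linarith)
    have h8 : Real.log c * z = (x * v) * (Real.log c * (z / (x * v))) := by
      field_simp
    rw [h8]
    have h9 : (0 : ℝ) ≤ Real.log (MM T0 T0 K0) + ((4 * N * T0 : ℕ) : ℝ) * Real.log 2 := by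
      have : 0 ≤ Real.log (MM T0 T0 K0) := Real.log_nonneg (by exact_mod_cast hMM)
      positivity
    calc (x : ℝ) * v * (Real.log c * (z / (x * v))) ≤ x * v * (Real.log (MM T0 T0 K0) +
        ((4 * N * T0 : ℕ) : ℝ) * Real.log 2) := mul_le_mul_of_nonneg_left h7 (by positivity)
      _ ≤ _ := by
        apply mul_le_mul_of_nonneg_right _ h9
        push_cast
        rw [pow_two]
        exact mul_le_mul hxN' hvN' hvR.le hN0.le
  obtain ⟨i0, j0, i1, j1, d, hi0, hj0, hi1, hj1, hne, hd, heq⟩ :=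
    two_terms a c x z u w ha hc hac P T0 T0 K0 hP0 hPb' hPB' hzero
  have hbigK : ¬ c ^ z ≤ K0 := fun h => hbig (h.trans hK0le)
  have hzd : d < z := by
    by_contra h
    push Not at h
    exact hbigK ((Nat.pow_le_pow_right (by omega) h).trans hd)
  have hdw : d < w := lt_of_lt_of_le hzd hzw
  rcases lt_trichotomy j0 j1 with hj | hj | hj
  · -- j0 < j1
    have hi : i1 < i0 := by
      by_contra h
      push Not at h
      have e1 : i0 * z ≤ i1 * z := Nat.mul_le_mul_right _ h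
      have e2 : (j0 + 1) * w ≤ j1 * w := Nat.mul_le_mul_right _ hj
      have e3 : (j0 + 1) * w = j0 * w + w := by ring
      omega
    refine ⟨j1 - j0, i0 - i1, -(d : ℤ), by omega, ?_, by omega, ?_, by simpa using hd⟩
    · by_contra h
      push Not at h
      have e1 : (i0 - i1 + 1) * z ≤ (j1 - j0) * w := Nat.mul_le_mul (by omega) hzw
      have e2 : (i0 - i1 + 1) * z = (i0 - i1) * z + z := by ring
      have e3 : (i0 - i1) * z = (j1 - j0) * w + d := by
        zify [hi.le, hj.le] at heq ⊢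
        linarith
      -- weak: m w ≤ n z, so n ≥ m
      have e4 : (i0 - i1) * z < (j1 - j0) * w := by omega
      omega
    · push_cast [Nat.cast_sub hj.le, Nat.cast_sub hi.le]
      zify at heq
      linarith
  · -- j0 = j1
    exfalso
    subst hj
    have hi : i0 ≠ i1 := by
      intro h; subst h; exact hne rfl
    have h3 : i0 * z = i1 * z + d := by omega
    have hlt : i1 < i0 := by
      by_contra h
      push Not at h
      have hlt2 : i0 < i1 := lt_of_le_of_ne h hi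
      have e1 : (i0 + 1) * z ≤ i1 * z := Nat.mul_le_mul_right _ hlt2
      have e2 : (i0 + 1) * z = i0 * z + z := by ring
      omega
    have e1 : (i1 + 1) * z ≤ i0 * z := Nat.mul_le_mul_right _ hlt
    have e2 : (i1 + 1) * z = i1 * z + z := by ring
    omega
  · -- j1 < j0
    have hi : i0 < i1 := by
      by_contra h
      push Not at h
      have e1 : i1 * z ≤ i0 * z := Nat.mul_le_mul_right _ h
      have e2 : (j1 + 1) * w ≤ j0 * w := Nat.mul_le_mul_right _ hj
      have e3 : (j1 + 1) * w = j1 * w + w := by ring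
      omega
    have e3 : (j0 - j1) * w = (i1 - i0) * z + d := by
      zify [hi.le, hj.le] at heq ⊢
      linarith
    refine ⟨j0 - j1, i1 - i0, (d : ℤ), by omega, ?_, by omega, ?_, by simpa using hd⟩
    · by_contra h
      push Not at h
      have e1 : (i1 - i0 + 1) * w ≤ (j0 - j1) * w := Nat.mul_le_mul_right _ (by omega)
      have e2 : (i1 - i0 + 1) * w = (i1 - i0) * w + w := by ring
      have e4 : (i1 - i0) * z ≤ (i1 - i0) * w := Nat.mul_le_mul_left _ hzw
      omega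
    · push_cast [Nat.cast_sub hj.le, Nat.cast_sub hi.le]
      zify at heq
      linarith

end Pool.Agent.MP_09c87f_nt
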