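import Pool.Agent.MP_09c87f_nt.Fin1

open Polynomial

namespace Pool.Agent.MP_09c87f_nt

/-- the bound produced by elimination -/
def EB (S K : ℕ) : ℕ :=
  (((2 * S * S + 1) * (2 * S) + (2 * S * S + S + 1)) * K) ^
        ((2 * S * S + 1) * (2 * S) + (2 * S * S + S + 1))

lemma bm_comp {R S T : Type*} [CommRing R] [CommRing S] [CommRing T] (f : R →+* S) (g : S →+* T)
    (F : R[X][X]) : bm g (bm f F) = bm (g.comp f) F := by
  ext i j
  rw [bm_coeff, bm_coeff, bm_coeff]
  rfl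

theorem G2 (a b c x y z u v w : ℕ) (ha : 2 ≤ a) (hb : 2 ≤ b) (hc : 2 ≤ c)
    (hx : 1 ≤ x) (hy : 1 ≤ y) (hu : 1 ≤ u) (hv : 1 ≤ v) (hab : a.Coprime b) (hac : a.Coprime c)
    (h1 : a ^ x + b ^ y = c ^ z) (h2 : a ^ u + b ^ v = c ^ w)
    (hdA : c ^ z ≤ 2 * a ^ x) (hdB : c ^ w ≤ 2 * b ^ v)
    (m n : ℕ) (hm : 1 ≤ m) (hmn : m ≤ n) (k : ℤ) (hk : (m : ℤ) * w - n * z = k)
    (hA : n * y < m * v) (hB : m * u < n * x)
    (T K1 S : ℕ) (hT : T = n * (16 * (2 * (x * v) + u * y)) / m + 16 * (2 * (x * v) + u * y))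
    (hK1 : K1 = HH T T) (hS : S = T + n * (x * v))
    (K2 : ℕ) (hK2 : K2 = K1 + c ^ (k.natAbs * (x * v)) * 2 ^ (n * (x * v)) * 2)
    (hs : ((u * (m * v - n * y) : ℕ) : ℝ) /
      ((u * (m * v - n * y) : ℕ) + (v * (n * x - m * u) : ℕ)) < (a : ℝ) ^ x / (c : ℝ) ^ z)
    (ht : (a : ℝ) ^ u / (c : ℝ) ^ w < ((x * (m * v - n * y) : ℕ) : ℝ) /
      ((x * (m * v - n * y) : ℕ) + (y * (n * x - m * u) : ℕ)))
    (hα : ¬ Real.log c * (z / (m * x * v)) ≤
      Real.log (MM T T K1) + |(k : ℝ)| * Real.log c * ((y * T + v * T) + (T + T * y) + T) +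
        ((x * T + u * T) + (y * T + v * T)) * Real.log 2)
    (hβ : ¬ c ^ z ≤ EB S K2) : False := by
  have hn : 1 ≤ n := hm.trans hmn
  obtain ⟨P, θ0, hP0, hPb, -, hPc, hPd⟩ := EX m n x y u v hm hx hy hu hv hA hB hmn
  obtain ⟨F, θ, hF0, hFb, hFB, hFc, hFd, hirr⟩ := irr_exists (wts m n x y u v) θ0 _ _ P hP0 hPb hPc
    (by omega)
  rw [← hT] at hFb hFB
  rw [← hK1] at hFB
  have hK1pos : 1 ≤ K1 := by rw [hK1, HH]; exact Nat.one_le_pow _ _ (by positivity)
  have hL : 0 < Real.log c := Real.log_pos (by exact_mod_cast (by omega : 1 < c))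
  have hmR : (0 : ℝ) < m := by exact_mod_cast hm
  have hxR : (0 : ℝ) < x := by exact_mod_cast hx
  have hvR : (0 : ℝ) < v := by exact_mod_cast hv
  have hcR : (0 : ℝ) < c := by exact_mod_cast (by omega : 0 < c)
  by_cases hz : (bm (Int.castRingHom ℝ) F).evalEval ((a : ℝ) ^ u / (c : ℝ) ^ w)
      ((a : ℝ) ^ x / (c : ℝ) ^ z) = 0
  · -- the polynomial vanishes at the point
    have hΔ : u * y < x * v := by
      have h3 : (m * u) * (n * y) < (n * x) * (m * v) := Nat.mul_lt_mul'' hB hA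
      have h4 : (m * n) * (u * y) < (m * n) * (x * v) := by
        calc (m * n) * (u * y) = (m * u) * (n * y) := by ring
          _ < (n * x) * (m * v) := h3
          _ = (m * n) * (x * v) := by ring
      exact Nat.lt_of_mul_lt_mul_left h4
    set Δ := x * v - u * y with hΔd
    set A := u * (m * v - n * y) with hAd
    set B := v * (n * x - m * u) with hBd
    set A' := x * (m * v - n * y) with hA'd
    set B' := y * (n * x - m * u) with hB'd
    have hApos : 0 < A := Nat.mul_pos hu (by omega)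
    have hBpos : 0 < B := Nat.mul_pos hv (by omega)
    have hA'pos : 0 < A' := Nat.mul_pos hx (by omega)
    have hB'pos : 0 < B' := Nat.mul_pos hy (by omega)
    have hAB : A + B = n * Δ := by
      rw [hAd, hBd, hΔd]
      zify [hA.le, hB.le, hΔ.le]
      ring
    have hAB' : A' + B' = m * Δ := by
      rw [hA'd, hB'd, hΔd]
      zify [hA.le, hB.le, hΔ.le]
      ring
    have hΔle : Δ ≤ x * v := Nat.sub_le _ _
    set e1 := (-k).toNat * Δ with he1
    set e2 := k.toNat * Δ with he2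
    have hkk : ((k.toNat : ℤ)) - ((-k).toNat : ℤ) = k := by omega
    set E := EZ A B A' B' e1 e2 c with hE
    have hEreal : bm (Int.castRingHom ℝ) E = _ := EZ_real A B A' B' e1 e2 c (by omega)
    have hcurve : (curve A B A' B' ((c : ℝ) ^ e2 / (c : ℝ) ^ e1)).evalEval
        ((a : ℝ) ^ u / (c : ℝ) ^ w) ((a : ℝ) ^ x / (c : ℝ) ^ z) = 0 := by
      rw [curve_evalEval]
      have hs1 : 1 - (a : ℝ) ^ x / (c : ℝ) ^ z = (b : ℝ) ^ y / (c : ℝ) ^ z := by
        have : (a : ℝ) ^ x + (b : ℝ) ^ y = (c : ℝ) ^ z := by exact_mod_cast h1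
        field_simp
        linarith
      have ht1 : 1 - (a : ℝ) ^ u / (c : ℝ) ^ w = (b : ℝ) ^ v / (c : ℝ) ^ w := by
        have : (a : ℝ) ^ u + (b : ℝ) ^ v = (c : ℝ) ^ w := by exact_mod_cast h2
        field_simp
        linarith
      rw [hs1, ht1]
      have hexp : e1 + w * (A' + B') = e2 + z * (A + B) := by
        rw [hAB, hAB', he1, he2]
        zify
        have : (w : ℤ) * (m * Δ) - z * (n * Δ) = k * Δ := by
          rw [← hk]; ring
        linear_combination this - (Δ : ℤ) * hkk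
      have hpw : (c : ℝ) ^ e1 * (c : ℝ) ^ (w * (A' + B')) = (c : ℝ) ^ e2 * (c : ℝ) ^ (z * (A + B)) := by
        rw [← pow_add, ← pow_add, hexp]
      have hxA : x * A = u * A' := by rw [hAd, hA'd]; ring
      have hyB : y * B = v * B' := by rw [hBd, hB'd]; ring
      have q1 : ((a : ℝ) ^ x / (c : ℝ) ^ z) ^ A * ((b : ℝ) ^ y / (c : ℝ) ^ z) ^ B =
          (a : ℝ) ^ (u * A') * (b : ℝ) ^ (v * B') / (c : ℝ) ^ (z * (A + B)) := by
        rw [div_pow, div_pow, ← pow_mul, ← pow_mul, ← pow_mul, ← pow_mul, hxA, hyB, mul_add,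
          pow_add]
        field_simp
      have q2 : ((a : ℝ) ^ u / (c : ℝ) ^ w) ^ A' * ((b : ℝ) ^ v / (c : ℝ) ^ w) ^ B' =
          (a : ℝ) ^ (u * A') * (b : ℝ) ^ (v * B') / (c : ℝ) ^ (w * (A' + B')) := by
        rw [div_pow, div_pow, ← pow_mul, ← pow_mul, ← pow_mul, ← pow_mul, mul_add,
          pow_add]
        field_simp
      rw [q1, q2]
      have hne1 : (c : ℝ) ^ e1 ≠ 0 := pow_ne_zero _ hcR.ne'
      have hne2 : (c : ℝ) ^ (z * (A + B)) ≠ 0 := pow_ne_zero _ hcR.ne'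
      have hne3 : (c : ℝ) ^ (w * (A' + B')) ≠ 0 := pow_ne_zero _ hcR.ne'
      rw [sub_eq_zero, div_mul_div_comm, div_eq_div_iff hne2 (mul_ne_zero hne1 hne3)]
      linear_combination (a : ℝ) ^ (u * A') * (b : ℝ) ^ (v * B') * hpw
    by_cases hdvd : bm (Int.castRingHom ℚ) F ∣ bm (Int.castRingHom ℚ) E
    · -- divides: exclusion
      have hcomp : (algebraMap ℚ ℝ).comp (Int.castRingHom ℚ) = Int.castRingHom ℝ :=
        RingHom.ext_int _ _
      have hdR : bm (Int.castRingHom ℝ) F ∣ bm (Int.castRingHom ℝ) E := by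
        have := map_dvd (bm (algebraMap ℚ ℝ)) hdvd
        rwa [bm_comp, bm_comp, hcomp] at this
      obtain ⟨H0, hH0⟩ := hdR
      have hcne : (c : ℝ) ^ e1 ≠ 0 := pow_ne_zero _ hcR.ne'
      have hFH : bm (Int.castRingHom ℝ) F * (C (C ((c : ℝ) ^ e1)⁻¹) * H0) =
          curve A B A' B' ((c : ℝ) ^ e2 / (c : ℝ) ^ e1) := by
        have h3 : bm (Int.castRingHom ℝ) F * (C (C ((c : ℝ) ^ e1)⁻¹) * H0) =
          C (C ((c : ℝ) ^ e1)⁻¹) * (bm (Int.castRingHom ℝ) F * H0) := by ring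
        rw [h3, ← hH0, hEreal, ← mul_assoc, ← C_mul, ← C_mul, inv_mul_cancel₀ hcne, C_1, C_1,
          one_mul]
      have hspos : (0 : ℝ) < (a : ℝ) ^ u / (c : ℝ) ^ w := by
        have : (0 : ℝ) < a := by exact_mod_cast (by omega : 0 < a)
        positivity
      have hs1 : (a : ℝ) ^ x / (c : ℝ) ^ z < 1 := by
        rw [div_lt_one (by positivity)]
        have : (a : ℝ) ^ x + (b : ℝ) ^ y = (c : ℝ) ^ z := by exact_mod_cast h1
        have hb0 : (0 : ℝ) < b := by exact_mod_cast (by omega : 0 < b)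
        have : (0 : ℝ) < (b : ℝ) ^ y := by positivity
        linarith
      obtain ⟨r, r', i, j, i', j', hr, hr', f0, f1, g0, g1, hle, hunit⟩ :=
        exclusion A B A' B' hApos hBpos hA'pos hB'pos
          (by positivity : 0 < (c : ℝ) ^ e2 / (c : ℝ) ^ e1) (bm (Int.castRingHom ℝ) F) _ hFH
          _ _ hs hs1 hspos ht hz
      have := dlt_le_zero hA (bm (Int.castRingHom ℝ) F) θ (bm_cond _ hFc) hr hr' f0 f1 g0 g1 hle
        hunit
      omega
    · -- coprime: elimination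
      apply hβ
      have hJ1 : 1 ≤ S := by
        rw [hS]
        have : 1 ≤ n * (x * v) := Nat.mul_pos hn (Nat.mul_pos hx hv)
        omega
      have hTS : T ≤ S := by rw [hS]; exact Nat.le_add_right _ _
      have hABS : A + B ≤ S := by
        rw [hAB, hS]
        exact (Nat.mul_le_mul_left n hΔle).trans (Nat.le_add_left _ _)
      have hABS' : A' + B' ≤ S := by
        rw [hAB', hS]
        exact (Nat.mul_le_mul hmn hΔle).trans (Nat.le_add_left _ _)
      have hK12 : K1 ≤ K2 := by rw [hK2]; exact Nat.le_add_right _ _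
      have hEle : c ^ e1 * 2 ^ B + c ^ e2 * 2 ^ B' ≤ K2 := by
        have hBn : B ≤ n * (x * v) := by
          have : B ≤ A + B := Nat.le_add_left _ _
          rw [hAB] at this
          exact this.trans (Nat.mul_le_mul_left n hΔle)
        have hBn' : B' ≤ n * (x * v) := by
          have : B' ≤ A' + B' := Nat.le_add_left _ _
          rw [hAB'] at this
          exact this.trans (Nat.mul_le_mul hmn hΔle)
        have he1' : e1 ≤ k.natAbs * (x * v) := by
          rw [he1]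
          exact Nat.mul_le_mul (by omega) hΔle
        have he2' : e2 ≤ k.natAbs * (x * v) := by
          rw [he2]
          exact Nat.mul_le_mul (by omega) hΔle
        have t1 : c ^ e1 * 2 ^ B ≤ c ^ (k.natAbs * (x * v)) * 2 ^ (n * (x * v)) :=
          Nat.mul_le_mul (Nat.pow_le_pow_right (by omega) he1') (Nat.pow_le_pow_right (by omega) hBn)
        have t2 : c ^ e2 * 2 ^ B' ≤ c ^ (k.natAbs * (x * v)) * 2 ^ (n * (x * v)) :=
          Nat.mul_le_mul (Nat.pow_le_pow_right (by omega) he2') (Nat.pow_le_pow_right (by omega) hBn')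
        rw [hK2]
        omega
      obtain ⟨Q, hQ0, hQs, hQB, U, V, hUV⟩ := elim S S K2 hJ1 (hK1pos.trans hK12) F E hF0
        (hFb.mono hTS hTS) ((EZ_box A B A' B' e1 e2 c).mono hABS hABS')
        (hFB.mono (by exact_mod_cast hK12))
        ((EZ_bd A B A' B' e1 e2 c).mono (by exact_mod_cast hEle)) hirr hdvd
      apply root_bound a c x z hc hac Q (EB S K2) hQ0 hQs hQB ((a : ℝ) ^ u / (c : ℝ) ^ w)
      have h3 := congrArg (fun G => (bm (Int.castRingHom ℝ) G).evalEval
        ((a : ℝ) ^ u / (c : ℝ) ^ w) ((a : ℝ) ^ x / (c : ℝ) ^ z)) hUV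
      simp only [map_add, map_mul, map_zero, evalEval_add, evalEval_mul, evalEval_zero] at h3
      rw [hz, hEreal, evalEval_mul, hcurve, mul_zero, mul_zero, mul_zero, zero_add, zero_add] at h3
      exact h3
  · apply hα
    have h3 := PF_gen a b c x y z u v w ha hb hc hx hv hab h1 h2 hdA hdB m n hm hn k hk hA hB F θ
      T T K1 hK1pos hF0 hFb hFB hFc hz
    refine le_trans ?_ h3
    apply mul_le_mul_of_nonneg_left _ hL.le
    apply div_le_div_of_nonneg_right _ (by positivity)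
    have h4 : (1 : ℝ) ≤ ((θ.dlt : ℤ) : ℝ) := by exact_mod_cast hFd
    have h5 : (0 : ℝ) ≤ z := by positivity
    exact le_mul_of_one_le_right h5 h4

end Pool.Agent.MP_09c87f_nt
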