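import Pool.Agent.MP_09c87f_nt.Small

open Polynomial

namespace Pool.Agent.MP_09c87f_nt

/-- total size measure -/
noncomputable def mu {R : Type*} [CommRing R] (F : R[X][X]) : ℕ :=
  F.natDegree + (Bivariate.swap F).natDegree

lemma swap_ne_zero {R : Type*} [CommRing R] {F : R[X][X]} (hF : F ≠ 0) :
    Bivariate.swap F ≠ 0 := by
  intro h
  apply hF
  rw [← Bivariate.swap_swap_apply F, h, map_zero]

lemma mu_mul {R : Type*} [CommRing R] [IsDomain R] {F G : R[X][X]} (hF : F ≠ 0) (hG : G ≠ 0) :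
    mu (F * G) = mu F + mu G := by
  rw [mu, natDegree_mul hF hG, map_mul, natDegree_mul (swap_ne_zero hF) (swap_ne_zero hG), mu, mu]
  ring

lemma eq_CC_of_mu {R : Type*} [CommRing R] {F : R[X][X]} (h : mu F = 0) :
    ∃ r, F = C (C r) := by
  have h1 : F.natDegree = 0 := by rw [mu] at h; omega
  have h2 : (Bivariate.swap F).natDegree = 0 := by rw [mu] at h; omega
  have hb : Box 0 0 F := ⟨h1.le, h2.le⟩
  refine ⟨(F.coeff 0).coeff 0, ?_⟩
  ext i j
  by_cases h0 : (F.coeff i).coeff j = 0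
  · rw [h0, coeff_C]
    by_cases hi : i = 0
    · by_cases hj : j = 0
      · subst hi; subst hj; simp [h0]
      · simp [hi, coeff_C, hj]
    · simp [hi]
  · obtain ⟨hi, hj⟩ := hb.coeff h0
    have hi' : i = 0 := by omega
    have hj' : j = 0 := by omega
    subst hi'; subst hj'
    simp

lemma dlt_const_le {R : Type*} [CommRing R] (W : Wts) {r : R} (hr : r ≠ 0) :
    (optThr W (C (C r) : R[X][X])).dlt ≤ 0 := by
  have h0 : ((C (C r) : R[X][X]).coeff 0).coeff 0 ≠ 0 := by simpa using hr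
  have a1 := lowW_le (w1 := W.q1) (w2 := W.q2) h0
  have a2 := lowW_le (w1 := W.r1) (w2 := W.r2) h0
  have a3 := lowW_le (w1 := W.u1) (w2 := W.u2) h0
  simp only [Thr.dlt, optThr, t11_CC, t10_CC]
  simp only [mul_zero, add_zero, Nat.le_zero] at a1 a2 a3
  rw [a1, a2, a3]
  omega

lemma HH_mono {I J I' J' : ℕ} (hI : I ≤ I') (hJ : J ≤ J') : HH I J ≤ HH I' J' := by
  rw [HH, HH]
  have h1 : (I + 1) * (J + 1) ≤ (I' + 1) * (J' + 1) :=
    Nat.mul_le_mul (by omega) (by omega)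
  have h2 : (I + 1) * (J + 1) * 2 ^ (I + J) ≤ (I' + 1) * (J' + 1) * 2 ^ (I' + J') :=
    Nat.mul_le_mul h1 (Nat.pow_le_pow_right (by norm_num) (by omega))
  calc _ ≤ ((I' + 1) * (J' + 1) * 2 ^ (I' + J')) ^ ((I + 1) * (J + 1)) :=
        Nat.pow_le_pow_left h2 _
    _ ≤ _ := by
        apply Nat.pow_le_pow_right _ h1
        positivity

lemma Bd.mono {K K' : ℤ} {P : ℤ[X][X]} (h : Bd K P) (hK : K ≤ K') : Bd K' P :=
  fun i j => (h i j).trans hK

theorem irr_exists (W : Wts) (θ0 : Thr) (I J : ℕ) (P : ℤ[X][X]) (hP : P ≠ 0)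
    (hPb : Box I J P) (hPc : Cond W θ0 P) (hd : 1 ≤ θ0.dlt) :
    ∃ (F : ℤ[X][X]) (θ : Thr), F ≠ 0 ∧ Box (I + J) (I + J) F ∧
      Bd (HH (I + J) (I + J)) F ∧ Cond W θ F ∧ 1 ≤ θ.dlt ∧
      Irreducible (bm (Int.castRingHom ℚ) F) := by
  classical
  have hcast : Function.Injective (Int.castRingHom ℚ) := Int.cast_injective
  let S : Set ℚ[X][X] := {G | G ≠ 0 ∧ 1 ≤ (optThr W G).dlt}
  have hPS : bm (Int.castRingHom ℚ) P ∈ S :=
    ⟨bm_ne_zero hcast hP, hd.trans (dlt_le_opt (bm_ne_zero hcast hP) (bm_cond _ hPc))⟩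
  have hex : ∃ n, ∃ G ∈ S, mu G = n := ⟨_, _, hPS, rfl⟩
  obtain ⟨G, hGS, hGd⟩ := Nat.find_spec hex
  have hmin : ∀ G' ∈ S, mu G ≤ mu G' := by
    intro G' hG'
    rw [hGd]
    exact Nat.find_min' hex ⟨G', hG', rfl⟩
  have hGI : mu G ≤ I + J := by
    refine (hmin _ hPS).trans ?_
    have := bm_box (Int.castRingHom ℚ) hPb
    rw [mu]
    exact add_le_add this.1 this.2
  have hGbox : Box G.natDegree (Bivariate.swap G).natDegree G := ⟨le_refl _, le_refl _⟩
  obtain ⟨F, hF0, hFb, hFB, hFc⟩ := exists_small_of_rat W (optThr W G) _ _ G hGS.1 hGbox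
    (cond_opt W G)
  have hI' : G.natDegree ≤ I + J := by rw [mu] at hGI; omega
  have hJ' : (Bivariate.swap G).natDegree ≤ I + J := by rw [mu] at hGI; omega
  set Fq := bm (Int.castRingHom ℚ) F with hFq
  have hFq0 : Fq ≠ 0 := bm_ne_zero hcast hF0
  have hFqS : Fq ∈ S := ⟨hFq0, hGS.2.trans (dlt_le_opt hFq0 (bm_cond _ hFc))⟩
  have hmuF : mu Fq ≤ mu G := by
    have := bm_box (Int.castRingHom ℚ) hFb
    rw [mu, mu]
    exact add_le_add this.1 this.2
  refine ⟨F, optThr W G, hF0, hFb.mono hI' hJ', hFB.mono ?_, hFc, hGS.2, ?_⟩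
  · exact_mod_cast HH_mono hI' hJ'
  · have unit_of_mu : ∀ B : ℚ[X][X], B ≠ 0 → mu B = 0 → IsUnit B := by
      intro B hB0 hB
      obtain ⟨r, rfl⟩ := eq_CC_of_mu hB
      have hr : r ≠ 0 := by
        rintro rfl
        simp at hB0
      exact Polynomial.isUnit_C.2 (Polynomial.isUnit_C.2 (isUnit_iff_ne_zero.2 hr))
    constructor
    · intro hu
      obtain ⟨a, ha, haF⟩ := Polynomial.isUnit_iff.1 hu
      obtain ⟨r, hr, hra⟩ := Polynomial.isUnit_iff.1 ha
      have h1 := hFqS.2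
      rw [hFq, ← haF, ← hra] at h1
      have h2 := dlt_const_le W hr.ne_zero
      omega
    · intro A B hAB
      have hA0 : A ≠ 0 := by rintro rfl; rw [zero_mul] at hAB; exact hFq0 hAB
      have hB0 : B ≠ 0 := by rintro rfl; rw [mul_zero] at hAB; exact hFq0 hAB
      have hd := hFqS.2
      rw [hFq, hAB, optThr_mul W hA0 hB0] at hd
      have hm : mu A + mu B ≤ mu G := by rw [← mu_mul hA0 hB0, ← hAB]; exact hmuF
      by_cases hA1 : 1 ≤ (optThr W A).dlt
      · right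
        have := hmin A ⟨hA0, hA1⟩
        exact unit_of_mu B hB0 (by omega)
      · left
        have := hmin B ⟨hB0, by omega⟩
        exact unit_of_mu A hA0 (by omega)

end Pool.Agent.MP_09c87f_nt
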