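import Pool.Agent.MP_09c87f_nt.G1

/-! Numerical bounds. -/

namespace Pool.Agent.MP_09c87f_nt

lemma HH_le (T : ℕ) : HH T T ≤ 2 ^ (4 * T * (T + 1) ^ 2) := by
  have h : T + 1 ≤ 2 ^ T := Nat.lt_two_pow_self
  rw [HH]
  calc ((T + 1) * (T + 1) * 2 ^ (T + T)) ^ ((T + 1) * (T + 1))
      ≤ (2 ^ T * 2 ^ T * 2 ^ (T + T)) ^ ((T + 1) * (T + 1)) := by gcongr
    _ = 2 ^ (4 * T * (T + 1) ^ 2) := by
        rw [← pow_add, ← pow_add, ← pow_mul]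
        congr 1
        ring

lemma MM_le (T K : ℕ) : MM T T K ≤ K * 2 ^ (5 * T) := by
  have h : T + 1 ≤ 2 ^ T := Nat.lt_two_pow_self
  rw [MM]
  calc (T + 1) * (T + 1) * ((T + 1) * (T + 1) * (K * 2 ^ T))
      ≤ 2 ^ T * 2 ^ T * (2 ^ T * 2 ^ T * (K * 2 ^ T)) := by gcongr
    _ = K * 2 ^ (5 * T) := by
        have : 5 * T = T + T + T + T + T := by ring
        rw [this]
        simp only [pow_add]
        ring

lemma HH_le' {T : ℕ} {N j : ℕ} (hN : 4 ≤ N) (hT : T + 1 ≤ N ^ j) :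
    HH T T ≤ 2 ^ (N ^ (3 * j + 1)) := by
  refine (HH_le T).trans (Nat.pow_le_pow_right (by norm_num) ?_)
  calc 4 * T * (T + 1) ^ 2 ≤ N * N ^ j * (N ^ j) ^ 2 := by
        gcongr
        omega
    _ = N ^ (3 * j + 1) := by ring

lemma MM_le' {T K : ℕ} {N j p : ℕ} (hN : 6 ≤ N) (hT : T + 1 ≤ N ^ j) (hjp : j ≤ p)
    (hK : K ≤ 2 ^ (N ^ p)) : MM T T K ≤ 2 ^ (N ^ (p + 1)) := by
  refine (MM_le T K).trans ?_
  calc K * 2 ^ (5 * T) ≤ 2 ^ (N ^ p) * 2 ^ (5 * N ^ p) := by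
        gcongr
        · norm_num
        · have : N ^ j ≤ N ^ p := Nat.pow_le_pow_right (by omega) hjp
          omega
    _ = 2 ^ (6 * N ^ p) := by rw [← pow_add]; congr 1; ring
    _ ≤ 2 ^ (N ^ (p + 1)) := by
        apply Nat.pow_le_pow_right (by norm_num)
        rw [pow_succ, mul_comm (N ^ p)]
        exact Nat.mul_le_mul_right _ hN

lemma absorb {N k p q : ℕ} (hN : k ≤ N) (hpq : p + 1 ≤ q) (hN1 : 1 ≤ N) : k * N ^ p ≤ N ^ q := by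
  calc k * N ^ p ≤ N * N ^ p := Nat.mul_le_mul_right _ hN
    _ = N ^ (p + 1) := by ring
    _ ≤ N ^ q := Nat.pow_le_pow_right hN1 hpq

lemma T0_le {N : ℕ} (hN : 2 ^ 20 ≤ N) : 48 * N ^ 3 + 1 ≤ N ^ 4 := by
  have h1 : 1 ≤ N ^ 3 := Nat.one_le_pow _ _ (by omega)
  calc 48 * N ^ 3 + 1 ≤ 49 * N ^ 3 := by omega
    _ ≤ N ^ 4 := absorb (by omega) (by norm_num) (by omega)

lemma T1_le {N : ℕ} (hN : 2 ^ 20 ≤ N) : 48 * N ^ 2 * (48 * N ^ 3 + 1) + 1 ≤ N ^ 6 := by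
  have h1 : 1 ≤ N ^ 3 := Nat.one_le_pow _ _ (by omega)
  have h2 : 1 ≤ N ^ 5 := Nat.one_le_pow _ _ (by omega)
  calc 48 * N ^ 2 * (48 * N ^ 3 + 1) + 1 ≤ 48 * N ^ 2 * (49 * N ^ 3) + N ^ 5 := by
        gcongr
        omega
    _ = 2353 * N ^ 5 := by ring
    _ ≤ N ^ 6 := absorb (by omega) (by norm_num) (by omega)

lemma EB_le {N S K : ℕ} (hN : 2 ^ 20 ≤ N) (hS : 2 * S ≤ N ^ 7) (hK : K ≤ 2 ^ (N ^ 20)) :
    EB S K ≤ 2 ^ (N ^ 45) := by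
  have hN1 : 1 ≤ N := by omega
  have hQ : (2 * S * S + 1) * (2 * S) + (2 * S * S + S + 1) ≤ N ^ 22 := by
    have e1 : 2 * S * S ≤ N ^ 14 := by
      calc 2 * S * S ≤ N ^ 7 * (2 * S) := by
            apply Nat.mul_le_mul hS; omega
        _ ≤ N ^ 7 * N ^ 7 := Nat.mul_le_mul_left _ hS
        _ = N ^ 14 := by ring
    have e2 : 1 ≤ N ^ 14 := Nat.one_le_pow _ _ hN1
    have e3 : S ≤ N ^ 14 := by
      have : N ^ 7 ≤ N ^ 14 := Nat.pow_le_pow_right hN1 (by norm_num)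
      omega
    have e4 : N ^ 14 ≤ N ^ 21 := Nat.pow_le_pow_right hN1 (by norm_num)
    calc (2 * S * S + 1) * (2 * S) + (2 * S * S + S + 1)
        ≤ (N ^ 14 + N ^ 14) * N ^ 7 + (N ^ 14 + N ^ 14 + N ^ 14) := by gcongr
      _ = 2 * N ^ 21 + 3 * N ^ 14 := by ring
      _ ≤ 5 * N ^ 21 := by omega
      _ ≤ N ^ 22 := absorb (by omega) (by norm_num) hN1
  rw [EB]
  set Q := (2 * S * S + 1) * (2 * S) + (2 * S * S + S + 1) with hQd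
  have hQ1 : 1 ≤ Q := by rw [hQd]; omega
  have hQ2 : Q ≤ 2 ^ (N ^ 22) := hQ.trans Nat.lt_two_pow_self.le
  have hpos : 1 ≤ 2 ^ (N ^ 22) * 2 ^ (N ^ 20) := Nat.mul_pos (by positivity) (by positivity)
  calc (Q * K) ^ Q ≤ (2 ^ (N ^ 22) * 2 ^ (N ^ 20)) ^ Q := by gcongr
    _ ≤ (2 ^ (N ^ 22) * 2 ^ (N ^ 20)) ^ (N ^ 22) := Nat.pow_le_pow_right hpos hQ
    _ = 2 ^ ((N ^ 22 + N ^ 20) * N ^ 22) := by rw [← pow_add, ← pow_mul]
    _ ≤ 2 ^ (N ^ 45) := by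
        apply Nat.pow_le_pow_right (by norm_num)
        have : N ^ 20 ≤ N ^ 22 := Nat.pow_le_pow_right hN1 (by norm_num)
        calc (N ^ 22 + N ^ 20) * N ^ 22 ≤ (N ^ 22 + N ^ 22) * N ^ 22 := by gcongr
          _ = 2 * N ^ 44 := by ring
          _ ≤ N ^ 45 := absorb (by omega) (by norm_num) hN1

end Pool.Agent.MP_09c87f_nt
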