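import Pool.Agent.MP_09c87f_nt.Elim

open Polynomial

namespace Pool.Agent.MP_09c87f_nt

lemma t10_evalEval {R : Type*} [CommRing R] (F : R[X][X]) (s t : R) :
    (t10 F).evalEval t s = F.evalEval t (1 - s) := by
  simp only [t10, coe_compRingHom_apply, evalEval, eval_comp]
  simp

lemma mapc_evalEval {R : Type*} [CommRing R] (F : R[X][X]) (s t : R) :
    (mapRingHom (compRingHom (1 - X)) F).evalEval t s = F.evalEval (1 - t) s := by
  rw [← map_evalRingHom_eval, ← map_evalRingHom_eval, coe_mapRingHom, Polynomial.map_map]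
  congr 2
  apply RingHom.ext
  intro p
  simp

lemma t11_evalEval {R : Type*} [CommRing R] (F : R[X][X]) (s t : R) :
    (t11 F).evalEval t s = F.evalEval (1 - t) (1 - s) := by
  have h : t11 F = mapRingHom (compRingHom (1 - X)) (t10 F) := rfl
  rw [h, mapc_evalEval, t10_evalEval]

/-- support of the transformed polynomial is dominated by the support -/
lemma t11_dom {I J : ℕ} {F : ℤ[X][X]} (hF : Box I J F) {i j : ℕ}
    (h : ((t11 F).coeff i).coeff j ≠ 0) :
    ∃ i' j', (F.coeff i').coeff j' ≠ 0 ∧ i ≤ i' ∧ j ≤ j' := by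
  have h1 := hom_mk t11 t11_CC I J (fun b => (F.coeff b.1.1).coeff b.1.2) i j
  rw [mk_eq hF] at h1
  rw [h1] at h
  obtain ⟨b, -, hb⟩ := Finset.exists_ne_zero_of_sum_ne_zero h
  refine ⟨b.1.1, b.1.2, left_ne_zero_of_mul hb, ?_⟩
  have hbox : Box b.1.1 b.1.2 (mon ℤ b.1) := box_monomial (le_refl _) (le_refl _) _
  exact hbox.t11.coeff (right_ne_zero_of_mul hb)

lemma t10_coeff_bd {I J K : ℕ} {F : ℤ[X][X]} (hF : Box I J F) (hB : Bd K F) :
    Bd (((I + 1) * (J + 1) * (K * 2 ^ I) : ℕ) : ℤ) (t10 F) := by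
  intro i j
  have h1 := hom_mk t10 t10_CC I J (fun b => (F.coeff b.1.1).coeff b.1.2) i j
  rw [mk_eq hF] at h1
  rw [h1]
  refine (Finset.abs_sum_le_sum_abs _ _).trans ?_
  have h2 : ∀ b ∈ (Finset.univ : Finset (bx I J)),
      |(F.coeff b.1.1).coeff b.1.2 * ((t10 (mon ℤ b)).coeff i).coeff j| ≤
        ((K * 2 ^ I : ℕ) : ℤ) := by
    intro b _
    rw [abs_mul]
    push_cast
    apply mul_le_mul (hB _ _) _ (abs_nonneg _) (by positivity)
    refine (bd_t10_monomial _ _ _ _).trans ?_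
    exact pow_le_pow_right₀ (by norm_num) (mem_bx.1 b.2).1
  refine (Finset.sum_le_card_nsmul _ _ _ h2).trans ?_
  rw [Finset.card_univ, Fintype.card_coe, card_bx]
  simp

/-- The integral form of evaluating at `(a^x/c^z, a^u/c^w)`. -/
lemma int_form {I J W : ℕ} (G : ℤ[X][X]) (hG : Box I J G) (b c y z v w : ℕ) (hc : 0 < c)
    (hT : ∀ i j, (G.coeff i).coeff j ≠ 0 → i * z + j * w ≤ W)
    (τ : ℕ) (hτ : ∀ i j, (G.coeff i).coeff j ≠ 0 → τ ≤ y * i + v * j) :
    ∃ N : ℤ, ((N : ℤ) : ℝ) = (c : ℝ) ^ W *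
      (bm (Int.castRingHom ℝ) G).evalEval ((b : ℝ) ^ v / (c : ℝ) ^ w) ((b : ℝ) ^ y / (c : ℝ) ^ z) ∧
      ((b : ℤ) ^ τ ∣ N) := by
  refine ⟨∑ i ∈ Finset.range (I + 1), ∑ j ∈ Finset.range (J + 1),
    (G.coeff i).coeff j * (b : ℤ) ^ (y * i + v * j) * (c : ℤ) ^ (W - (i * z + j * w)), ?_, ?_⟩
  · rw [box_evalEval (bm_box _ hG)]
    push_cast
    rw [Finset.mul_sum]
    apply Finset.sum_congr rfl
    intro i _
    rw [Finset.mul_sum]
    apply Finset.sum_congr rfl
    intro j _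
    rw [bm_coeff]
    simp only [eq_intCast]
    by_cases h0 : (G.coeff i).coeff j = 0
    · rw [h0]; simp
    · have h1 := hT i j h0
      have hcR : (c : ℝ) ≠ 0 := by exact_mod_cast hc.ne'
      have h2 : (c : ℝ) ^ W = (c : ℝ) ^ (W - (i * z + j * w)) * ((c : ℝ) ^ (i * z) * (c : ℝ) ^ (j * w)) := by
        rw [← pow_add, ← pow_add, Nat.sub_add_cancel h1]
      rw [h2, div_pow, div_pow, ← pow_mul, ← pow_mul, ← pow_mul, ← pow_mul, pow_add,
        mul_comm z i, mul_comm w j]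
      field_simp
  · apply Finset.dvd_sum
    intro i _
    apply Finset.dvd_sum
    intro j _
    by_cases h0 : (G.coeff i).coeff j = 0
    · rw [h0]; simp
    · have h1 := hτ i j h0
      apply Dvd.dvd.mul_right
      apply Dvd.dvd.mul_left
      exact pow_dvd_pow _ h1

end Pool.Agent.MP_09c87f_nt
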