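import Pool.Agent.MP_09c87f_nt.PF

open Polynomial

namespace Pool.Agent.MP_09c87f_nt

theorem prod_formula (a b c x y z u v w : ℕ) (ha : 2 ≤ a) (hb : 2 ≤ b) (hc : 2 ≤ c)
    (hx : 1 ≤ x) (hv : 1 ≤ v) (hab : a.Coprime b)
    (h1 : a ^ x + b ^ y = c ^ z) (h2 : a ^ u + b ^ v = c ^ w)
    (hdA : c ^ z ≤ 2 * a ^ x) (hdB : c ^ w ≤ 2 * b ^ v)
    (F : ℤ[X][X]) (I J K : ℕ) (hK : 1 ≤ K) (hFb : Box I J F) (hFB : Bd K F)
    (W τ3 τ4 : ℕ) (ω : ℝ)
    (hT : ∀ i j, (F.coeff i).coeff j ≠ 0 → i * z + j * w ≤ W)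
    (h0 : ∀ i j, (F.coeff i).coeff j ≠ 0 → τ3 ≤ x * i + u * j)
    (h11 : ∀ i j, ((t11 F).coeff i).coeff j ≠ 0 → τ4 ≤ y * i + v * j)
    (h10 : ∀ i j, ((t10 F).coeff i).coeff j ≠ 0 →
      ω ≤ i * (((z : ℝ) * v - w * y) / v) + j * (((w : ℝ) * x - z * u) / x))
    (hne : (bm (Int.castRingHom ℝ) F).evalEval ((a : ℝ) ^ u / (c : ℝ) ^ w)
      ((a : ℝ) ^ x / (c : ℝ) ^ z) ≠ 0) :
    Real.log c * (τ3 * z / x + τ4 * w / v + ω - W) ≤
      Real.log (((I + 1) * (J + 1) * ((I + 1) * (J + 1) * (K * 2 ^ I)) : ℕ)) +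
        (τ3 / x + τ4 / v) * Real.log 2 := by
  have haR : (0 : ℝ) < a := by exact_mod_cast (by omega : 0 < a)
  have hbR : (0 : ℝ) < b := by exact_mod_cast (by omega : 0 < b)
  have hcR : (0 : ℝ) < c := by exact_mod_cast (by omega : 0 < c)
  have hxR : (0 : ℝ) < x := by exact_mod_cast hx
  have hvR : (0 : ℝ) < v := by exact_mod_cast hv
  set s0 : ℝ := (a : ℝ) ^ x / (c : ℝ) ^ z with hs0
  set t0 : ℝ := (a : ℝ) ^ u / (c : ℝ) ^ w with ht0
  have hs1 : 1 - s0 = (b : ℝ) ^ y / (c : ℝ) ^ z := by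
    rw [hs0]
    have : (a : ℝ) ^ x + (b : ℝ) ^ y = (c : ℝ) ^ z := by exact_mod_cast h1
    rw [← this]
    have : (a : ℝ) ^ x + (b : ℝ) ^ y ≠ 0 := by positivity
    field_simp
    ring
  have ht1 : 1 - t0 = (b : ℝ) ^ v / (c : ℝ) ^ w := by
    rw [ht0]
    have : (a : ℝ) ^ u + (b : ℝ) ^ v = (c : ℝ) ^ w := by exact_mod_cast h2
    rw [← this]
    have : (a : ℝ) ^ u + (b : ℝ) ^ v ≠ 0 := by positivity
    field_simp
    ring
  -- integrality
  obtain ⟨N, hN, hNa⟩ := int_form F hFb a c x z u w (by omega) hT τ3 h0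
  obtain ⟨N', hN', hNb⟩ := int_form (t11 F) hFb.t11 b c y z v w (by omega) (by
    intro i j hij
    obtain ⟨i', j', h', hi, hj⟩ := t11_dom hFb hij
    exact (add_le_add (Nat.mul_le_mul_right _ hi) (Nat.mul_le_mul_right _ hj)).trans (hT i' j' h'))
    τ4 h11
  have hNN : N = N' := by
    have : ((N : ℤ) : ℝ) = ((N' : ℤ) : ℝ) := by
      rw [hN, hN', bm_t11, t11_evalEval, ← hs1, ← ht1, sub_sub_cancel, sub_sub_cancel]
    exact_mod_cast this
  rw [← hNN] at hNb
  have hdvd : (a : ℤ) ^ τ3 * (b : ℤ) ^ τ4 ∣ N := by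
    apply IsCoprime.mul_dvd _ hNa hNb
    apply IsCoprime.pow
    exact Nat.isCoprime_iff_coprime.2 hab
  have hN0 : N ≠ 0 := by
    intro h
    rw [h] at hN
    have : (c : ℝ) ^ W * (bm (Int.castRingHom ℝ) F).evalEval t0 s0 = 0 := by
      rw [← hN]; simp
    rcases mul_eq_zero.1 this with h | h
    · exact absurd h (by positivity)
    · exact hne h
  have hlow : (a : ℝ) ^ τ3 * (b : ℝ) ^ τ4 ≤ (c : ℝ) ^ W *
      |(bm (Int.castRingHom ℝ) F).evalEval t0 s0| := by
    have h3 := Int.le_of_dvd (abs_pos.2 hN0) ((dvd_abs _ _).2 hdvd)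
    have h4 : ((a : ℝ) ^ τ3 * (b : ℝ) ^ τ4) ≤ |((N : ℤ) : ℝ)| := by exact_mod_cast h3
    rw [hN, abs_mul, abs_of_pos (by positivity : (0 : ℝ) < (c : ℝ) ^ W)] at h4
    exact h4
  -- upper bound
  have hL : 0 < Real.log c := Real.log_pos (by exact_mod_cast (by omega : 1 < c))
  have hup : |(bm (Int.castRingHom ℝ) F).evalEval t0 s0| ≤
      (((I + 1) * (J + 1) * ((I + 1) * (J + 1) * (K * 2 ^ I)) : ℕ) : ℝ) *
        Real.exp (-(ω * Real.log c)) := by
    have e1 : (bm (Int.castRingHom ℝ) F).evalEval t0 s0 =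
        (bm (Int.castRingHom ℝ) (t10 F)).evalEval t0 (1 - s0) := by
      rw [bm_t10, t10_evalEval, sub_sub_cancel]
    rw [e1, box_evalEval (bm_box _ hFb.t10)]
    have hs1pos : 0 < 1 - s0 := by rw [hs1]; positivity
    have ht0pos : 0 < t0 := by rw [ht0]; positivity
    have l1 : Real.log (1 - s0) ≤ -(((z : ℝ) * v - w * y) / v) * Real.log c := by
      rw [hs1, Real.log_div (by positivity) (by positivity), Real.log_pow, Real.log_pow]
      have h5 : (b : ℝ) ^ v ≤ (c : ℝ) ^ w := by
        have : b ^ v ≤ c ^ w := by rw [← h2]; exact Nat.le_add_left _ _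
        exact_mod_cast this
      have h6 := Real.log_le_log (by positivity) h5
      rw [Real.log_pow, Real.log_pow] at h6
      have h7 : Real.log b ≤ w * Real.log c / v := by
        rw [le_div_iff₀ hvR]; linarith
      have h8 := mul_le_mul_of_nonneg_left h7 (Nat.cast_nonneg y : (0 : ℝ) ≤ y)
      have h9 : -(((z : ℝ) * v - w * y) / v) * Real.log c =
          y * (w * Real.log c / v) - z * Real.log c := by
        field_simp
        ring
      rw [h9]
      linarith
    have l2 : Real.log t0 ≤ -(((w : ℝ) * x - z * u) / x) * Real.log c := by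
      rw [ht0, Real.log_div (by positivity) (by positivity), Real.log_pow, Real.log_pow]
      have h5 : (a : ℝ) ^ x ≤ (c : ℝ) ^ z := by
        have : a ^ x ≤ c ^ z := by rw [← h1]; exact Nat.le_add_right _ _
        exact_mod_cast this
      have h6 := Real.log_le_log (by positivity) h5
      rw [Real.log_pow, Real.log_pow] at h6
      have h7 : Real.log a ≤ z * Real.log c / x := by
        rw [le_div_iff₀ hxR]; linarith
      have h8 := mul_le_mul_of_nonneg_left h7 (Nat.cast_nonneg u : (0 : ℝ) ≤ u)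
      have h9 : -(((w : ℝ) * x - z * u) / x) * Real.log c =
          u * (z * Real.log c / x) - w * Real.log c := by
        field_simp
        ring
      rw [h9]
      linarith
    have hterm : ∀ i ∈ Finset.range (I + 1), ∀ j ∈ Finset.range (J + 1),
        |((bm (Int.castRingHom ℝ) (t10 F)).coeff i).coeff j * (1 - s0) ^ i * t0 ^ j| ≤
          (((I + 1) * (J + 1) * (K * 2 ^ I) : ℕ) : ℝ) * Real.exp (-(ω * Real.log c)) := by
      intro i _ j _
      rw [bm_coeff]
      simp only [eq_intCast]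
      by_cases hz : ((t10 F).coeff i).coeff j = 0
      · rw [hz]
        simp only [Int.cast_zero, zero_mul, abs_zero]
        positivity
      · rw [mul_assoc, abs_mul]
        have b1 : |((((t10 F).coeff i).coeff j : ℤ) : ℝ)| ≤
            (((I + 1) * (J + 1) * (K * 2 ^ I) : ℕ) : ℝ) := by
          exact_mod_cast t10_coeff_bd hFb hFB i j
        have b2 : |(1 - s0) ^ i * t0 ^ j| ≤ Real.exp (-(ω * Real.log c)) := by
          rw [abs_of_pos (by positivity)]
          rw [← Real.log_le_log_iff (by positivity) (Real.exp_pos _), Real.log_exp,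
            Real.log_mul (by positivity) (by positivity), Real.log_pow, Real.log_pow]
          have m1 := mul_le_mul_of_nonneg_left l1 (Nat.cast_nonneg i : (0 : ℝ) ≤ i)
          have m2 := mul_le_mul_of_nonneg_left l2 (Nat.cast_nonneg j : (0 : ℝ) ≤ j)
          have m3 := mul_le_mul_of_nonneg_right (h10 i j hz) hL.le
          have m4 : (↑i * (((z : ℝ) * v - w * y) / v) + ↑j * (((w : ℝ) * x - z * u) / x)) *
              Real.log c = - (i * (-(((z : ℝ) * v - w * y) / v) * Real.log c)) -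
                (j * (-(((w : ℝ) * x - z * u) / x) * Real.log c)) := by ring
          rw [m4] at m3
          linarith
        exact mul_le_mul b1 b2 (abs_nonneg _) (by positivity)
    calc _ ≤ ∑ i ∈ Finset.range (I + 1), ∑ j ∈ Finset.range (J + 1),
          |((bm (Int.castRingHom ℝ) (t10 F)).coeff i).coeff j * (1 - s0) ^ i * t0 ^ j| := by
          refine (Finset.abs_sum_le_sum_abs _ _).trans ?_
          apply Finset.sum_le_sum
          intro i _
          exact Finset.abs_sum_le_sum_abs _ _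
      _ ≤ ∑ i ∈ Finset.range (I + 1), ∑ j ∈ Finset.range (J + 1),
          (((I + 1) * (J + 1) * (K * 2 ^ I) : ℕ) : ℝ) * Real.exp (-(ω * Real.log c)) :=
          Finset.sum_le_sum (fun i hi => Finset.sum_le_sum (fun j hj => hterm i hi j hj))
      _ = _ := by
          simp only [Finset.sum_const, Finset.card_range, nsmul_eq_mul]
          push_cast
          ring
  -- combine
  set M : ℕ := (I + 1) * (J + 1) * ((I + 1) * (J + 1) * (K * 2 ^ I)) with hM
  have hMpos : (0 : ℝ) < (M : ℝ) := by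
    have : 0 < M := by rw [hM]; positivity
    exact_mod_cast this
  have hfin := hlow.trans (mul_le_mul_of_nonneg_left hup (by positivity : (0 : ℝ) ≤ (c : ℝ) ^ W))
  have hlog := Real.log_le_log (by positivity) hfin
  rw [Real.log_mul (by positivity) (by positivity), Real.log_pow, Real.log_pow,
    Real.log_mul (by positivity) (by positivity), Real.log_mul (by positivity) (by positivity),
    Real.log_pow, Real.log_exp] at hlog
  have la : (z * Real.log c - Real.log 2) / x ≤ Real.log a := by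
    rw [div_le_iff₀ hxR]
    have : (c : ℝ) ^ z ≤ 2 * (a : ℝ) ^ x := by exact_mod_cast hdA
    have := Real.log_le_log (by positivity) this
    rw [Real.log_mul (by norm_num) (by positivity), Real.log_pow, Real.log_pow] at this
    linarith
  have lb : (w * Real.log c - Real.log 2) / v ≤ Real.log b := by
    rw [div_le_iff₀ hvR]
    have : (c : ℝ) ^ w ≤ 2 * (b : ℝ) ^ v := by exact_mod_cast hdB
    have := Real.log_le_log (by positivity) this
    rw [Real.log_mul (by norm_num) (by positivity), Real.log_pow, Real.log_pow] at this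
    linarith
  have ma := mul_le_mul_of_nonneg_left la (Nat.cast_nonneg τ3 : (0 : ℝ) ≤ τ3)
  have mb := mul_le_mul_of_nonneg_left lb (Nat.cast_nonneg τ4 : (0 : ℝ) ≤ τ4)
  have ea : (τ3 : ℝ) * ((z * Real.log c - Real.log 2) / x) =
      Real.log c * (τ3 * z / x) - τ3 / x * Real.log 2 := by ring
  have eb : (τ4 : ℝ) * ((w * Real.log c - Real.log 2) / v) =
      Real.log c * (τ4 * w / v) - τ4 / v * Real.log 2 := by ring
  rw [ea] at ma
  rw [eb] at mb
  linarith

end Pool.Agent.MP_09c87f_nt
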