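import Pool.Agent.MP_09c87f_nt.PF2
import Pool.Agent.MP_09c87f_nt.EX

open Polynomial

namespace Pool.Agent.MP_09c87f_nt

/-- the constant of the product formula -/
def MM (I J K : ℕ) : ℕ := (I + 1) * (J + 1) * ((I + 1) * (J + 1) * (K * 2 ^ I))

theorem PF_gen (a b c x y z u v w : ℕ) (ha : 2 ≤ a) (hb : 2 ≤ b) (hc : 2 ≤ c)
    (hx : 1 ≤ x) (hv : 1 ≤ v) (hab : a.Coprime b)
    (h1 : a ^ x + b ^ y = c ^ z) (h2 : a ^ u + b ^ v = c ^ w)
    (hdA : c ^ z ≤ 2 * a ^ x) (hdB : c ^ w ≤ 2 * b ^ v)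
    (m n : ℕ) (hm : 1 ≤ m) (hn : 1 ≤ n) (k : ℤ) (hk : (m : ℤ) * w - n * z = k)
    (hA : n * y < m * v) (hB : m * u < n * x)
    (F : ℤ[X][X]) (θ : Thr) (I J K : ℕ) (hK : 1 ≤ K) (hF0 : F ≠ 0) (hFb : Box I J F)
    (hFB : Bd K F) (hcond : Cond (wts m n x y u v) θ F)
    (hne : (bm (Int.castRingHom ℝ) F).evalEval ((a : ℝ) ^ u / (c : ℝ) ^ w)
      ((a : ℝ) ^ x / (c : ℝ) ^ z) ≠ 0) :
    Real.log c * (z * θ.dlt / (m * x * v)) ≤
      Real.log (MM I J K) + |(k : ℝ)| * Real.log c * ((y * I + v * J) + (J + I * y) + J) +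
        ((x * I + u * J) + (y * I + v * J)) * Real.log 2 := by
  obtain ⟨c1, c2, c3, c4⟩ := hcond
  simp only [wts] at c1 c2 c3 c4
  have hmR : (1 : ℝ) ≤ m := by exact_mod_cast hm
  have hnR : (1 : ℝ) ≤ n := by exact_mod_cast hn
  have hxR : (1 : ℝ) ≤ x := by exact_mod_cast hx
  have hvR : (1 : ℝ) ≤ v := by exact_mod_cast hv
  have hm0 : (0 : ℝ) < m := by linarith
  have hn0 : (0 : ℝ) < n := by linarith
  have hx0 : (0 : ℝ) < x := by linarith
  have hv0 : (0 : ℝ) < v := by linarith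
  have hkR : (m : ℝ) * w - n * z = k := by exact_mod_cast hk
  have hL : 0 < Real.log c := Real.log_pos (by exact_mod_cast (by omega : 1 < c))
  have hk0 : 0 ≤ |(k : ℝ)| := abs_nonneg _
  have hkle : (k : ℝ) ≤ |(k : ℝ)| := le_abs_self _
  have hkge : -|(k : ℝ)| ≤ (k : ℝ) := neg_abs_le _
  set W := ⌊((z : ℝ) * θ.VT / (x * v) + J * |(k : ℝ)|) / m⌋₊ with hW
  set τ3 := ⌈(θ.V0 : ℝ) / (m * v)⌉₊ with hτ3
  set τ4 := ⌈(θ.V1 : ℝ) / (n * x)⌉₊ with hτ4
  set ω : ℝ := (z : ℝ) * θ.VS / (m * x * v) - |(k : ℝ)| * (J + I * y) / m with hω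
  have hT : ∀ i j, (F.coeff i).coeff j ≠ 0 → i * z + j * w ≤ W := by
    intro i j hij
    obtain ⟨hi, hj⟩ := hFb.coeff hij
    have h3 : x * v * m * i + x * v * n * j ≤ θ.VT := by
      by_contra h; push Not at h; exact hij (c1 i j h)
    have h3R : (x : ℝ) * v * m * i + x * v * n * j ≤ θ.VT := by exact_mod_cast h3
    apply Nat.le_floor
    rw [le_div_iff₀ hm0]
    have h4 : (m : ℝ) * i + n * j ≤ θ.VT / (x * v) := by
      rw [le_div_iff₀ (by positivity)]; linarith
    have h5 := mul_le_mul_of_nonneg_left h4 (Nat.cast_nonneg z : (0 : ℝ) ≤ z)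
    have h6 : (j : ℝ) * k ≤ J * |(k : ℝ)| := by
      have : (j : ℝ) ≤ J := by exact_mod_cast hj
      calc (j : ℝ) * k ≤ j * |(k : ℝ)| := mul_le_mul_of_nonneg_left hkle (by positivity)
        _ ≤ _ := mul_le_mul_of_nonneg_right this hk0
    push_cast
    have h7 : ((i : ℝ) * z + j * w) * m = z * (m * i + n * j) + j * k := by
      linear_combination (j : ℝ) * hkR
    rw [h7, mul_div_assoc]
    linarith
  have h0 : ∀ i j, (F.coeff i).coeff j ≠ 0 → τ3 ≤ x * i + u * j := by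
    intro i j hij
    have h3 : θ.V0 ≤ m * v * x * i + m * v * u * j := by
      by_contra h; push Not at h; exact hij (c2 i j h)
    have h3R : (θ.V0 : ℝ) ≤ m * v * x * i + m * v * u * j := by exact_mod_cast h3
    apply Nat.ceil_le.2
    rw [div_le_iff₀ (by positivity)]
    push_cast
    linarith
  have h11 : ∀ i j, ((t11 F).coeff i).coeff j ≠ 0 → τ4 ≤ y * i + v * j := by
    intro i j hij
    have h3 : θ.V1 ≤ n * x * y * i + n * x * v * j := by
      by_contra h; push Not at h; exact hij (c3 i j h)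
    have h3R : (θ.V1 : ℝ) ≤ n * x * y * i + n * x * v * j := by exact_mod_cast h3
    apply Nat.ceil_le.2
    rw [div_le_iff₀ (by positivity)]
    push_cast
    linarith
  have h10 : ∀ i j, ((t10 F).coeff i).coeff j ≠ 0 →
      ω ≤ i * (((z : ℝ) * v - w * y) / v) + j * (((w : ℝ) * x - z * u) / x) := by
    intro i j hij
    obtain ⟨hi, hj⟩ := hFb.t10.coeff hij
    have h3 : θ.VS ≤ x * (m * v - n * y) * i + v * (n * x - m * u) * j := by
      by_contra h; push Not at h; exact hij (c4 i j h)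
    have h3R : (θ.VS : ℝ) ≤ ((x * (m * v - n * y) * i + v * (n * x - m * u) * j : ℕ) : ℝ) := by
      exact_mod_cast h3
    push_cast [Nat.cast_sub hA.le, Nat.cast_sub hB.le] at h3R
    have hiR : (i : ℝ) ≤ I := by exact_mod_cast hi
    have hjR : (j : ℝ) ≤ J := by exact_mod_cast hj
    have e1 : (i : ℝ) * (((z : ℝ) * v - w * y) / v) + j * (((w : ℝ) * x - z * u) / x) =
        z * (x * (m * v - n * y) * i + v * (n * x - m * u) * j) / (m * x * v) +
          k * (j - i * y / v) / m := by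
      rw [← hkR]
      field_simp
      ring
    rw [e1, hω]
    have e2 : (z : ℝ) * θ.VS / (m * x * v) ≤
        z * (x * (m * v - n * y) * i + v * (n * x - m * u) * j) / (m * x * v) := by
      apply div_le_div_of_nonneg_right _ (by positivity)
      exact mul_le_mul_of_nonneg_left h3R (by positivity)
    have e3 : |(j : ℝ) - i * y / v| ≤ J + I * y := by
      have f1 : (i : ℝ) * y / v ≤ I * y := by
        rw [div_le_iff₀ hv0]
        have : (i : ℝ) * y ≤ I * y := mul_le_mul_of_nonneg_right hiR (by positivity)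
        have h9 : (0 : ℝ) ≤ I * y := by positivity
        have h10 : (1 : ℝ) ≤ v := by exact_mod_cast hv
        exact this.trans (le_mul_of_one_le_right h9 h10)
      have f2 : (0 : ℝ) ≤ (i : ℝ) * y / v := by positivity
      have f3 : (0 : ℝ) ≤ j := by positivity
      have f4 : (0 : ℝ) ≤ J := by positivity
      rw [abs_le]
      constructor <;> linarith
    have e4 : -(|(k : ℝ)| * (J + I * y)) ≤ k * (j - i * y / v) := by
      have : |(k : ℝ) * (j - i * y / v)| ≤ |(k : ℝ)| * (J + I * y) := by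
        rw [abs_mul]
        exact mul_le_mul_of_nonneg_left e3 hk0
      exact (abs_le.1 this).1
    have e5 : -(|(k : ℝ)| * (J + I * y) / m) ≤ k * (j - i * y / v) / m := by
      rw [← neg_div]
      exact div_le_div_of_nonneg_right e4 hm0.le
    linarith
  have hmain := prod_formula a b c x y z u v w ha hb hc hx hv hab h1 h2 hdA hdB F I J K hK hFb hFB
    W τ3 τ4 ω hT h0 h11 h10 hne
  -- bounds for τ3 τ4
  have hτ3le : (τ3 : ℝ) ≤ x * I + u * J := by
    obtain ⟨i, j, hij⟩ := (ne_zero_iff_coeff F).1 hF0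
    obtain ⟨hi, hj⟩ := hFb.coeff hij
    have h3 := (h0 i j hij).trans (add_le_add (Nat.mul_le_mul_left x hi) (Nat.mul_le_mul_left u hj))
    exact_mod_cast h3
  have hτ4le : (τ4 : ℝ) ≤ y * I + v * J := by
    obtain ⟨i, j, hij⟩ := (ne_zero_iff_coeff (t11 F)).1 (t11_ne_zero hF0)
    obtain ⟨hi, hj⟩ := hFb.t11.coeff hij
    have h3 := (h11 i j hij).trans (add_le_add (Nat.mul_le_mul_left y hi)
      (Nat.mul_le_mul_left v hj))
    exact_mod_cast h3
  have hτ3ge : (θ.V0 : ℝ) / (m * v) ≤ τ3 := Nat.le_ceil _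
  have hτ4ge : (θ.V1 : ℝ) / (n * x) ≤ τ4 := Nat.le_ceil _
  have hWle : (W : ℝ) ≤ ((z : ℝ) * θ.VT / (x * v) + J * |(k : ℝ)|) / m :=
    Nat.floor_le (by positivity)
  have hz0 : (0 : ℝ) ≤ z := by positivity
  have g1 : (θ.V0 : ℝ) * z / (m * x * v) ≤ τ3 * z / x := by
    have := mul_le_mul_of_nonneg_right hτ3ge (by positivity : (0 : ℝ) ≤ z / x)
    calc _ = (θ.V0 : ℝ) / (m * v) * (z / x) := by field_simp
      _ ≤ _ := this
      _ = _ := by ring
  have g2 : (θ.V1 : ℝ) * z / (m * x * v) - |(k : ℝ)| * (y * I + v * J) ≤ τ4 * w / v := by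
    have e1 : (τ4 : ℝ) * w / v = τ4 * (n * z / (m * v)) + τ4 * k / (m * v) := by
      rw [← hkR]
      field_simp
      ring
    have e2 := mul_le_mul_of_nonneg_right hτ4ge (by positivity : (0 : ℝ) ≤ n * z / (m * v))
    have e3 : (θ.V1 : ℝ) / (n * x) * (n * z / (m * v)) = θ.V1 * z / (m * x * v) := by
      field_simp
    have e4 : -(|(k : ℝ)| * (y * I + v * J)) ≤ τ4 * k / (m * v) := by
      have f1 : |(τ4 : ℝ) * k / (m * v)| ≤ |(k : ℝ)| * (y * I + v * J) := by
        rw [abs_div, abs_mul, abs_of_nonneg (by positivity : (0 : ℝ) ≤ (τ4 : ℝ)),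
          abs_of_pos (by positivity : (0 : ℝ) < (m : ℝ) * v)]
        rw [div_le_iff₀ (by positivity)]
        have f2 : (1 : ℝ) ≤ m * v := by exact_mod_cast Nat.mul_pos hm hv
        have f3 : (0 : ℝ) ≤ |(k : ℝ)| * (y * I + v * J) := by positivity
        calc (τ4 : ℝ) * |(k : ℝ)| ≤ (y * I + v * J) * |(k : ℝ)| :=
              mul_le_mul_of_nonneg_right hτ4le hk0
          _ = |(k : ℝ)| * (y * I + v * J) * 1 := by ring
          _ ≤ _ := mul_le_mul_of_nonneg_left f2 f3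
      exact (abs_le.1 f1).1
    rw [e1]
    linarith
  have g3 : (z : ℝ) * θ.VS / (m * x * v) - |(k : ℝ)| * (J + I * y) ≤ ω := by
    rw [hω]
    have : |(k : ℝ)| * (J + I * y) / m ≤ |(k : ℝ)| * (J + I * y) := by
      apply div_le_self (by positivity) hmR
    linarith
  have g4 : (W : ℝ) ≤ z * θ.VT / (m * x * v) + |(k : ℝ)| * J := by
    refine hWle.trans ?_
    rw [add_div]
    have e1 : (z : ℝ) * θ.VT / (x * v) / m = z * θ.VT / (m * x * v) := by field_simp
    have e2 : (J : ℝ) * |(k : ℝ)| / m ≤ J * |(k : ℝ)| := div_le_self (by positivity) hmR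
    rw [e1]
    linarith
  have g5 : (z : ℝ) * θ.dlt / (m * x * v) - |(k : ℝ)| * ((y * I + v * J) + (J + I * y) + J) ≤
      τ3 * z / x + τ4 * w / v + ω - W := by
    have e1 : (z : ℝ) * θ.dlt / (m * x * v) = (θ.V0 : ℝ) * z / (m * x * v) +
        (θ.V1 : ℝ) * z / (m * x * v) + (z : ℝ) * θ.VS / (m * x * v) -
          z * θ.VT / (m * x * v) := by
      rw [Thr.dlt]
      push_cast
      ring
    rw [e1]
    linarith
  have g6 := mul_le_mul_of_nonneg_left g5 hL.le
  have g7 : (τ3 : ℝ) / x + τ4 / v ≤ (x * I + u * J) + (y * I + v * J) := by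
    have e1 : (τ3 : ℝ) / x ≤ τ3 := div_le_self (by positivity) hxR
    have e2 : (τ4 : ℝ) / v ≤ τ4 := div_le_self (by positivity) hvR
    linarith
  have g8 := mul_le_mul_of_nonneg_right g7 (Real.log_nonneg (by norm_num : (1 : ℝ) ≤ 2))
  have g9 : Real.log c * ((z : ℝ) * θ.dlt / (m * x * v) -
      |(k : ℝ)| * ((y * I + v * J) + (J + I * y) + J)) =
      Real.log c * (z * θ.dlt / (m * x * v)) -
        |(k : ℝ)| * Real.log c * ((y * I + v * J) + (J + I * y) + J) := by ring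
  rw [g9] at g6
  rw [MM]
  linarith

end Pool.Agent.MP_09c87f_nt
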