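import Pool.Agent.MP_09c87f_nt.Schneider

namespace Pool.Agent.MP_09c87f_nt.Sch

/-- Dividing out an exponent. -/
theorem root_cong {c : ℕ} (hc : c.Prime) (hc2 : c ≠ 2) {P Q : ℤ} (h1 : (c : ℤ) ∣ P - 1)
    (h2 : (c : ℤ) ∣ Q - 1) {g t N : ℕ} (hg : g ≠ 0) (hgt : g ≤ c ^ t)
    (h : (c : ℤ) ^ N ∣ P ^ g - Q ^ g) : (c : ℤ) ^ (N - t) ∣ P - Q := by
  have hodd : Odd c := hc.odd_of_ne_two hc2
  have hcp : Prime (c : ℤ) := Nat.prime_iff_prime_int.mp hc
  have hP : ¬ (c : ℤ) ∣ P := by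
    intro h3
    have : (c : ℤ) ∣ 1 := by
      have := dvd_sub h3 h1
      simpa using this
    exact hcp.not_dvd_one this
  have hPQ : (c : ℤ) ∣ P - Q := by
    have := dvd_sub h1 h2
    simpa using this
  have key := Int.emultiplicity_pow_sub_pow hc hodd hPQ hP g
  have h3 : (N : ℕ∞) ≤ emultiplicity (c : ℤ) (P ^ g - Q ^ g) := le_emultiplicity_of_pow_dvd h
  rw [key] at h3
  have h4 : emultiplicity c g ≤ t := by
    by_contra h5
    push Not at h5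
    have h6 : ((t + 1 : ℕ) : ℕ∞) ≤ emultiplicity c g := by
      have := Order.add_one_le_of_lt h5
      simpa using this
    have h7 : c ^ (t + 1) ∣ g := pow_dvd_of_le_emultiplicity h6
    have h8 := Nat.le_of_dvd (Nat.pos_of_ne_zero hg) h7
    have h9 : c ^ t < c ^ (t + 1) := Nat.pow_lt_pow_right hc.one_lt (by omega)
    omega
  apply pow_dvd_of_le_emultiplicity
  by_contra h5
  push Not at h5
  -- emultiplicity (P-Q) < N - t
  have h6 : emultiplicity (c : ℤ) (P - Q) ≠ ⊤ := ne_top_of_lt h5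
  obtain ⟨m, hm⟩ := ENat.ne_top_iff_exists.mp h6
  have h7 : emultiplicity c g ≠ ⊤ := ne_top_of_le_ne_top (by simp) h4
  obtain ⟨n, hn⟩ := ENat.ne_top_iff_exists.mp h7
  rw [← hm, ← hn] at h3
  rw [← hm] at h5
  rw [← hn] at h4
  norm_cast at h3 h5 h4
  omega

theorem distinct_aux {X Y ρ : ℕ} (hX : 1 ≤ X) (hY : 1 ≤ Y) (hXY : Nat.Coprime X Y)
    (hbig : ρ ≤ X ∨ ρ ≤ Y) : ∀ r < ρ, ∀ s < ρ, ∀ r' < ρ, ∀ s' < ρ,
      r * Y + s * X = r' * Y + s' * X → r = r' ∧ s = s' := by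
  have key : ∀ r < ρ, ∀ s < ρ, ∀ r' < ρ, ∀ s' < ρ, r ≤ r' → r * Y + s * X = r' * Y + s' * X →
      r = r' ∧ s = s' := by
    intro r hr s hs r' hr' s' hs' hle h
    have h1 : (r' - r) * Y = (s - s') * X := by
      obtain ⟨d, rfl⟩ := Nat.exists_eq_add_of_le hle
      have h0 : s * X = d * Y + s' * X := by
        rw [Nat.add_mul] at h
        omega
      have h2 : s' ≤ s := by
        by_contra h3
        push Not at h3
        have : s * X < s' * X := by gcongr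
        omega
      obtain ⟨e, rfl⟩ := Nat.exists_eq_add_of_le h2
      simp only [Nat.add_sub_cancel_left]
      rw [Nat.add_mul] at h0
      omega
    have hrr : r' - r = 0 := by
      rcases hbig with hX1 | hY1
      · have : X ∣ (r' - r) * Y := ⟨s - s', by rw [h1]; ring⟩
        have h2 : X ∣ r' - r := hXY.dvd_of_dvd_mul_right this
        by_contra h3
        have := Nat.le_of_dvd (Nat.pos_of_ne_zero h3) h2
        omega
      · have : Y ∣ (s - s') * X := ⟨r' - r, by rw [← h1]; ring⟩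
        have h2 : Y ∣ s - s' := hXY.symm.dvd_of_dvd_mul_right this
        have h4 : s - s' = 0 := by
          by_contra h3
          have := Nat.le_of_dvd (Nat.pos_of_ne_zero h3) h2
          omega
        rw [h4, zero_mul] at h1
        rcases Nat.mul_eq_zero.mp h1 with h5 | h5 <;> omega
    have hr2 : r = r' := by omega
    subst hr2
    refine ⟨rfl, ?_⟩
    have : s * X = s' * X := by omega
    exact Nat.eq_of_mul_eq_mul_right (by omega) this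
  intro r hr s hs r' hr' s' hs' h
  rcases le_total r r' with h1 | h1
  · exact key r hr s hs r' hr' s' hs' h1 h
  · obtain ⟨h2, h3⟩ := key r' hr' s' hs' r hr s hs h1 h.symm
    exact ⟨h2.symm, h3.symm⟩

/-- The core with the parameters `ρ = 256 R l`, `K = 4 k`, `L = 4 l`, `J = 4 k l`,
`H + 1 = c ^ (α k l)`, `k = 8 R (ρ + 2 l)`. -/
theorem app_aux {c A B X Y N α M R l t : ℕ} (hc : c.Prime)
    (hA : 2 ≤ A) (hB : 2 ≤ B) (hα : 1 ≤ α)
    (hA1 : (c : ℤ) ^ α ∣ (A : ℤ) - 1) (hB1 : (c : ℤ) ∣ (B : ℤ) - 1)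
    (hAM : A ≤ c ^ M) (hBM : B ≤ c ^ M) (hMR : M ≤ R * α) (hR : 1 ≤ R) (hl : 2 ≤ l)
    (hX : 1 ≤ X) (hY : 1 ≤ Y) (hYc : Nat.Coprime Y c) (hXt : X ≤ c ^ t) (hYt : Y ≤ c ^ t)
    (hXY : Nat.Coprime X Y) (hbig : 256 * R * l ≤ X ∨ 256 * R * l ≤ Y)
    (hT : (516 * (R * l * c ^ t)) ^ 5 ≤ c ^ (2 * α * l))
    (hN : 8256 * α * R ^ 2 * l ^ 2 ≤ N)
    (hcong : (A : ℤ) ^ X ≡ (B : ℤ) ^ Y [ZMOD (c : ℤ) ^ N]) : False := by
  obtain ⟨ρ, hρ⟩ : ∃ ρ, ρ = 256 * R * l := ⟨_, rfl⟩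
  obtain ⟨k, hk⟩ : ∃ k, k = 8 * R * (ρ + 2 * l) := ⟨_, rfl⟩
  have hRl : 1 ≤ R * l := Nat.one_le_iff_ne_zero.mpr (by positivity)
  have hk' : k ≤ 2064 * R ^ 2 * l := by
    rw [hk, hρ]
    have : R * l ≤ R * (R * l) := Nat.le_mul_of_pos_left _ hR
    calc 8 * R * (256 * R * l + 2 * l) = 2048 * (R * (R * l)) + 16 * (R * l) := by ring
      _ ≤ 2048 * (R * (R * l)) + 16 * (R * (R * l)) := by gcongr
      _ = _ := by ring
  have hρ1 : 1 ≤ ρ := by rw [hρ]; exact Nat.one_le_iff_ne_zero.mpr (by positivity)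
  have hk1 : 1 ≤ k := by rw [hk]; exact Nat.one_le_iff_ne_zero.mpr (by positivity)
  have hc1 : 1 ≤ c := hc.one_le
  rw [← hρ] at hbig
  obtain ⟨T, hTdef⟩ : ∃ T, T = (ρ + 4 * l) * Y + ρ * X := ⟨_, rfl⟩
  have hTle : T ≤ 516 * (R * l * c ^ t) := by
    have h1 : T ≤ (2 * ρ + 4 * l) * c ^ t := by
      rw [hTdef]
      calc (ρ + 4 * l) * Y + ρ * X ≤ (ρ + 4 * l) * c ^ t + ρ * c ^ t := by gcongr
        _ = (2 * ρ + 4 * l) * c ^ t := by ring
    have h2 : 2 * ρ + 4 * l ≤ 516 * (R * l) := by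
      have : l ≤ R * l := Nat.le_mul_of_pos_left _ hR
      rw [hρ]
      calc 2 * (256 * R * l) + 4 * l ≤ 2 * (256 * R * l) + 4 * (R * l) := by gcongr
        _ = _ := by ring
    calc T ≤ (2 * ρ + 4 * l) * c ^ t := h1
      _ ≤ 516 * (R * l) * c ^ t := by gcongr
      _ = _ := by ring
  have hT1 : ρ ≤ T := by
    rw [hTdef]
    calc ρ = ρ * 1 := (mul_one _).symm
      _ ≤ ρ * X := Nat.mul_le_mul_left _ hX
      _ ≤ _ := Nat.le_add_left _ _
  have hKL : (4 * k) * (4 * l) ≤ ρ ^ 2 := by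
    calc (4 * k) * (4 * l) ≤ (4 * (2064 * R ^ 2 * l)) * (4 * l) := by gcongr
      _ = 33024 * (R * l) ^ 2 := by ring
      _ ≤ 65536 * (R * l) ^ 2 := Nat.mul_le_mul_right _ (by norm_num)
      _ = ρ ^ 2 := by rw [hρ]; ring
  refine schneider_core (K := 4 * k) (L := 4 * l) (J := 4 * k * l) (ρ := ρ)
    (H := c ^ (α * k * l) - 1) (T := T) (W := A ^ (ρ + 4 * l) * B ^ ρ)
    (α := α) (N := N) hc (by omega) (by omega) hA1 hα hB1 hYc hcong (by omega) (by omega) ?_ hKL ?_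
    hTdef.ge le_rfl ?_ ?_
  · -- distinctness
    exact distinct_aux hX hY hXY hbig
  · -- Siegel
    have h1 : c ^ (α * k * l) - 1 + 1 = c ^ (α * k * l) := by
      have : 1 ≤ c ^ (α * k * l) := Nat.one_le_pow _ _ (by omega)
      omega
    rw [h1, ← pow_mul, ← pow_mul]
    apply Nat.pow_lt_pow_right hc.one_lt
    have h2 : (4 * k * l) * (4 * k * l + 1) / 2 = 2 * k * l * (4 * k * l + 1) := by
      rw [show (4 * k * l) * (4 * k * l + 1) = 2 * (2 * k * l * (4 * k * l + 1)) by ring]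
      exact Nat.mul_div_cancel_left _ (by norm_num)
    rw [h2]
    obtain ⟨k', rfl⟩ : ∃ k', k = k' + 1 := ⟨k - 1, by omega⟩
    have h3 : 4 * (k' + 1) - 1 = 4 * k' + 3 := by omega
    rw [h3]
    have h4 : (4 * k' + 3) * (4 * (k' + 1) * l) + 2 * (k' + 1) * l * (4 * (k' + 1) * l + 1)
        < (k' + 1) * l * (4 * (k' + 1) * (4 * l)) := by
      have h5 : (4 * k' + 3) * 4 + 2 * (4 * (k' + 1) * l + 1) < 4 * (k' + 1) * (4 * l) := by
        nlinarith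
      have h6 : 0 < (k' + 1) * l := by positivity
      calc (4 * k' + 3) * (4 * (k' + 1) * l) + 2 * (k' + 1) * l * (4 * (k' + 1) * l + 1)
          = (k' + 1) * l * ((4 * k' + 3) * 4 + 2 * (4 * (k' + 1) * l + 1)) := by ring
        _ < (k' + 1) * l * (4 * (k' + 1) * (4 * l)) := Nat.mul_lt_mul_of_pos_left h5 h6
    calc α * ((4 * k' + 3) * (4 * (k' + 1) * l) + 2 * (k' + 1) * l * (4 * (k' + 1) * l + 1))
        < α * ((k' + 1) * l * (4 * (k' + 1) * (4 * l))) := Nat.mul_lt_mul_of_pos_left h4 hα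
      _ = _ := by ring
  · -- size
    have hH : c ^ (α * k * l) - 1 < c ^ (α * k * l) := by
      have : 1 ≤ c ^ (α * k * l) := Nat.one_le_pow _ _ (by omega)
      omega
    have hT2 : (4 * k) * (4 * l) * T ^ (4 * k - 1) ≤ c ^ (2 * α * l * k) := by
      calc (4 * k) * (4 * l) * T ^ (4 * k - 1) ≤ T ^ 2 * T ^ (4 * k - 1) := by
            gcongr
            exact hKL.trans (by gcongr)
        _ = T ^ (4 * k + 1) := by rw [← pow_add]; congr 1; omega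
        _ ≤ T ^ (5 * k) := Nat.pow_le_pow_right (by omega) (by omega)
        _ = (T ^ 5) ^ k := by rw [pow_mul]
        _ ≤ ((516 * (R * l * c ^ t)) ^ 5) ^ k := by gcongr
        _ ≤ (c ^ (2 * α * l)) ^ k := by gcongr
        _ = c ^ (2 * α * l * k) := by rw [← pow_mul]
    have hW2 : (A ^ (ρ + 4 * l) * B ^ ρ) ^ (4 * l - 1) ≤ c ^ (α * k * l) := by
      have hW0 : A ^ (ρ + 4 * l) * B ^ ρ ≤ c ^ (M * (2 * ρ + 4 * l)) := by
        calc A ^ (ρ + 4 * l) * B ^ ρ ≤ (c ^ M) ^ (ρ + 4 * l) * (c ^ M) ^ ρ := by gcongr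
          _ = _ := by rw [← pow_mul, ← pow_mul, ← pow_add]; congr 1; ring
      calc (A ^ (ρ + 4 * l) * B ^ ρ) ^ (4 * l - 1) ≤ (c ^ (M * (2 * ρ + 4 * l))) ^ (4 * l - 1) := by
            gcongr
        _ ≤ (c ^ (M * (2 * ρ + 4 * l))) ^ (4 * l) :=
            Nat.pow_le_pow_right (Nat.one_le_pow _ _ (by omega)) (by omega)
        _ = c ^ (M * (2 * ρ + 4 * l) * (4 * l)) := by rw [← pow_mul]
        _ ≤ c ^ (α * k * l) := by
            apply Nat.pow_le_pow_right (by omega)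
            calc M * (2 * ρ + 4 * l) * (4 * l) ≤ (R * α) * (2 * ρ + 4 * l) * (4 * l) := by gcongr
              _ = α * (8 * R * (ρ + 2 * l)) * l := by ring
              _ = _ := by rw [hk]
    calc (4 * k) * (4 * l) * (c ^ (α * k * l) - 1) * T ^ (4 * k - 1) *
          (A ^ (ρ + 4 * l) * B ^ ρ) ^ (4 * l - 1)
        = (c ^ (α * k * l) - 1) * (((4 * k) * (4 * l) * T ^ (4 * k - 1)) *
          (A ^ (ρ + 4 * l) * B ^ ρ) ^ (4 * l - 1)) := by ring
      _ < c ^ (α * k * l) * (((4 * k) * (4 * l) * T ^ (4 * k - 1)) *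
          (A ^ (ρ + 4 * l) * B ^ ρ) ^ (4 * l - 1)) := by
          apply Nat.mul_lt_mul_of_pos_right hH
          have : 0 < T := by omega
          positivity
      _ ≤ c ^ (α * k * l) * (c ^ (2 * α * l * k) * c ^ (α * k * l)) := by gcongr
      _ = c ^ (α * (4 * k * l)) := by rw [← pow_add, ← pow_add]; congr 1; ring
  · -- N
    calc α * (4 * k * l) ≤ α * (4 * (2064 * R ^ 2 * l) * l) := by gcongr
      _ = 8256 * α * R ^ 2 * l ^ 2 := by ring
      _ ≤ N := hN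

/-- General application: upper bound for the `c`-adic closeness of `A ^ X` and `B ^ Y`. -/
theorem app_bound {c A B X Y N α M R l t : ℕ} (hc : c.Prime) (hc2 : c ≠ 2)
    (hA : 2 ≤ A) (hB : 2 ≤ B) (hAB : A.Coprime B) (hα : 1 ≤ α)
    (hA1 : (c : ℤ) ^ α ∣ (A : ℤ) - 1) (hB1 : (c : ℤ) ^ α ∣ (B : ℤ) - 1)
    (hAM : A ≤ c ^ M) (hBM : B ≤ c ^ M) (hMR : M ≤ R * α) (hR : 1 ≤ R) (hl : 2 ≤ l)
    (hX : 1 ≤ X) (hY : 1 ≤ Y) (hXt : X ≤ c ^ t) (hYt : Y ≤ c ^ t)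
    (hT : (516 * (R * l * c ^ t)) ^ 5 ≤ c ^ (2 * α * l))
    (hcong : (c : ℤ) ^ N ∣ (A : ℤ) ^ X - (B : ℤ) ^ Y) :
    N < 8256 * α * R ^ 2 * l ^ 2 + t + M * (256 * R * l) := by
  by_contra hN
  push Not at hN
  obtain ⟨ρ, hρ⟩ : ∃ ρ, ρ = 256 * R * l := ⟨_, rfl⟩
  obtain ⟨g, hg⟩ : ∃ g, g = Nat.gcd X Y := ⟨_, rfl⟩
  have hg0 : 0 < g := by rw [hg]; exact Nat.gcd_pos_of_pos_left _ (by omega)
  obtain ⟨X0, Y0, hcop, hX0, hY0⟩ : ∃ X0 Y0, Nat.Coprime X0 Y0 ∧ X = X0 * g ∧ Y = Y0 * g := by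
    obtain ⟨X0, Y0, h1, h2, h3⟩ := Nat.exists_coprime X Y
    exact ⟨X0, Y0, h1, by rw [hg]; exact h2, by rw [hg]; exact h3⟩
  have hX01 : 1 ≤ X0 := by
    rcases Nat.eq_zero_or_pos X0 with h | h
    · rw [h, zero_mul] at hX0; omega
    · exact h
  have hY01 : 1 ≤ Y0 := by
    rcases Nat.eq_zero_or_pos Y0 with h | h
    · rw [h, zero_mul] at hY0; omega
    · exact h
  have hX0X : X0 ≤ X := by rw [hX0]; exact Nat.le_mul_of_pos_right _ hg0
  have hY0Y : Y0 ≤ Y := by rw [hY0]; exact Nat.le_mul_of_pos_right _ hg0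
  have hgX : g ≤ X := by rw [hX0]; exact Nat.le_mul_of_pos_left _ hX01
  have hcα : (c : ℤ) ∣ (c : ℤ) ^ α := dvd_pow_self _ (by omega)
  have hA2 : (c : ℤ) ∣ (A : ℤ) - 1 := hcα.trans hA1
  have hB2 : (c : ℤ) ∣ (B : ℤ) - 1 := hcα.trans hB1
  have hpow1 : ∀ (P : ℤ) (n : ℕ), (c : ℤ) ∣ P - 1 → (c : ℤ) ∣ P ^ n - 1 := fun P n h =>
    h.trans (by simpa using sub_dvd_pow_sub_pow P 1 n)
  have hcong0 : (c : ℤ) ^ (N - t) ∣ (A : ℤ) ^ X0 - (B : ℤ) ^ Y0 := by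
    refine root_cong hc hc2 (g := g) (hpow1 _ _ hA2) (hpow1 _ _ hB2) (by omega) (hgX.trans hXt) ?_
    rw [← pow_mul, ← pow_mul, ← hX0, ← hY0]
    exact hcong
  rw [← hρ] at hN
  by_cases hsmall : X0 < ρ ∧ Y0 < ρ
  · -- equality
    obtain ⟨h1, h2⟩ := hsmall
    have hb : ∀ (C Z : ℕ), C ≤ c ^ M → Z < ρ → C ^ Z < c ^ (N - t) := by
      intro C Z hC hZ
      calc C ^ Z ≤ (c ^ M) ^ Z := by gcongr
        _ = c ^ (M * Z) := by rw [← pow_mul]
        _ ≤ c ^ (M * ρ) := Nat.pow_le_pow_right hc.pos (by gcongr)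
        _ < c ^ (N - t) := by
          apply Nat.pow_lt_pow_right hc.one_lt
          have : 0 < 8256 * α * R ^ 2 * l ^ 2 := by positivity
          omega
    have h3 := hb A X0 hAM h1
    have h4 := hb B Y0 hBM h2
    have h5 : (A : ℤ) ^ X0 - (B : ℤ) ^ Y0 = 0 := by
      apply Int.eq_zero_of_abs_lt_dvd hcong0
      have h3' : (A : ℤ) ^ X0 < (c : ℤ) ^ (N - t) := by exact_mod_cast h3
      have h4' : (B : ℤ) ^ Y0 < (c : ℤ) ^ (N - t) := by exact_mod_cast h4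
      rw [abs_lt]
      have h6 : (0 : ℤ) ≤ (A : ℤ) ^ X0 := by positivity
      have h7 : (0 : ℤ) ≤ (B : ℤ) ^ Y0 := by positivity
      constructor <;> linarith
    have h6 : A ^ X0 = B ^ Y0 := by
      have : (A : ℤ) ^ X0 = (B : ℤ) ^ Y0 := by linarith
      exact_mod_cast this
    have h7 : Nat.Coprime (A ^ X0) (B ^ Y0) := Nat.Coprime.pow _ _ hAB
    rw [← h6, Nat.coprime_self] at h7
    have h8 : A ^ 1 ≤ A ^ X0 := Nat.pow_le_pow_right (by omega) hX01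
    rw [pow_one] at h8
    omega
  · have hbig : ρ ≤ X0 ∨ ρ ≤ Y0 := by omega
    have hN2 : 8256 * α * R ^ 2 * l ^ 2 ≤ N - t := by omega
    by_cases hYc : Nat.Coprime Y0 c
    · refine app_aux (N := N - t) (X := X0) (Y := Y0) hc hA hB hα hA1 hB2 hAM hBM hMR hR hl hX01
        hY01 hYc (hX0X.trans hXt) (hY0Y.trans hYt) hcop (by rw [← hρ]; exact hbig) hT hN2 ?_
      exact (Int.modEq_iff_dvd.mpr hcong0).symm
    · have hXc : Nat.Coprime X0 c := by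
        rw [Nat.coprime_comm, Nat.Prime.coprime_iff_not_dvd hc] at hYc ⊢
        push Not at hYc
        intro h1
        have := Nat.dvd_gcd h1 hYc
        rw [hcop] at this
        exact hc.one_lt.ne' (Nat.dvd_one.mp this)
      refine app_aux (A := B) (B := A) (N := N - t) (X := Y0) (Y := X0) hc hB hA hα hB1 hA2 hBM hAM
        hMR hR hl hY01 hX01 hXc (hY0Y.trans hYt) (hX0X.trans hXt) hcop.symm
        (by rw [← hρ]; exact hbig.symm) hT hN2 ?_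
      exact Int.modEq_iff_dvd.mpr hcong0

end Pool.Agent.MP_09c87f_nt.Sch
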