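import Mathlib

namespace Pool.Agent.MP_09c87f_nt.Sch

open Polynomial Finset

/-- Zero estimate for `∑ l, A l (t) * w ^ l` on the points `(t + j Y, w u ^ j)`. -/
theorem zero_estimate {K L : ℕ} (A : Fin L → ℚ[X]) (hA : ∀ l, (A l).degree < K)
    (u : ℚ) (hu : 1 < u) (Y : ℚ) (S : Finset (ℚ × ℚ))
    (hS : K * L ≤ (S.image Prod.fst).card) (hw : ∀ p ∈ S, p.2 ≠ 0)
    (h : ∀ p ∈ S, ∀ j < L, ∑ l : Fin L, (A l).eval (p.1 + j * Y) * (p.2 * u ^ j) ^ (l : ℕ) = 0) :
    ∀ l, A l = 0 := by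
  classical
  by_contra hne
  push Not at hne
  obtain ⟨l0, hl0⟩ := hne
  set T : Finset (Fin L) := univ.filter (fun l => A l ≠ 0) with hT
  have hTne : T.Nonempty := ⟨l0, by simp [hT, hl0]⟩
  set n := T.card with hn
  have hn0 : 0 < n := hTne.card_pos
  have hnL : n ≤ L := by
    calc n ≤ (univ : Finset (Fin L)).card := card_le_card (filter_subset _ _)
      _ = L := by simp
  let e : Fin n ≃ T := T.equivFin.symm
  have hAe : ∀ i, A (e i) ≠ 0 := fun i => by
    have := (e i).2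
    simp only [hT, mem_filter, mem_univ, true_and] at this
    exact this
  -- the polynomial matrix
  let M : Matrix (Fin n) (Fin n) ℚ[X] := Matrix.of fun i j =>
    (A (e i)).comp (X + C ((j : ℕ) * Y)) * C ((u ^ ((e i : Fin L) : ℕ)) ^ (j : ℕ))
  have hMdef : ∀ i j, M i j =
    (A (e i)).comp (X + C ((j : ℕ) * Y)) * C ((u ^ ((e i : Fin L) : ℕ)) ^ (j : ℕ)) := fun i j => rfl
  have hdeg : ∀ i (j : Fin n), ((A (e i)).comp (X + C (((j : ℕ) : ℚ) * Y))).natDegree
      = (A (e i)).natDegree := by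
    intro i j
    rw [natDegree_comp, natDegree_X_add_C, mul_one]
  have hlc : ∀ i (j : Fin n), ((A (e i)).comp (X + C (((j : ℕ) : ℚ) * Y))).leadingCoeff
      = (A (e i)).leadingCoeff := by
    intro i j
    rw [leadingCoeff_comp (by rw [natDegree_X_add_C]; exact one_ne_zero), leadingCoeff_X_add_C]
    simp
  set d : ℕ := ∑ i, (A (e i)).natDegree with hd
  have hcoeff : M.det.coeff d = (∏ i, (A (e i)).leadingCoeff) *
      (Matrix.vandermonde (fun i : Fin n => u ^ ((e i : Fin L) : ℕ))).det := by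
    rw [← Matrix.det_transpose M, ← Matrix.det_transpose (Matrix.vandermonde _),
      Matrix.det_apply', Matrix.det_apply', finsetSum_coeff, mul_sum]
    refine sum_congr rfl fun σ _ => ?_
    have h1 : (∏ i, M.transpose (σ i) i) = (∏ i, (A (e i)).comp (X + C (((σ i : Fin n) : ℕ) * Y)))
        * C (∏ i, (u ^ ((e i : Fin L) : ℕ)) ^ ((σ i : Fin n) : ℕ)) := by
      rw [map_prod, ← prod_mul_distrib]
      rfl
    have hnd : (∏ i, (A (e i)).comp (X + C (((σ i : Fin n) : ℕ) * Y))).natDegree = d := by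
      rw [natDegree_prod _ _ (fun i _ => ?_)]
      · exact sum_congr rfl fun i _ => hdeg i (σ i)
      · intro h0
        have := hlc i (σ i)
        rw [h0, leadingCoeff_zero] at this
        exact hAe i (leadingCoeff_eq_zero.mp this.symm)
    have hlc' : (∏ i, (A (e i)).comp (X + C (((σ i : Fin n) : ℕ) * Y))).coeff d
        = ∏ i, (A (e i)).leadingCoeff := by
      rw [← hnd, coeff_natDegree, leadingCoeff_prod]
      exact prod_congr rfl fun i _ => hlc i (σ i)
    rw [h1]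
    rw [show (((Equiv.Perm.sign σ : ℤˣ) : ℤ) : ℚ[X]) = C (((Equiv.Perm.sign σ : ℤˣ) : ℤ) : ℚ) by simp]
    rw [coeff_C_mul, coeff_mul_C, hlc']
    simp only [Matrix.transpose_apply, Matrix.vandermonde_apply]
    ring
  have hdet_ne : M.det ≠ 0 := by
    intro h0
    rw [h0, coeff_zero] at hcoeff
    have h1 : (∏ i, (A (e i)).leadingCoeff) ≠ 0 :=
      prod_ne_zero_iff.mpr fun i _ => leadingCoeff_ne_zero.mpr (hAe i)
    have h2 : (Matrix.vandermonde (fun i : Fin n => u ^ ((e i : Fin L) : ℕ))).det ≠ 0 := by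
      rw [Matrix.det_vandermonde_ne_zero_iff]
      intro i j hij
      have h3 := pow_right_injective₀ (by linarith : (0:ℚ) < u) hu.ne' hij
      exact e.injective (Subtype.ext (Fin.ext h3))
    exact mul_ne_zero h1 h2 hcoeff.symm
  -- degree bound
  have hdetdeg : M.det.natDegree < K * L := by
    have h1 : M.det.natDegree ≤ n * (K - 1) := by
      rw [Matrix.det_apply']
      refine natDegree_sum_le_of_forall_le _ _ fun σ _ => ?_
      refine (natDegree_mul_le).trans ?_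
      have h2 : ((((Equiv.Perm.sign σ : ℤˣ) : ℤ) : ℚ[X])).natDegree = 0 := by
        rw [show (((Equiv.Perm.sign σ : ℤˣ) : ℤ) : ℚ[X]) = C (((Equiv.Perm.sign σ : ℤˣ) : ℤ) : ℚ) by simp,
          natDegree_C]
      rw [h2, zero_add]
      refine (natDegree_prod_le _ _).trans ?_
      calc ∑ i, (M (σ i) i).natDegree ≤ ∑ i : Fin n, (K - 1) := by
            refine sum_le_sum fun i _ => ?_
            rw [hMdef]
            refine (natDegree_mul_C_le _ _).trans ?_
            rw [hdeg]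
            have := hA (e (σ i))
            rw [degree_eq_natDegree (hAe _)] at this
            have : (A (e (σ i))).natDegree < K := by exact_mod_cast this
            omega
        _ = n * (K - 1) := by simp
    have hK : 0 < K := by
      have := hA l0
      rw [degree_eq_natDegree hl0] at this
      have : (A l0).natDegree < K := by exact_mod_cast this
      omega
    calc M.det.natDegree ≤ n * (K - 1) := h1
      _ < n * K := Nat.mul_lt_mul_of_pos_left (by omega) hn0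
      _ ≤ K * L := by rw [mul_comm]; exact Nat.mul_le_mul_left _ hnL
  -- roots
  have hroots : ∀ t ∈ S.image Prod.fst, M.det.eval t = 0 := by
    intro t ht
    obtain ⟨p, hp, rfl⟩ := mem_image.mp ht
    have h1 : M.det.eval p.1 = (M.map (evalRingHom p.1)).det := by
      rw [← coe_evalRingHom, RingHom.map_det]; rfl
    rw [h1]
    rw [← Matrix.exists_vecMul_eq_zero_iff]
    refine ⟨fun i => p.2 ^ ((e i : Fin L) : ℕ), ?_, ?_⟩
    · intro h0
      have := congrFun h0 ⟨0, hn0⟩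
      exact pow_ne_zero _ (hw p hp) this
    · ext j
      have h2 := h p hp (j : ℕ) (lt_of_lt_of_le j.2 hnL)
      rw [Pi.zero_apply, ← h2]
      have h4 : Matrix.vecMul (fun i => p.2 ^ ((e i : Fin L) : ℕ)) (M.map (evalRingHom p.1)) j
          = ∑ i, p.2 ^ ((e i : Fin L) : ℕ) * ((A (e i)).eval (p.1 + (j : ℕ) * Y) *
            (u ^ ((e i : Fin L) : ℕ)) ^ (j : ℕ)) := by
        rw [Matrix.vecMul, dotProduct]
        refine sum_congr rfl fun i _ => ?_
        rw [Matrix.map_apply, hMdef, coe_evalRingHom, eval_mul, eval_comp, eval_add, eval_X, eval_C,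
          eval_C]
      rw [h4]
      have h3 : ∑ l : Fin L, (A l).eval (p.1 + (j : ℕ) * Y) * (p.2 * u ^ (j : ℕ)) ^ (l : ℕ)
          = ∑ l ∈ T, (A l).eval (p.1 + (j : ℕ) * Y) * (p.2 * u ^ (j : ℕ)) ^ (l : ℕ) := by
        symm
        refine sum_subset (subset_univ _) fun l _ hl => ?_
        have : A l = 0 := by
          by_contra h4
          exact hl (by simp [hT, h4])
        simp [this]
      rw [h3, ← sum_coe_sort T, ← e.sum_comp]
      refine sum_congr rfl fun i _ => ?_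
      rw [mul_pow, ← pow_mul, ← pow_mul, mul_comm (j : ℕ)]
      ring
  have : M.det = 0 := by
    refine eq_zero_of_natDegree_lt_card_of_eval_eq_zero' M.det (S.image Prod.fst) hroots ?_
    exact lt_of_lt_of_le hdetdeg hS
  exact hdet_ne this


open Finset fwdDiff

/-- `f` is `q`-adically analytic of type `i`: `q ^ (j - i)` divides the `j`-th difference at `0`. -/
def Gd (q : ℤ) (i : ℕ) (f : ℕ → ℤ) : Prop := ∀ j, q ^ (j - i) ∣ (Δ_[1])^[j] f 0

lemma Gd.mono {q : ℤ} {i i' : ℕ} {f : ℕ → ℤ} (h : Gd q i f) (hi : i ≤ i') : Gd q i' f :=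
  fun j => (pow_dvd_pow q (by omega)).trans (h j)

lemma Gd.add {q : ℤ} {i : ℕ} {f g : ℕ → ℤ} (hf : Gd q i f) (hg : Gd q i g) :
    Gd q i (f + g) := fun j => by
  rw [fwdDiff_iter_add]
  exact dvd_add (hf j) (hg j)

lemma Gd.smul {q : ℤ} {i : ℕ} {f : ℕ → ℤ} (hf : Gd q i f) (a : ℤ) :
    Gd q i (a • f) := fun j => by
  rw [fwdDiff_iter_const_smul]
  exact Dvd.dvd.mul_left (hf j) a

lemma Gd.sum {ι : Type*} {q : ℤ} {i : ℕ} (s : Finset ι) (f : ι → ℕ → ℤ)
    (hf : ∀ x ∈ s, Gd q i (f x)) : Gd q i (∑ x ∈ s, f x) := by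
  classical
  induction s using Finset.induction_on with
  | empty =>
    intro j
    have : (Δ_[1])^[j] (0 : ℕ → ℤ) 0 = 0 := by
      have h := fwdDiff_iter_const_smul 1 (0 : ℤ) (0 : ℕ → ℤ) j
      simp at h
      rw [h]; rfl
    simp [this]
  | insert a s ha ih =>
    rw [sum_insert ha]
    exact (hf a (mem_insert_self _ _)).add (ih fun x hx => hf x (mem_insert_of_mem hx))

lemma iter_succ (f : ℕ → ℤ) (j t : ℕ) :
    (Δ_[1])^[j + 1] f t = (Δ_[1])^[j] f (t + 1) - (Δ_[1])^[j] f t := by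
  rw [Function.iterate_succ_apply']; rfl

lemma iter_mul_id (f : ℕ → ℤ) (j t : ℕ) :
    (Δ_[1])^[j + 1] (fun t : ℕ => (t : ℤ) * f t) t = t * (Δ_[1])^[j + 1] f t
      + (j + 1) * (Δ_[1])^[j] f (t + 1) := by
  induction j generalizing t with
  | zero =>
    simp only [zero_add, Function.iterate_one, Function.iterate_zero, id, fwdDiff]
    push_cast; ring
  | succ j ih =>
    rw [iter_succ, ih, ih, iter_succ f (j + 1) t, iter_succ f j (t + 1)]
    push_cast
    ring

lemma Gd.mul_id {q : ℤ} {i : ℕ} {f : ℕ → ℤ} (hf : Gd q i f) :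
    Gd q (i + 1) (fun t => (t : ℤ) * f t) := fun j => by
  cases j with
  | zero => simp
  | succ j =>
    rw [iter_mul_id]
    have h0 : (Δ_[1])^[j] f (0 + 1) = (Δ_[1])^[j] f 0 + (Δ_[1])^[j + 1] f 0 := by
      rw [iter_succ]; ring
    rw [h0]
    have h1 : j + 1 - (i + 1) = j - i := by omega
    rw [h1]
    simp only [Nat.cast_zero, zero_mul, zero_add]
    exact Dvd.dvd.mul_left (dvd_add (hf j)
      ((pow_dvd_pow q (by omega)).trans (hf (j + 1)))) _

lemma Gd.mul_pow {q : ℤ} {f : ℕ → ℤ} (hf : Gd q 0 f) (k : ℕ) :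
    Gd q k (fun t => (t : ℤ) ^ k * f t) := by
  induction k with
  | zero => simpa using hf
  | succ k ih =>
    have := ih.mul_id
    refine (funext fun t => ?_ : (fun t : ℕ => (t : ℤ) ^ (k + 1) * f t)
      = fun t : ℕ => (t : ℤ) * ((t : ℤ) ^ k * f t)) ▸ this
    ring

lemma iter_pow (η : ℤ) (j t : ℕ) : (Δ_[1])^[j] (fun t => η ^ t) t = (η - 1) ^ j * η ^ t := by
  induction j generalizing t with
  | zero => simp
  | succ j ih =>
    rw [iter_succ, ih, ih]
    ring

lemma Gd_pow {q η : ℤ} (h : q ∣ η - 1) (l : ℕ) : Gd q 0 (fun t => η ^ (l * t)) := fun j => by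
  have : (fun t => η ^ (l * t)) = fun t => (η ^ l) ^ t := by
    ext t; rw [pow_mul]
  rw [this, iter_pow]
  have h1 : q ∣ η ^ l - 1 := h.trans (by simpa using sub_dvd_pow_sub_pow η 1 l)
  exact Dvd.dvd.mul_right (by simpa using pow_dvd_pow_of_dvd h1 j) _

/-- Newton's formula at natural numbers. -/
lemma newton (f : ℕ → ℤ) (t : ℕ) :
    f t = ∑ j ∈ range (t + 1), (t.choose j : ℤ) * (Δ_[1])^[j] f 0 := by
  have h := shift_eq_sum_fwdDiff_iter 1 f t 0
  simp only [smul_eq_mul, mul_one, zero_add, nsmul_eq_mul] at h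
  exact h

/-- If the first differences are divisible by `q ^ J` then so are all the values. -/
lemma dvd_of_Gd {q : ℤ} {i J : ℕ} {f : ℕ → ℤ} (hf : Gd q i f)
    (h : ∀ j < J + i, q ^ J ∣ (Δ_[1])^[j] f 0) (t : ℕ) : q ^ J ∣ f t := by
  rw [newton f t]
  refine dvd_sum fun j _ => Dvd.dvd.mul_left ?_ _
  by_cases hj : j < J + i
  · exact h j hj
  · exact (pow_dvd_pow q (by omega)).trans (hf j)


open Finset fwdDiff Polynomial

/-- The auxiliary function. -/
def Gf {K L : ℕ} (η : ℤ) (p : Fin K → Fin L → ℤ) (t : ℕ) : ℤ :=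
  ∑ k : Fin K, ∑ l : Fin L, p k l * ((t : ℤ) ^ (k : ℕ) * η ^ ((l : ℕ) * t))

lemma Gf_Gd {K L : ℕ} {q η : ℤ} (h : q ∣ η - 1) (p : Fin K → Fin L → ℤ) :
    Gd q (K - 1) (Gf η p) := by
  have : Gf η p = ∑ k : Fin K, ∑ l : Fin L, (p k l) • (fun t : ℕ => (t : ℤ) ^ (k : ℕ) * η ^ ((l : ℕ) * t)) := by
    ext t
    simp [Gf, Finset.sum_apply]
  rw [this]
  refine Gd.sum _ _ fun k _ => Gd.sum _ _ fun l _ => Gd.smul ?_ _
  exact ((Gd_pow h l).mul_pow k).mono (by have := k.2; omega)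

lemma Gf_sub {K L : ℕ} (η : ℤ) (p p' : Fin K → Fin L → ℤ) :
    Gf η (fun k l => p k l - p' k l) = Gf η p - Gf η p' := by
  ext t
  simp only [Gf, Pi.sub_apply, sub_mul, sum_sub_distrib]

lemma iter_sub (f g : ℕ → ℤ) (j : ℕ) :
    (Δ_[1])^[j] (f - g) = (Δ_[1])^[j] f - (Δ_[1])^[j] g := by
  have h1 : f - g = f + (-1 : ℤ) • g := by ext; simp [sub_eq_add_neg]
  rw [h1, fwdDiff_iter_add, fwdDiff_iter_const_smul]
  ext; simp [sub_eq_add_neg]

/-- Siegel's lemma for the auxiliary function. -/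
lemma siegel {K L J H : ℕ} {q η : ℤ} (hq : 0 < q) (hη : q ∣ η - 1)
    (hH : q.toNat ^ ((K - 1) * J + J * (J + 1) / 2) < (H + 1) ^ (K * L)) :
    ∃ p : Fin K → Fin L → ℤ, p ≠ 0 ∧ (∀ k l, |p k l| ≤ H) ∧
      ∀ j < J + (K - 1), q ^ J ∣ (Δ_[1])^[j] (Gf η p) 0 := by
  classical
  -- exponents of the residue classes
  let ex : Fin (J + (K - 1)) → ℕ := fun j => min J (J - ((j : ℕ) - (K - 1)))
  let B : Type := (j : Fin (J + (K - 1))) → ZMod (q.toNat ^ ex j)
  have hq' : q.toNat ≠ 0 := by omega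
  have : ∀ j, NeZero (q.toNat ^ ex j) := fun j => ⟨pow_ne_zero _ hq'⟩
  let A : Type := Fin K → Fin L → Fin (H + 1)
  let F : A → B := fun a j =>
    (((Δ_[1])^[(j : ℕ)] (Gf η (fun k l => ((a k l : ℕ) : ℤ))) 0 / q ^ ((j : ℕ) - (K - 1)) : ℤ) :
      ZMod (q.toNat ^ ex j))
  have hex : ∑ j, ex j = (K - 1) * J + J * (J + 1) / 2 := by
    have h1 : ∑ j, ex j = ∑ j ∈ range (J + (K - 1)), min J (J - (j - (K - 1))) :=
      Fin.sum_univ_eq_sum_range (fun j => min J (J - (j - (K - 1)))) (J + (K - 1))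
    rw [h1, add_comm J, sum_range_add]
    congr 1
    · rw [sum_congr rfl (g := fun _ => J)]
      · simp
      · intro j hj
        have := mem_range.mp hj
        rw [show j - (K - 1) = 0 by omega]; simp
    · have h2 : ∑ x ∈ range J, min J (J - (K - 1 + x - (K - 1))) = ∑ x ∈ range J, (J - x) := by
        refine sum_congr rfl fun x _ => ?_
        rw [show K - 1 + x - (K - 1) = x by omega]; omega
      rw [h2]
      have h3 : ∑ x ∈ range J, (J - x) = ∑ x ∈ range (J + 1), x := by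
        rw [sum_range_succ', add_zero, ← sum_range_reflect]
        refine sum_congr rfl fun x hx => ?_
        have := mem_range.mp hx
        omega
      rw [h3, sum_range_id]
      rw [show J + 1 - 1 = J by omega, mul_comm]
  have hcard : Fintype.card B < Fintype.card A := by
    have h1 : Fintype.card B = q.toNat ^ ((K - 1) * J + J * (J + 1) / 2) := by
      simp only [B, Fintype.card_pi, ZMod.card]
      rw [prod_pow_eq_pow_sum, hex]
    have h2 : Fintype.card A = (H + 1) ^ (K * L) := by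
      simp only [A, Fintype.card_pi, Fintype.card_fin, prod_const, card_univ]
      rw [← pow_mul, mul_comm L K]
    rw [h1, h2]; exact hH
  obtain ⟨a, b, hab, hF⟩ := Fintype.exists_ne_map_eq_of_card_lt F hcard
  refine ⟨fun k l => ((a k l : ℕ) : ℤ) - ((b k l : ℕ) : ℤ), ?_, ?_, ?_⟩
  · intro h0
    apply hab
    ext k l
    have := congrFun (congrFun h0 k) l
    simp only [Pi.zero_apply] at this
    omega
  · intro k l
    have h1 := (a k l).2
    have h2 := (b k l).2
    simp only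
    rw [abs_le]; constructor <;> omega
  · intro j hj
    rw [Gf_sub, iter_sub, Pi.sub_apply]
    have h1 := congrFun hF ⟨j, hj⟩
    simp only [F] at h1
    rw [ZMod.intCast_eq_intCast_iff] at h1
    have h2 := h1.symm.dvd
    obtain ⟨x, hx⟩ := (Gf_Gd hη (fun k l => ((a k l : ℕ) : ℤ))) j
    obtain ⟨y, hy⟩ := (Gf_Gd hη (fun k l => ((b k l : ℕ) : ℤ))) j
    have hq0 : q ^ (j - (K - 1)) ≠ 0 := pow_ne_zero _ hq.ne'
    rw [hx, hy, Int.mul_ediv_cancel_left _ hq0, Int.mul_ediv_cancel_left _ hq0] at h2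
    rw [hx, hy, ← mul_sub]
    have h3 : (q.toNat ^ ex ⟨j, hj⟩ : ℕ) = ((q.toNat : ℤ)) ^ ex ⟨j, hj⟩ := by push_cast; rfl
    rw [h3, Int.toNat_of_nonneg hq.le] at h2
    have h4 : q ^ J ∣ q ^ (j - (K - 1)) * q ^ ex ⟨j, hj⟩ := by
      rw [← pow_add]
      refine pow_dvd_pow q ?_
      simp only [ex]; omega
    exact h4.trans (mul_dvd_mul_left _ h2)

/-- The root `η = u ^ (1 / Y)` modulo `c ^ N`. -/
lemma exists_root {c u v X Y N α : ℕ} (hc : c.Prime) (hu : (c : ℤ) ^ α ∣ (u : ℤ) - 1) (hα : 1 ≤ α)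
    (hv : (c : ℤ) ∣ (v : ℤ) - 1) (hY : Nat.Coprime Y c)
    (hcong : (u : ℤ) ^ X ≡ (v : ℤ) ^ Y [ZMOD (c : ℤ) ^ N]) :
    ∃ η : ℤ, (c : ℤ) ^ α ∣ η - 1 ∧ η ^ Y ≡ u [ZMOD (c : ℤ) ^ N] ∧ η ^ X ≡ v [ZMOD (c : ℤ) ^ N] := by
  have hone : ∀ g : ℤ, (c : ℤ) ∣ g - 1 → g ^ (c ^ N) ≡ 1 [ZMOD (c : ℤ) ^ N] := by
    intro g hg
    refine (Int.modEq_iff_dvd.mpr ?_).symm
    have : ∀ n, (c : ℤ) ^ (n + 1) ∣ g ^ (c ^ n) - 1 := by
      intro n
      induction n with
      | zero => simpa using hg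
      | succ n ih =>
        have h1 : g ^ (c ^ (n + 1)) - 1 = (∑ i ∈ range c, (g ^ (c ^ n)) ^ i) * (g ^ (c ^ n) - 1) := by
          rw [geom_sum_mul, ← pow_mul, pow_succ]
        rw [h1, pow_succ', ]
        refine mul_dvd_mul ?_ ih
        have h2 : ∑ i ∈ range c, (g ^ (c ^ n)) ^ i ≡ ∑ i ∈ range c, 1 [ZMOD (c : ℤ)] := by
          refine Int.ModEq.sum fun i _ => ?_
          have h3 : g ^ (c ^ n) ≡ 1 [ZMOD (c : ℤ)] :=
            (Int.modEq_iff_dvd.mpr ((dvd_pow_self _ (by omega)).trans ih)).symm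
          simpa using h3.pow i
        have h4 : (∑ i ∈ range c, (1 : ℤ)) = c := by simp
        rw [h4] at h2
        have h5 := (Int.modEq_iff_dvd.mp h2)
        have h6 : (c : ℤ) ∣ (c : ℤ) - (c - ∑ i ∈ range c, (g ^ (c ^ n)) ^ i) := dvd_sub dvd_rfl h5
        simpa using h6
    exact (pow_dvd_pow _ (by omega)).trans (this N)
  -- an inverse of `Y` modulo `c ^ N`
  obtain ⟨y, m, hy⟩ : ∃ y m : ℕ, y * Y = 1 + m * c ^ N := by
    have hco : Nat.Coprime Y (c ^ N) := Nat.Coprime.pow_right N hY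
    have hYpos : 0 < Y ∨ c ^ N = 1 := by
      rcases Nat.eq_zero_or_pos Y with h | h
      · right; rw [h] at hco; simpa using hco
      · left; exact h
    rcases Nat.lt_or_ge 1 (c ^ N) with h1 | h1
    · obtain ⟨y, hy⟩ := Nat.exists_mul_mod_eq_one_of_coprime hco h1
      refine ⟨y, Y * y / c ^ N, ?_⟩
      have := Nat.div_add_mod (Y * y) (c ^ N)
      rw [hy.2] at this
      rw [mul_comm y Y, mul_comm _ (c ^ N)]; omega
    · have h2 : c ^ N = 1 := le_antisymm h1 (Nat.pos_of_ne_zero (pow_ne_zero _ hc.ne_zero))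
      by_cases hY0 : Y = 0
      · subst hY0
        exfalso
        have := hc.one_lt
        simp at hY
        omega
      · refine ⟨1, Y - 1, ?_⟩
        rw [h2]; omega
  refine ⟨(u : ℤ) ^ y, ?_, ?_, ?_⟩
  · exact hu.trans (by simpa using sub_dvd_pow_sub_pow (u : ℤ) 1 y)
  · rw [← pow_mul, hy, pow_add, pow_one, mul_comm m, pow_mul]
    have hu' : (c : ℤ) ∣ (u : ℤ) - 1 := (dvd_pow_self _ (by omega)).trans hu
    have := (hone u hu').pow m
    simpa using Int.ModEq.mul_left (u : ℤ) this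
  · have h1 : ((u : ℤ) ^ y) ^ X ≡ ((v : ℤ) ^ Y) ^ y [ZMOD (c : ℤ) ^ N] := by
      rw [← pow_mul, mul_comm, pow_mul]; exact hcong.pow y
    refine h1.trans ?_
    rw [← pow_mul, mul_comm, hy, pow_add, pow_one, mul_comm m, pow_mul]
    have := (hone v hv).pow m
    simpa using Int.ModEq.mul_left (v : ℤ) this

/-- **Core estimate.** Elementary Schneider method for `u ^ X ≡ v ^ Y` modulo `c ^ N`. -/
theorem schneider_core {c u v X Y N α K L J ρ H T W : ℕ} (hc : c.Prime)
    (hu1 : 1 < u) (hv1 : 1 ≤ v)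
    (hu : (c : ℤ) ^ α ∣ (u : ℤ) - 1) (hα : 1 ≤ α) (hv : (c : ℤ) ∣ (v : ℤ) - 1)
    (hY : Nat.Coprime Y c) (hcong : (u : ℤ) ^ X ≡ (v : ℤ) ^ Y [ZMOD (c : ℤ) ^ N])
    (hK : 1 ≤ K) (hL : 1 ≤ L)
    (hdist : ∀ r < ρ, ∀ s < ρ, ∀ r' < ρ, ∀ s' < ρ, r * Y + s * X = r' * Y + s' * X → r = r' ∧ s = s')
    (hρ : K * L ≤ ρ ^ 2)
    (hH : (c ^ α) ^ ((K - 1) * J + J * (J + 1) / 2) < (H + 1) ^ (K * L))
    (hT : (ρ + L) * Y + ρ * X ≤ T) (hW : u ^ (ρ + L) * v ^ ρ ≤ W)
    (hsize : K * L * H * T ^ (K - 1) * W ^ (L - 1) < c ^ (α * J)) (hN : α * J ≤ N) : False := by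
  classical
  obtain ⟨η, hη, hη1, hη2⟩ := exists_root hc hu hα hv hY hcong
  have hcpos : (0 : ℤ) < (c : ℤ) ^ α := by have := hc.pos; positivity
  obtain ⟨p, hp0, hpH, hpd⟩ := siegel (K := K) (L := L) (J := J) (H := H) hcpos hη (by
    have : (((c : ℤ) ^ α).toNat) = c ^ α := by
      rw [show ((c : ℤ) ^ α) = ((c ^ α : ℕ) : ℤ) by push_cast; rfl, Int.toNat_natCast]
    rw [this]; exact hH)
  have hdvd : ∀ t, ((c : ℤ) ^ α) ^ J ∣ Gf η p t := fun t => dvd_of_Gd (Gf_Gd hη p) hpd t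
  -- values
  have hval : ∀ r < ρ + L, ∀ s < ρ,
      ∑ k : Fin K, ∑ l : Fin L, p k l * (((r * Y + s * X : ℕ) : ℤ) ^ (k : ℕ) *
        ((u : ℤ) ^ r * (v : ℤ) ^ s) ^ (l : ℕ)) = 0 := by
    intro r hr s hs
    set Φ := ∑ k : Fin K, ∑ l : Fin L, p k l * (((r * Y + s * X : ℕ) : ℤ) ^ (k : ℕ) *
        ((u : ℤ) ^ r * (v : ℤ) ^ s) ^ (l : ℕ)) with hΦ
    have h1 : Φ ≡ Gf η p (r * Y + s * X) [ZMOD (c : ℤ) ^ N] := by
      rw [hΦ, Gf]
      refine Int.ModEq.sum fun k _ => Int.ModEq.sum fun l _ => Int.ModEq.mul_left _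
        (Int.ModEq.mul_left _ ?_)
      have h2 : η ^ ((l : ℕ) * (r * Y + s * X)) = ((η ^ Y) ^ r * (η ^ X) ^ s) ^ (l : ℕ) := by
        rw [← pow_mul, ← pow_mul, ← pow_add, ← pow_mul]
        congr 1; ring
      rw [h2]
      exact (((hη1.pow r).mul (hη2.pow s)).pow l).symm
    have h3 : (c : ℤ) ^ (α * J) ∣ Φ := by
      have h4 : (c : ℤ) ^ (α * J) ∣ Gf η p (r * Y + s * X) := by
        rw [pow_mul]; exact hdvd _
      have h5 := h1.symm.dvd
      have h6 : (c : ℤ) ^ (α * J) ∣ Φ - Gf η p (r * Y + s * X) := (pow_dvd_pow _ hN).trans h5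
      have := dvd_add h6 h4
      simpa using this
    by_contra hne
    have h7 : (c : ℤ) ^ (α * J) ≤ |Φ| := Int.le_of_dvd (abs_pos.mpr hne) ((dvd_abs _ _).mpr h3)
    have h8 : |Φ| ≤ K * L * H * T ^ (K - 1) * W ^ (L - 1) := by
      rw [hΦ]
      have ht0 : r * Y + s * X ≤ T := by
        refine le_trans ?_ hT
        gcongr
      have hT1 : r * Y + s * X = 0 ∨ 1 ≤ T := by omega
      have hw0 : u ^ r * v ^ s ≤ W := by
        refine le_trans ?_ hW
        gcongr
        all_goals omega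
      have hW1 : 1 ≤ W := by
        refine le_trans ?_ hw0
        have : 0 < u ^ r * v ^ s := by positivity
        omega
      have hterm : ∀ (k : Fin K) (l : Fin L), |p k l * (((r * Y + s * X : ℕ) : ℤ) ^ (k : ℕ) *
        ((u : ℤ) ^ r * (v : ℤ) ^ s) ^ (l : ℕ))| ≤ (H : ℤ) * ((T : ℤ) ^ (K - 1) * (W : ℤ) ^ (L - 1)) := by
        intro k l
        rw [abs_mul]
        refine mul_le_mul (hpH k l) ?_ (abs_nonneg _) (by positivity)
        rw [abs_of_nonneg (by positivity)]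
        refine mul_le_mul ?_ ?_ (by positivity) (by positivity)
        · have hT2 : 1 ≤ T := by
            have h9 : Y ≠ 0 ∨ X ≠ 0 := by
              by_contra h10
              push Not at h10
              have := hc.one_lt
              rw [h10.1] at hY
              simp at hY
              omega
            refine le_trans ?_ hT
            rcases h9 with h9 | h9
            · have : 1 ≤ (ρ + L) * Y := Nat.mul_pos (by omega) (Nat.pos_of_ne_zero h9)
              omega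
            · have : 1 ≤ ρ * X := Nat.mul_pos (by omega) (Nat.pos_of_ne_zero h9)
              omega
          have h11 : ((r * Y + s * X : ℕ) : ℤ) ^ (k : ℕ) ≤ (T : ℤ) ^ (k : ℕ) := by
            gcongr
          refine h11.trans ?_
          have := k.2
          exact pow_le_pow_right₀ (by exact_mod_cast hT2) (by omega)
        · have h11 : ((u : ℤ) ^ r * (v : ℤ) ^ s) ^ (l : ℕ) ≤ (W : ℤ) ^ (l : ℕ) := by
            gcongr
            exact_mod_cast hw0
          refine h11.trans ?_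
          have := l.2
          exact pow_le_pow_right₀ (by exact_mod_cast hW1) (by omega)
      calc |∑ k : Fin K, ∑ l : Fin L, p k l * (((r * Y + s * X : ℕ) : ℤ) ^ (k : ℕ) *
        ((u : ℤ) ^ r * (v : ℤ) ^ s) ^ (l : ℕ))|
          ≤ ∑ k : Fin K, ∑ l : Fin L, (H : ℤ) * ((T : ℤ) ^ (K - 1) * (W : ℤ) ^ (L - 1)) := by
            refine (abs_sum_le_sum_abs _ _).trans (sum_le_sum fun k _ => ?_)
            exact (abs_sum_le_sum_abs _ _).trans (sum_le_sum fun l _ => hterm k l)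
        _ = K * L * H * T ^ (K - 1) * W ^ (L - 1) := by
            simp only [sum_const, card_univ, Fintype.card_fin, nsmul_eq_mul]; ring
    have h9 : ((K * L * H * T ^ (K - 1) * W ^ (L - 1) : ℕ) : ℤ) < ((c ^ (α * J) : ℕ) : ℤ) := by
      exact_mod_cast hsize
    push_cast at h9
    linarith
  -- zero estimate
  let A : Fin L → ℚ[X] := fun l => ∑ k : Fin K, C ((p k l : ℤ) : ℚ) * Polynomial.X ^ (k : ℕ)
  have hAdeg : ∀ l, (A l).degree < K := fun l =>
    degree_sum_fin_lt (fun k : Fin K => ((p k l : ℤ) : ℚ))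
  let S : Finset (ℚ × ℚ) := ((range ρ) ×ˢ (range ρ)).image
    (fun rs => (((rs.1 * Y + rs.2 * X : ℕ) : ℚ), (u : ℚ) ^ rs.1 * (v : ℚ) ^ rs.2))
  have hScard : K * L ≤ (S.image Prod.fst).card := by
    have h1 : S.image Prod.fst = ((range ρ) ×ˢ (range ρ)).image
        (fun rs => ((rs.1 * Y + rs.2 * X : ℕ) : ℚ)) := by
      simp only [S, image_image]; rfl
    rw [h1, card_image_of_injOn]
    · rw [card_product, card_range, ← sq]; exact hρ
    · rintro ⟨r, s⟩ h1 ⟨r', s'⟩ h2 h3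
      simp only [coe_product, Set.mem_prod, mem_coe, mem_range] at h1 h2
      simp only [Nat.cast_inj] at h3
      obtain ⟨h4, h5⟩ := hdist r h1.1 s h1.2 r' h2.1 s' h2.2 h3
      rw [h4, h5]
  have hu0 : (0 : ℚ) < u := by exact_mod_cast (by omega : 0 < u)
  have hv0 : (0 : ℚ) < v := by exact_mod_cast (by omega : 0 < v)
  have hzero := zero_estimate A hAdeg (u : ℚ) (by exact_mod_cast hu1) (Y : ℚ) S hScard
    (by
      intro q hq
      obtain ⟨rs, _, rfl⟩ := mem_image.mp hq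
      simp only
      positivity)
    (by
      intro q hq j hj
      obtain ⟨⟨r, s⟩, hrs, rfl⟩ := mem_image.mp hq
      simp only [mem_product, mem_range] at hrs
      have h1 := hval (r + j) (by omega) s hrs.2
      have h2 : ((∑ k : Fin K, ∑ l : Fin L, p k l * ((((r + j) * Y + s * X : ℕ) : ℤ) ^ (k : ℕ) *
        ((u : ℤ) ^ (r + j) * (v : ℤ) ^ s) ^ (l : ℕ)) : ℤ) : ℚ) = 0 := by
        rw [h1]; simp
      rw [← h2, sum_comm]
      push_cast
      refine sum_congr rfl fun l _ => ?_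
      simp only [A, eval_finsetSum, eval_mul, eval_C, eval_pow, eval_X, sum_mul]
      refine sum_congr rfl fun k _ => ?_
      rw [pow_add]
      ring)
  apply hp0
  ext k l
  have h1 := hzero l
  have h2 : (A l).coeff k = ((p k l : ℤ) : ℚ) := by
    simp only [A, finsetSum_coeff, coeff_C_mul, coeff_X_pow]
    rw [sum_eq_single k]
    · simp
    · intro b _ hb
      rw [if_neg, mul_zero]
      intro h3
      exact hb (Fin.ext h3.symm)
    · simp
  rw [h1, coeff_zero] at h2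
  have : (p k l : ℤ) = 0 := by exact_mod_cast h2.symm
  simpa using this

end Pool.Agent.MP_09c87f_nt.Sch
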