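import Mathlib

open Finset

namespace Pool.Agent.MP_09c87f_nt

attribute [local instance] Matrix.seminormedAddCommGroup in
lemma siegel_basic {α β : Type*} [Fintype α] [Fintype β] (A : α → β → ℤ) (B : ℕ) (hB : 1 ≤ B)
    (hA : ∀ i j, |A i j| ≤ B) (hlt : Fintype.card α < Fintype.card β) :
    ∃ t : β → ℤ, t ≠ 0 ∧ (∀ i, ∑ j, A i j * t j = 0) ∧
      ∀ j, |t j| ≤ (((Fintype.card β * B) ^ (Fintype.card β) : ℕ) : ℤ) := by
  classical
  have hn : 1 ≤ Fintype.card β := by omega
  rcases Nat.eq_zero_or_pos (Fintype.card α) with h0 | hm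
  · refine ⟨fun _ => 1, ?_, ?_, ?_⟩
    · have : Nonempty β := Fintype.card_pos_iff.1 (by omega)
      obtain ⟨b⟩ := this
      intro h
      have := congrFun h b
      simp at this
    · intro i
      have := Fintype.card_eq_zero_iff.1 h0
      exact this.elim i
    · intro j
      have : 1 ≤ (Fintype.card β * B) ^ (Fintype.card β) :=
        Nat.one_le_pow _ _ (Nat.mul_pos hn hB)
      rw [abs_one]
      exact_mod_cast this
  · obtain ⟨t, ht0, htA, hbd⟩ := Int.Matrix.exists_ne_zero_int_vec_norm_le (Matrix.of A) hlt hm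
    refine ⟨t, ht0, ?_, ?_⟩
    · intro i
      have := congrFun htA i
      simpa [Matrix.mulVec, dotProduct] using this
    · intro j
      have h1 : ‖t j‖ ≤ ‖t‖ := norm_le_pi_norm t j
      have h2 : ‖(Matrix.of A)‖ ≤ (B : ℝ) := by
        rw [Matrix.norm_le_iff (by positivity)]
        intro i j
        simp only [Matrix.of_apply, Int.norm_eq_abs]
        exact_mod_cast hA i j
      have hB' : (1 : ℝ) ≤ B := by exact_mod_cast hB
      have h3 : max 1 ‖(Matrix.of A)‖ ≤ (B : ℝ) := max_le hB' h2
      have hnR : (1 : ℝ) ≤ (Fintype.card β : ℝ) := by exact_mod_cast hn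
      have hltR : (Fintype.card α : ℝ) + 1 ≤ (Fintype.card β : ℝ) := by exact_mod_cast hlt
      have h4 : ((Fintype.card β : ℝ) * max 1 ‖(Matrix.of A)‖) ^
          ((Fintype.card α : ℝ) / ((Fintype.card β : ℝ) - Fintype.card α)) ≤
          ((Fintype.card β : ℝ) * B) ^ (Fintype.card β : ℝ) := by
        have hb1 : (1 : ℝ) ≤ (Fintype.card β : ℝ) * B := one_le_mul_of_one_le_of_one_le hnR hB'
        have e0 : (0 : ℝ) ≤ (Fintype.card α : ℝ) / ((Fintype.card β : ℝ) - Fintype.card α) := by
          apply div_nonneg (by positivity)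
          linarith
        calc _ ≤ ((Fintype.card β : ℝ) * B) ^
              ((Fintype.card α : ℝ) / ((Fintype.card β : ℝ) - Fintype.card α)) := by
              apply Real.rpow_le_rpow (by positivity) _ e0
              exact mul_le_mul_of_nonneg_left h3 (by positivity)
          _ ≤ _ := by
              apply Real.rpow_le_rpow_of_exponent_le hb1
              rw [div_le_iff₀ (by linarith)]
              have : (0 : ℝ) ≤ (Fintype.card β : ℝ) := by positivity
              nlinarith
      rw [Real.rpow_natCast] at h4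
      have h5 : ‖t j‖ ≤ ((Fintype.card β : ℝ) * B) ^ (Fintype.card β) := h1.trans (hbd.trans h4)
      rw [Int.norm_eq_abs] at h5
      exact_mod_cast h5

lemma siegel_rank {α β : Type*} [Fintype α] [Fintype β] (A : α → β → ℤ) (B : ℕ) (hB : 1 ≤ B)
    (hA : ∀ i j, |A i j| ≤ B) (v : β → ℚ) (hv : v ≠ 0)
    (hAv : ∀ i, ∑ j, (A i j : ℚ) * v j = 0) :
    ∃ t : β → ℤ, t ≠ 0 ∧ (∀ i, ∑ j, A i j * t j = 0) ∧
      ∀ j, |t j| ≤ (((Fintype.card β * B) ^ (Fintype.card β) : ℕ) : ℤ) := by
  classical
  let r : α → (β → ℚ) := fun i j => (A i j : ℚ)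
  obtain ⟨b, hb, hspan, hli⟩ := exists_linearIndependent ℚ (Set.range r)
  have hfin : b.Finite := (Set.finite_range r).subset hb
  have hbF : Fintype b := hfin.fintype
  have hch : ∀ x : b, ∃ i, r i = x := fun x => hb x.2
  choose f hf using hch
  -- the functional given by a vector
  let φ : (β → ℚ) → ((β → ℚ) →ₗ[ℚ] ℚ) := fun v => ∑ j, v j • LinearMap.proj j
  have hφ : ∀ v w, φ v w = ∑ j, w j * v j := by
    intro v w
    simp only [φ, LinearMap.coe_sum, Finset.sum_apply, LinearMap.smul_apply, LinearMap.proj_apply,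
      smul_eq_mul]
    exact Finset.sum_congr rfl (fun j _ => mul_comm _ _)
  have hcard : Fintype.card b < Fintype.card β := by
    have h1 : Module.finrank ℚ (Submodule.span ℚ b) = Fintype.card b := by
      rw [finrank_span_set_eq_card hli, Set.toFinset_card]
    have h2 : Submodule.span ℚ b ≤ LinearMap.ker (φ v) := by
      rw [hspan, Submodule.span_le]
      rintro _ ⟨i, rfl⟩
      simp only [SetLike.mem_coe, LinearMap.mem_ker, hφ]
      exact hAv i
    have h3 : LinearMap.ker (φ v) ≠ ⊤ := by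
      intro h
      apply hv
      funext j
      have h4 : (Pi.single j (1 : ℚ) : β → ℚ) ∈ LinearMap.ker (φ v) := by rw [h]; trivial
      rw [LinearMap.mem_ker, hφ] at h4
      simpa [Pi.single_apply] using h4
    have h5 : Module.finrank ℚ (LinearMap.ker (φ v)) < Module.finrank ℚ (β → ℚ) :=
      Submodule.finrank_lt h3
    rw [Module.finrank_fintype_fun_eq_card] at h5
    have h6 := Submodule.finrank_mono h2
    omega
  obtain ⟨t, ht0, htA, htb⟩ := siegel_basic (fun x : b => A (f x)) B hB (fun i j => hA _ _) hcard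
  refine ⟨t, ht0, ?_, htb⟩
  intro i
  have h1 : Submodule.span ℚ b ≤ LinearMap.ker (φ (fun j => (t j : ℚ))) := by
    rw [Submodule.span_le]
    intro x hx
    simp only [SetLike.mem_coe, LinearMap.mem_ker, hφ]
    have h2 := htA ⟨x, hx⟩
    have h3 := hf ⟨x, hx⟩
    rw [← (show r (f ⟨x, hx⟩) = x from h3)]
    simp only [r]
    exact_mod_cast h2
  have h2 : r i ∈ Submodule.span ℚ b := by
    rw [hspan]; exact Submodule.subset_span ⟨i, rfl⟩
  have h3 := h1 h2
  rw [LinearMap.mem_ker, hφ] at h3
  simp only [r] at h3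
  exact_mod_cast h3

end Pool.Agent.MP_09c87f_nt
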