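import Pool.Agent.MP_09c87f_nt.Bd
import Pool.Agent.MP_09c87f_nt.Siegel

open Polynomial

namespace Pool.Agent.MP_09c87f_nt

section bm

variable {R S : Type*} [CommRing R] [CommRing S]

/-- base change of bivariate polynomials -/
noncomputable def bm (f : R →+* S) : R[X][X] →+* S[X][X] := mapRingHom (mapRingHom f)

lemma bm_coeff (f : R →+* S) (F : R[X][X]) (i j : ℕ) :
    ((bm f F).coeff i).coeff j = f ((F.coeff i).coeff j) := by
  simp [bm]

lemma bm_t10 (f : R →+* S) (F : R[X][X]) : bm f (t10 F) = t10 (bm f F) := by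
  simp only [bm, t10, coe_mapRingHom, coe_compRingHom_apply]
  rw [Polynomial.map_comp]
  simp

lemma bm_t11 (f : R →+* S) (F : R[X][X]) : bm f (t11 F) = t11 (bm f F) := by
  have h : t11 F = mapRingHom (compRingHom (1 - X)) (t10 F) := rfl
  have h2 : t11 (bm f F) = mapRingHom (compRingHom (1 - X)) (t10 (bm f F)) := rfl
  rw [h, h2, ← bm_t10]
  simp only [bm, coe_mapRingHom, Polynomial.map_map]
  congr 1
  apply RingHom.ext
  intro p
  simp only [RingHom.comp_apply, coe_mapRingHom, coe_compRingHom_apply]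
  rw [Polynomial.map_comp]
  simp

lemma bm_ne_zero {f : R →+* S} (hf : Function.Injective f) {F : R[X][X]} (hF : F ≠ 0) :
    bm f F ≠ 0 := by
  obtain ⟨i, j, h⟩ := (ne_zero_iff_coeff F).1 hF
  apply (ne_zero_iff_coeff _).2
  refine ⟨i, j, ?_⟩
  rw [bm_coeff]
  intro h0
  exact h (hf (by rw [h0, map_zero]))

lemma bm_cond (f : R →+* S) {W : Wts} {θ : Thr} {F : R[X][X]} (h : Cond W θ F) :
    Cond W θ (bm f F) := by
  obtain ⟨h1, h2, h3, h4⟩ := h
  refine ⟨?_, ?_, ?_, ?_⟩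
  · intro i j hij; rw [bm_coeff, h1 i j hij, map_zero]
  · intro i j hij; rw [bm_coeff, h2 i j hij, map_zero]
  · intro i j hij; rw [← bm_t11, bm_coeff, h3 i j hij, map_zero]
  · intro i j hij; rw [← bm_t10, bm_coeff, h4 i j hij, map_zero]

lemma bm_box (f : R →+* S) {I J : ℕ} {F : R[X][X]} (h : Box I J F) : Box I J (bm f F) := by
  apply box_of_coeff
  intro i j hij
  apply h.coeff
  intro h0
  rw [bm_coeff, h0, map_zero] at hij
  exact hij rfl

end bm

/-- the index box -/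
def bx (I J : ℕ) : Finset (ℕ × ℕ) := Finset.range (I + 1) ×ˢ Finset.range (J + 1)

lemma mem_bx {I J : ℕ} {e : ℕ × ℕ} : e ∈ bx I J ↔ e.1 ≤ I ∧ e.2 ≤ J := by
  simp [bx, Nat.lt_succ_iff]

lemma card_bx (I J : ℕ) : (bx I J).card = (I + 1) * (J + 1) := by
  simp [bx]

def S0 (W : Wts) (θ : Thr) (I J : ℕ) : Finset (ℕ × ℕ) :=
  (bx I J).filter (fun e => θ.VT < W.p1 * e.1 + W.p2 * e.2)
def S1 (W : Wts) (θ : Thr) (I J : ℕ) : Finset (ℕ × ℕ) :=
  (bx I J).filter (fun e => W.q1 * e.1 + W.q2 * e.2 < θ.V0)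
def S2 (W : Wts) (θ : Thr) (I J : ℕ) : Finset (ℕ × ℕ) :=
  (bx I J).filter (fun e => W.r1 * e.1 + W.r2 * e.2 < θ.V1)
def S3 (W : Wts) (θ : Thr) (I J : ℕ) : Finset (ℕ × ℕ) :=
  (bx I J).filter (fun e => W.u1 * e.1 + W.u2 * e.2 < θ.VS)

/-- the monomial with exponents `e` -/
noncomputable def mon (R : Type*) [CommRing R] (e : ℕ × ℕ) : R[X][X] :=
  monomial e.1 (monomial e.2 (1 : R))

/-- polynomial with prescribed coefficients in the box -/
noncomputable def mk {R : Type*} [CommRing R] (I J : ℕ) (t : bx I J → R) : R[X][X] :=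
  ∑ b : bx I J, C (C (t b)) * mon R b

section mkl
variable {R : Type*} [CommRing R]

lemma mon_coeff (e : ℕ × ℕ) (i j : ℕ) :
    ((mon R e).coeff i).coeff j = if e = (i, j) then 1 else 0 := by
  obtain ⟨a, b⟩ := e
  simp only [mon, coeff_monomial, Prod.mk.injEq]
  by_cases h1 : a = i
  · by_cases h2 : b = j <;> simp [h1, h2, coeff_monomial]
  · simp [h1]

lemma CC_coeff (r : R) (F : R[X][X]) (i j : ℕ) :
    ((C (C r) * F).coeff i).coeff j = r * (F.coeff i).coeff j := by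
  rw [coeff_C_mul, coeff_C_mul]

lemma finset_coeff {ι : Type*} (s : Finset ι) (f : ι → R[X][X]) (i j : ℕ) :
    ((∑ a ∈ s, f a).coeff i).coeff j = ∑ a ∈ s, ((f a).coeff i).coeff j := by
  rw [finset_sum_coeff, finset_sum_coeff]

lemma mk_coeff (I J : ℕ) (t : bx I J → R) (e : ℕ × ℕ) (he : e ∈ bx I J) :
    ((mk I J t).coeff e.1).coeff e.2 = t ⟨e, he⟩ := by
  rw [mk, finset_coeff]
  rw [Finset.sum_eq_single (⟨e, he⟩ : bx I J)]
  · rw [CC_coeff, mon_coeff]; simp
  · intro b _ hb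
    rw [CC_coeff, mon_coeff, if_neg, mul_zero]
    intro h
    apply hb
    ext1
    exact h
  · intro h; exact absurd (Finset.mem_univ _) h

lemma mk_coeff' (I J : ℕ) (t : bx I J → R) (i j : ℕ) (he : (i, j) ∉ bx I J) :
    ((mk I J t).coeff i).coeff j = 0 := by
  rw [mk, finset_coeff]
  apply Finset.sum_eq_zero
  intro b _
  rw [CC_coeff, mon_coeff, if_neg, mul_zero]
  rintro h
  exact he (h ▸ b.2)

lemma mk_box (I J : ℕ) (t : bx I J → R) : Box I J (mk I J t) := by
  apply box_of_coeff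
  intro i j hij
  by_contra h
  apply hij
  apply mk_coeff'
  rw [mem_bx]
  exact h

lemma mk_eq {I J : ℕ} {F : R[X][X]} (hF : Box I J F) :
    mk I J (fun b => (F.coeff b.1.1).coeff b.1.2) = F := by
  ext i j
  by_cases h : (i, j) ∈ bx I J
  · exact mk_coeff I J _ (i, j) h
  · rw [mk_coeff' I J _ i j h]
    by_contra h0
    apply h
    rw [mem_bx]
    exact hF.coeff (fun h' => h0 h'.symm)

lemma mk_ne_zero {I J : ℕ} {t : bx I J → R} (ht : t ≠ 0) : mk I J t ≠ 0 := by
  obtain ⟨b, hb⟩ := Function.ne_iff.1 ht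
  apply (ne_zero_iff_coeff _).2
  refine ⟨b.1.1, b.1.2, ?_⟩
  rw [mk_coeff I J t b.1 b.2]
  exact hb

lemma hom_mk (Φ : R[X][X] →+* R[X][X]) (hΦ : ∀ r, Φ (C (C r)) = C (C r)) (I J : ℕ)
    (t : bx I J → R) (i j : ℕ) :
    ((Φ (mk I J t)).coeff i).coeff j =
      ∑ b : bx I J, t b * ((Φ (mon R b)).coeff i).coeff j := by
  rw [mk, map_sum, finset_coeff]
  apply Finset.sum_congr rfl
  intro b _
  rw [map_mul, hΦ, CC_coeff]

lemma t10_CC (r : R) : t10 (C (C r)) = C (C r) := by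
  simp [t10]

lemma t11_CC (r : R) : t11 (C (C r)) = C (C r) := by
  simp [t11, t10]

lemma bm_mon {S : Type*} [CommRing S] (f : R →+* S) (e : ℕ × ℕ) : bm f (mon R e) = mon S e := by
  simp [bm, mon]

end mkl

/-- the system of linear equations -/
noncomputable def sysA (W : Wts) (θ : Thr) (I J : ℕ) :
    (S0 W θ I J ⊕ S1 W θ I J) ⊕ (S2 W θ I J ⊕ S3 W θ I J) → bx I J → ℤ
  | .inl (.inl e), b => ((mon ℤ b).coeff e.1.1).coeff e.1.2
  | .inl (.inr e), b => ((mon ℤ b).coeff e.1.1).coeff e.1.2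
  | .inr (.inl e), b => ((t11 (mon ℤ b)).coeff e.1.1).coeff e.1.2
  | .inr (.inr e), b => ((t10 (mon ℤ b)).coeff e.1.1).coeff e.1.2

lemma sysA_bd (W : Wts) (θ : Thr) (I J : ℕ) (e) (b : bx I J) :
    |sysA W θ I J e b| ≤ ((2 ^ (I + J) : ℕ) : ℤ) := by
  have hb := mem_bx.1 b.2
  have h1 : (1 : ℤ) ≤ ((2 ^ (I + J) : ℕ) : ℤ) := by
    exact_mod_cast Nat.one_le_two_pow
  match e with
  | .inl (.inl e) => exact (bd_monomial _ _ _ _).trans h1
  | .inl (.inr e) => exact (bd_monomial _ _ _ _).trans h1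
  | .inr (.inl e) =>
    refine (bd_t11_monomial _ _ _ _).trans ?_
    push_cast
    exact pow_le_pow_right₀ (by norm_num) (by omega)
  | .inr (.inr e) =>
    refine (bd_t10_monomial _ _ _ _).trans ?_
    push_cast
    exact pow_le_pow_right₀ (by norm_num) (by omega)

lemma cond_of_sys (W : Wts) (θ : Thr) (I J : ℕ) (t : bx I J → ℤ)
    (h : ∀ e, ∑ b, sysA W θ I J e b * t b = 0) : Cond W θ (mk I J t) := by
  have hbox := mk_box I J t
  refine ⟨?_, ?_, ?_, ?_⟩
  · intro i j hij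
    by_cases hb : (i, j) ∈ bx I J
    · have h1 := h (.inl (.inl ⟨(i, j), by rw [S0, Finset.mem_filter]; exact ⟨hb, hij⟩⟩))
      have h2 := hom_mk (RingHom.id ℤ[X][X]) (fun r => rfl) I J t i j
      rw [RingHom.id_apply] at h2
      rw [h2, ← h1]
      exact Finset.sum_congr rfl (fun b _ => mul_comm _ _)
    · exact mk_coeff' I J t i j hb
  · intro i j hij
    by_cases hb : (i, j) ∈ bx I J
    · have h1 := h (.inl (.inr ⟨(i, j), by rw [S1, Finset.mem_filter]; exact ⟨hb, hij⟩⟩))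
      have h2 := hom_mk (RingHom.id ℤ[X][X]) (fun r => rfl) I J t i j
      rw [RingHom.id_apply] at h2
      rw [h2, ← h1]
      exact Finset.sum_congr rfl (fun b _ => mul_comm _ _)
    · exact mk_coeff' I J t i j hb
  · intro i j hij
    by_cases hb : (i, j) ∈ bx I J
    · have h1 := h (.inr (.inl ⟨(i, j), by rw [S2, Finset.mem_filter]; exact ⟨hb, hij⟩⟩))
      rw [hom_mk t11 t11_CC, ← h1]
      exact Finset.sum_congr rfl (fun b _ => mul_comm _ _)
    · by_contra h0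
      exact hb (mem_bx.2 (hbox.t11.coeff h0))
  · intro i j hij
    by_cases hb : (i, j) ∈ bx I J
    · have h1 := h (.inr (.inr ⟨(i, j), by rw [S3, Finset.mem_filter]; exact ⟨hb, hij⟩⟩))
      rw [hom_mk t10 t10_CC, ← h1]
      exact Finset.sum_congr rfl (fun b _ => mul_comm _ _)
    · by_contra h0
      exact hb (mem_bx.2 (hbox.t10.coeff h0))

/-- the height bound coming from Siegel's lemma -/
def HH (I J : ℕ) : ℕ := ((I + 1) * (J + 1) * 2 ^ (I + J)) ^ ((I + 1) * (J + 1))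

lemma small_of_solution (W : Wts) (θ : Thr) (I J : ℕ) (t : bx I J → ℤ) (ht : t ≠ 0)
    (h : ∀ e, ∑ b, sysA W θ I J e b * t b = 0)
    (hb : ∀ b, |t b| ≤ (((Fintype.card (bx I J) * 2 ^ (I + J)) ^ (Fintype.card (bx I J)) : ℕ) : ℤ)) :
    ∃ F : ℤ[X][X], F ≠ 0 ∧ Box I J F ∧ Bd (HH I J) F ∧ Cond W θ F := by
  refine ⟨mk I J t, mk_ne_zero ht, mk_box I J t, ?_, cond_of_sys W θ I J t h⟩
  rw [Fintype.card_coe, card_bx] at hb
  intro i j
  by_cases hm : (i, j) ∈ bx I J
  · have := mk_coeff I J t (i, j) hm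
    simp only at this
    rw [this]
    exact hb _
  · rw [mk_coeff' I J t i j hm, abs_zero]
    positivity

lemma exists_small (W : Wts) (θ : Thr) (I J : ℕ)
    (hcount : (S0 W θ I J).card + (S1 W θ I J).card + ((S2 W θ I J).card + (S3 W θ I J).card) <
      (I + 1) * (J + 1)) :
    ∃ F : ℤ[X][X], F ≠ 0 ∧ Box I J F ∧ Bd (HH I J) F ∧ Cond W θ F := by
  obtain ⟨t, ht, h, hb⟩ := siegel_basic (sysA W θ I J) (2 ^ (I + J)) Nat.one_le_two_pow
    (sysA_bd W θ I J) (by
      simp only [Fintype.card_sum, Fintype.card_coe, card_bx]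
      exact hcount)
  exact small_of_solution W θ I J t ht h hb

lemma exists_small_of_rat (W : Wts) (θ : Thr) (I J : ℕ) (G : ℚ[X][X]) (hG : G ≠ 0)
    (hbox : Box I J G) (hc : Cond W θ G) :
    ∃ F : ℤ[X][X], F ≠ 0 ∧ Box I J F ∧ Bd (HH I J) F ∧ Cond W θ F := by
  have hmk := mk_eq hbox
  set v : bx I J → ℚ := fun b => (G.coeff b.1.1).coeff b.1.2 with hv
  have hv0 : v ≠ 0 := by
    intro h0
    apply hG
    rw [← hmk, h0]
    simp [mk]
  have key : ∀ (e) (b : bx I J), (sysA W θ I J e b : ℚ) =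
      match e with
      | .inl (.inl e) => ((mon ℚ b).coeff e.1.1).coeff e.1.2
      | .inl (.inr e) => ((mon ℚ b).coeff e.1.1).coeff e.1.2
      | .inr (.inl e) => ((t11 (mon ℚ b)).coeff e.1.1).coeff e.1.2
      | .inr (.inr e) => ((t10 (mon ℚ b)).coeff e.1.1).coeff e.1.2 := by
    intro e b
    match e with
    | .inl (.inl e) =>
      simp only [sysA]
      rw [← bm_mon (Int.castRingHom ℚ), bm_coeff]; rfl
    | .inl (.inr e) =>
      simp only [sysA]
      rw [← bm_mon (Int.castRingHom ℚ), bm_coeff]; rfl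
    | .inr (.inl e) =>
      simp only [sysA]
      rw [← bm_mon (Int.castRingHom ℚ), ← bm_t11, bm_coeff]; rfl
    | .inr (.inr e) =>
      simp only [sysA]
      rw [← bm_mon (Int.castRingHom ℚ), ← bm_t10, bm_coeff]; rfl
  obtain ⟨t, ht, h, hb⟩ := siegel_rank (sysA W θ I J) (2 ^ (I + J)) Nat.one_le_two_pow
    (sysA_bd W θ I J) v hv0 (by
      obtain ⟨c1, c2, c3, c4⟩ := hc
      intro e
      simp only [key]
      match e with
      | .inl (.inl e) =>
        have h2 := hom_mk (RingHom.id ℚ[X][X]) (fun r => rfl) I J v e.1.1 e.1.2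
        rw [RingHom.id_apply, hmk, c1 _ _ (Finset.mem_filter.1 e.2).2] at h2
        rw [h2]
        exact Finset.sum_congr rfl (fun b _ => mul_comm _ _)
      | .inl (.inr e) =>
        have h2 := hom_mk (RingHom.id ℚ[X][X]) (fun r => rfl) I J v e.1.1 e.1.2
        rw [RingHom.id_apply, hmk, c2 _ _ (Finset.mem_filter.1 e.2).2] at h2
        rw [h2]
        exact Finset.sum_congr rfl (fun b _ => mul_comm _ _)
      | .inr (.inl e) =>
        have h2 := hom_mk t11 t11_CC I J v e.1.1 e.1.2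
        rw [hmk, c3 _ _ (Finset.mem_filter.1 e.2).2] at h2
        rw [h2]
        exact Finset.sum_congr rfl (fun b _ => mul_comm _ _)
      | .inr (.inr e) =>
        have h2 := hom_mk t10 t10_CC I J v e.1.1 e.1.2
        rw [hmk, c4 _ _ (Finset.mem_filter.1 e.2).2] at h2
        rw [h2]
        exact Finset.sum_congr rfl (fun b _ => mul_comm _ _))
  exact small_of_solution W θ I J t ht h hb

end Pool.Agent.MP_09c87f_nt
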