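import Pool.Agent.MP_09c87f_nt.PF3

open Polynomial

namespace Pool.Agent.MP_09c87f_nt

/-- explicit integral form -/
lemma int_sum {I J W : ℕ} (G : ℤ[X][X]) (hG : Box I J G) (b c y z v w : ℕ) (hc : 0 < c)
    (hT : ∀ i j, (G.coeff i).coeff j ≠ 0 → i * z + j * w ≤ W) :
    ((∑ e ∈ bx I J, (G.coeff e.1).coeff e.2 * (b : ℤ) ^ (y * e.1 + v * e.2) *
      (c : ℤ) ^ (W - (e.1 * z + e.2 * w)) : ℤ) : ℝ) = (c : ℝ) ^ W *
      (bm (Int.castRingHom ℝ) G).evalEval ((b : ℝ) ^ v / (c : ℝ) ^ w)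
        ((b : ℝ) ^ y / (c : ℝ) ^ z) := by
  rw [box_evalEval (bm_box _ hG), bx, Finset.sum_product]
  push_cast
  rw [Finset.mul_sum]
  apply Finset.sum_congr rfl
  intro i _
  rw [Finset.mul_sum]
  apply Finset.sum_congr rfl
  intro j _
  rw [bm_coeff]
  simp only [eq_intCast]
  by_cases h0 : (G.coeff i).coeff j = 0
  · rw [h0]; simp
  · have h1 := hT i j h0
    have hcR : (c : ℝ) ≠ 0 := by exact_mod_cast hc.ne'
    have h2 : (c : ℝ) ^ W = (c : ℝ) ^ (W - (i * z + j * w)) *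
        ((c : ℝ) ^ (i * z) * (c : ℝ) ^ (j * w)) := by
      rw [← pow_add, ← pow_add, Nat.sub_add_cancel h1]
    rw [h2, div_pow, div_pow, ← pow_mul, ← pow_mul, ← pow_mul, ← pow_mul, pow_add,
      mul_comm z i, mul_comm w j]
    field_simp

theorem two_terms (a c x z u w : ℕ) (ha : 2 ≤ a) (hc : 2 ≤ c) (hac : a.Coprime c)
    (F : ℤ[X][X]) (I J K : ℕ) (hF0 : F ≠ 0) (hFb : Box I J F) (hFB : Bd K F)
    (hz : (bm (Int.castRingHom ℝ) F).evalEval ((a : ℝ) ^ u / (c : ℝ) ^ w)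
      ((a : ℝ) ^ x / (c : ℝ) ^ z) = 0) :
    ∃ i0 j0 i1 j1 d : ℕ, i0 ≤ I ∧ j0 ≤ J ∧ i1 ≤ I ∧ j1 ≤ J ∧ (i0, j0) ≠ (i1, j1) ∧
      c ^ d ≤ K ∧ i0 * z + j0 * w = i1 * z + j1 * w + d := by
  classical
  set T := (bx I J).filter (fun e => (F.coeff e.1).coeff e.2 ≠ 0) with hT
  have hTne : T.Nonempty := by
    obtain ⟨i, j, hij⟩ := (ne_zero_iff_coeff F).1 hF0
    exact ⟨(i, j), by rw [hT, Finset.mem_filter, mem_bx]; exact ⟨hFb.coeff hij, hij⟩⟩
  obtain ⟨e0, he0, hmax⟩ := T.exists_max_image (fun e => e.1 * z + e.2 * w) hTne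
  have he0' := Finset.mem_filter.1 he0
  set W := e0.1 * z + e0.2 * w with hW
  have hTW : ∀ i j, (F.coeff i).coeff j ≠ 0 → i * z + j * w ≤ W := by
    intro i j hij
    exact hmax (i, j) (by rw [hT, Finset.mem_filter, mem_bx]; exact ⟨hFb.coeff hij, hij⟩)
  have hsum := int_sum F hFb a c x z u w (by omega) hTW
  rw [hz, mul_zero] at hsum
  have hsumZ : ∑ e ∈ bx I J, (F.coeff e.1).coeff e.2 * (a : ℤ) ^ (x * e.1 + u * e.2) *
      (c : ℤ) ^ (W - (e.1 * z + e.2 * w)) = 0 := by exact_mod_cast hsum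
  rw [← Finset.add_sum_erase _ _ he0'.1] at hsumZ
  by_cases hT2 : (T.erase e0).Nonempty
  · obtain ⟨e1, he1, hmax1⟩ := (T.erase e0).exists_max_image (fun e => e.1 * z + e.2 * w) hT2
    have he1T := Finset.mem_of_mem_erase he1
    have he1' := Finset.mem_filter.1 he1T
    have hle : e1.1 * z + e1.2 * w ≤ W := hmax e1 he1T
    refine ⟨e0.1, e0.2, e1.1, e1.2, W - (e1.1 * z + e1.2 * w), (mem_bx.1 he0'.1).1,
      (mem_bx.1 he0'.1).2, (mem_bx.1 he1'.1).1, (mem_bx.1 he1'.1).2, ?_, ?_, ?_⟩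
    · intro h
      exact (Finset.ne_of_mem_erase he1) h.symm
    · have hdvd : (c : ℤ) ^ (W - (e1.1 * z + e1.2 * w)) ∣ ∑ e ∈ (bx I J).erase e0,
          (F.coeff e.1).coeff e.2 * (a : ℤ) ^ (x * e.1 + u * e.2) *
          (c : ℤ) ^ (W - (e.1 * z + e.2 * w)) := by
        apply Finset.dvd_sum
        intro e he
        by_cases h0 : (F.coeff e.1).coeff e.2 = 0
        · rw [h0]; simp
        · have heT : e ∈ T.erase e0 := by
            rw [Finset.mem_erase, hT, Finset.mem_filter]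
            exact ⟨Finset.ne_of_mem_erase he, Finset.mem_of_mem_erase he, h0⟩
          have := hmax1 e heT
          apply Dvd.dvd.mul_left
          apply pow_dvd_pow
          omega
      have hdvd2 : (c : ℤ) ^ (W - (e1.1 * z + e1.2 * w)) ∣
          (F.coeff e0.1).coeff e0.2 * (a : ℤ) ^ (x * e0.1 + u * e0.2) := by
        have h3 : W - (e0.1 * z + e0.2 * w) = 0 := by omega
        rw [h3, pow_zero, mul_one] at hsumZ
        rw [eq_neg_of_add_eq_zero_left hsumZ]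
        exact hdvd.neg_right
      have hcop : IsCoprime ((c : ℤ) ^ (W - (e1.1 * z + e1.2 * w)))
          ((a : ℤ) ^ (x * e0.1 + u * e0.2)) := by
        apply IsCoprime.pow
        exact Nat.isCoprime_iff_coprime.2 hac.symm
      have hdvd3 := hcop.dvd_of_dvd_mul_right hdvd2
      have h4 := Int.le_of_dvd (abs_pos.2 he0'.2) ((dvd_abs _ _).2 hdvd3)
      have h5 := h4.trans (hFB e0.1 e0.2)
      exact_mod_cast h5
    · omega
  · exfalso
    rw [Finset.not_nonempty_iff_eq_empty] at hT2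
    have hrest : ∑ e ∈ (bx I J).erase e0, (F.coeff e.1).coeff e.2 *
        (a : ℤ) ^ (x * e.1 + u * e.2) * (c : ℤ) ^ (W - (e.1 * z + e.2 * w)) = 0 := by
      apply Finset.sum_eq_zero
      intro e he
      by_cases h0 : (F.coeff e.1).coeff e.2 = 0
      · rw [h0]; simp
      · exfalso
        have heT : e ∈ T.erase e0 := by
          rw [Finset.mem_erase, hT, Finset.mem_filter]
          exact ⟨Finset.ne_of_mem_erase he, Finset.mem_of_mem_erase he, h0⟩
        rw [hT2] at heT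
        simp at heT
    rw [hrest, add_zero] at hsumZ
    have haZ : (a : ℤ) ≠ 0 := by exact_mod_cast (by omega : a ≠ 0)
    have hcZ : (c : ℤ) ≠ 0 := by exact_mod_cast (by omega : c ≠ 0)
    exact (mul_ne_zero (mul_ne_zero he0'.2 (pow_ne_zero _ haZ)) (pow_ne_zero _ hcZ)) hsumZ

/-- rational root bound -/
theorem root_bound (a c x z : ℕ) (hc : 2 ≤ c) (hac : a.Coprime c)
    (Q : ℤ[X][X]) (K : ℕ) (hQ0 : Q ≠ 0) (hQs : (Bivariate.swap Q).natDegree = 0) (hQB : Bd K Q)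
    (t : ℝ) (hz : (bm (Int.castRingHom ℝ) Q).evalEval t ((a : ℝ) ^ x / (c : ℝ) ^ z) = 0) :
    c ^ z ≤ K := by
  classical
  set d := Q.natDegree with hd
  have hQb : Box d 0 Q := ⟨le_refl _, hQs.le⟩
  have hlead : (Q.coeff d).coeff 0 ≠ 0 := by
    intro h0
    have h1 : Q.coeff d ≠ 0 := by rw [hd, coeff_natDegree]; exact leadingCoeff_ne_zero.2 hQ0
    apply h1
    ext j
    by_cases hj : (Q.coeff d).coeff j = 0
    · rw [hj, coeff_zero]
    · have := (hQb.coeff hj).2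
      have hj0 : j = 0 := by omega
      rw [hj0, h0, coeff_zero]
  rw [box_evalEval (bm_box _ hQb)] at hz
  simp only [zero_add, Finset.range_one, Finset.sum_singleton, pow_zero, mul_one, bm_coeff,
    eq_intCast] at hz
  have hcR : (c : ℝ) ≠ 0 := by exact_mod_cast (by omega : c ≠ 0)
  have hsum : ((∑ i ∈ Finset.range (d + 1), (Q.coeff i).coeff 0 * (a : ℤ) ^ (x * i) *
      (c : ℤ) ^ (z * (d - i)) : ℤ) : ℝ) = 0 := by
    push_cast
    rw [← mul_zero ((c : ℝ) ^ (z * d)), ← hz, Finset.mul_sum]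
    apply Finset.sum_congr rfl
    intro i hi
    have hi' : i ≤ d := by rw [Finset.mem_range] at hi; omega
    have : (c : ℝ) ^ (z * d) = (c : ℝ) ^ (z * (d - i)) * (c : ℝ) ^ (z * i) := by
      rw [← pow_add, ← mul_add, Nat.sub_add_cancel hi']
    rw [this, div_pow, ← pow_mul, ← pow_mul]
    field_simp
  have hsumZ : ∑ i ∈ Finset.range (d + 1), (Q.coeff i).coeff 0 * (a : ℤ) ^ (x * i) *
      (c : ℤ) ^ (z * (d - i)) = 0 := by exact_mod_cast hsum
  rw [Finset.sum_range_succ, Nat.sub_self, mul_zero, pow_zero, mul_one] at hsumZ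
  have hdvd : (c : ℤ) ^ z ∣ ∑ i ∈ Finset.range d, (Q.coeff i).coeff 0 * (a : ℤ) ^ (x * i) *
      (c : ℤ) ^ (z * (d - i)) := by
    apply Finset.dvd_sum
    intro i hi
    apply Dvd.dvd.mul_left
    apply pow_dvd_pow
    rw [Finset.mem_range] at hi
    calc z = z * 1 := (mul_one z).symm
      _ ≤ z * (d - i) := Nat.mul_le_mul_left _ (by omega)
  have hdvd2 : (c : ℤ) ^ z ∣ (Q.coeff d).coeff 0 * (a : ℤ) ^ (x * d) := by
    rw [eq_neg_of_add_eq_zero_right hsumZ]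
    exact hdvd.neg_right
  have hcop : IsCoprime ((c : ℤ) ^ z) ((a : ℤ) ^ (x * d)) := by
    apply IsCoprime.pow
    exact Nat.isCoprime_iff_coprime.2 hac.symm
  have hdvd3 := hcop.dvd_of_dvd_mul_right hdvd2
  have h4 := Int.le_of_dvd (abs_pos.2 hlead) ((dvd_abs _ _).2 hdvd3)
  have h5 := h4.trans (hQB d 0)
  exact_mod_cast h5

end Pool.Agent.MP_09c87f_nt
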