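import Mathlib

open Polynomial

namespace Pool.Agent.MP_09c87f_nt

variable {R : Type*} [CommRing R]

/-- The substitution `S ↦ S τ ^ w1`, `T ↦ T τ ^ w2` (outer variable `S`, inner variable `T`). -/
noncomputable def wt (w1 w2 : ℕ) : R[X][X] →+* R[X][X][X] :=
  eval₂RingHom (eval₂RingHom ((C : R[X][X] →+* R[X][X][X]).comp
    ((C : R[X] →+* R[X][X]).comp (C : R →+* R[X])))
    ((C (C (X : R[X]) : R[X][X]) : R[X][X][X]) * X ^ w2)) ((C (X : R[X][X]) : R[X][X][X]) * X ^ w1)

lemma wt_monomial (w1 w2 n m : ℕ) (r : R) :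
    wt w1 w2 (monomial n (monomial m r)) = monomial (w1 * n + w2 * m) (monomial n (monomial m r)) := by
  simp only [wt, coe_eval₂RingHom, eval₂_monomial, RingHom.coe_comp, Function.comp_apply]
  have e1 : ((C (C (X : R[X]) : R[X][X]) : R[X][X][X]) * X ^ w2) ^ m =
      C (C (X ^ m : R[X]) : R[X][X]) * X ^ (w2 * m) := by
    simp only [C_pow]
    ring
  have e2 : ((C (X : R[X][X]) : R[X][X][X]) * X ^ w1) ^ n =
      C (X ^ n : R[X][X]) * X ^ (w1 * n) := by
    simp only [C_pow]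
    ring
  erw [e1, e2]
  have h1 : (monomial n (monomial m r) : R[X][X]) = C (C r) * C (X ^ m) * X ^ n := by
    rw [← C_mul_X_pow_eq_monomial, ← C_mul_X_pow_eq_monomial, ← C_mul]
  have h2 : (monomial (w1 * n + w2 * m) (monomial n (monomial m r)) : R[X][X][X]) =
      C (monomial n (monomial m r)) * X ^ (w1 * n + w2 * m) := by
    rw [C_mul_X_pow_eq_monomial]
  rw [h2, h1, pow_add, C_mul, C_mul]
  ring

lemma wt_coeff (w1 w2 : ℕ) (F : R[X][X]) (v i j : ℕ) :
    (((wt w1 w2 F).coeff v).coeff i).coeff j =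
      if w1 * i + w2 * j = v then (F.coeff i).coeff j else 0 := by
  induction F using Polynomial.induction_on' with
  | add p q hp hq =>
    rw [map_add, coeff_add, coeff_add, coeff_add, hp, hq, coeff_add, coeff_add]
    split_ifs <;> simp
  | monomial n a =>
    induction a using Polynomial.induction_on' with
    | add p q hp hq =>
      rw [map_add, map_add, coeff_add, coeff_add, coeff_add, hp, hq, coeff_add, coeff_add]
      split_ifs <;> simp
    | monomial m r =>
      rw [wt_monomial]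
      simp only [coeff_monomial]
      by_cases h1 : n = i
      · subst h1
        by_cases h2 : m = j
        · subst h2
          by_cases h3 : w1 * n + w2 * m = v
          · simp [h3, coeff_monomial]
          · simp [h3]
        · by_cases h3 : w1 * n + w2 * m = v <;> simp [h3, h2, coeff_monomial]
      · by_cases h3 : w1 * n + w2 * m = v <;> simp [h3, h1, coeff_monomial]

lemma ne_zero_iff_coeff (F : R[X][X]) : F ≠ 0 ↔ ∃ i j, (F.coeff i).coeff j ≠ 0 := by
  constructor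
  · intro h
    by_contra h2
    push Not at h2
    apply h
    ext i j
    simp [h2 i j]
  · rintro ⟨i, j, h⟩ rfl
    simp at h

lemma wt_ne_zero (w1 w2 : ℕ) {F : R[X][X]} (hF : F ≠ 0) : wt w1 w2 F ≠ 0 := by
  obtain ⟨i, j, h⟩ := (ne_zero_iff_coeff F).1 hF
  intro h0
  have := wt_coeff w1 w2 F (w1 * i + w2 * j) i j
  rw [h0] at this
  simp at this
  exact h this.symm

/-- smallest weight -/
noncomputable def lowW (w1 w2 : ℕ) (F : R[X][X]) : ℕ := (wt w1 w2 F).natTrailingDegree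

/-- largest weight -/
noncomputable def highW (w1 w2 : ℕ) (F : R[X][X]) : ℕ := (wt w1 w2 F).natDegree

lemma lowW_le {w1 w2 : ℕ} {F : R[X][X]} {i j : ℕ} (h : (F.coeff i).coeff j ≠ 0) :
    lowW w1 w2 F ≤ w1 * i + w2 * j := by
  apply natTrailingDegree_le_of_ne_zero
  intro h0
  have := wt_coeff w1 w2 F (w1 * i + w2 * j) i j
  rw [h0] at this
  simp at this
  exact h this.symm

lemma le_highW {w1 w2 : ℕ} {F : R[X][X]} {i j : ℕ} (h : (F.coeff i).coeff j ≠ 0) :
    w1 * i + w2 * j ≤ highW w1 w2 F := by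
  apply le_natDegree_of_ne_zero
  intro h0
  have := wt_coeff w1 w2 F (w1 * i + w2 * j) i j
  rw [h0] at this
  simp at this
  exact h this.symm

lemma exists_lowW {w1 w2 : ℕ} {F : R[X][X]} (hF : F ≠ 0) :
    ∃ i j, (F.coeff i).coeff j ≠ 0 ∧ lowW w1 w2 F = w1 * i + w2 * j := by
  have h1 : (wt w1 w2 F).coeff (lowW w1 w2 F) ≠ 0 := by
    have := trailingCoeff_nonzero_iff_nonzero.2 (wt_ne_zero w1 w2 hF)
    exact this
  obtain ⟨i, j, h⟩ := (ne_zero_iff_coeff _).1 h1
  rw [wt_coeff] at h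
  refine ⟨i, j, ?_, ?_⟩
  · intro h0; rw [h0] at h; simp at h
  · by_contra h0
    rw [if_neg (fun h' => h0 h'.symm)] at h
    exact h rfl

lemma exists_highW {w1 w2 : ℕ} {F : R[X][X]} (hF : F ≠ 0) :
    ∃ i j, (F.coeff i).coeff j ≠ 0 ∧ highW w1 w2 F = w1 * i + w2 * j := by
  have h1 : (wt w1 w2 F).coeff (highW w1 w2 F) ≠ 0 := by
    have := leadingCoeff_ne_zero.2 (wt_ne_zero w1 w2 hF)
    exact this
  obtain ⟨i, j, h⟩ := (ne_zero_iff_coeff _).1 h1
  rw [wt_coeff] at h
  refine ⟨i, j, ?_, ?_⟩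
  · intro h0; rw [h0] at h; simp at h
  · by_contra h0
    rw [if_neg (fun h' => h0 h'.symm)] at h
    exact h rfl

lemma lowW_mul [IsDomain R] {w1 w2 : ℕ} {F G : R[X][X]} (hF : F ≠ 0) (hG : G ≠ 0) :
    lowW w1 w2 (F * G) = lowW w1 w2 F + lowW w1 w2 G := by
  rw [lowW, map_mul, natTrailingDegree_mul (wt_ne_zero _ _ hF) (wt_ne_zero _ _ hG)]
  rfl

lemma highW_mul [IsDomain R] {w1 w2 : ℕ} {F G : R[X][X]} (hF : F ≠ 0) (hG : G ≠ 0) :
    highW w1 w2 (F * G) = highW w1 w2 F + highW w1 w2 G := by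
  rw [highW, map_mul, natDegree_mul (wt_ne_zero _ _ hF) (wt_ne_zero _ _ hG)]
  rfl

end Pool.Agent.MP_09c87f_nt
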